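import Pool.Agent.H46.SB.Mc

/-!
ROW Md (MP_b319aa_NA, M6 c: Liouville).
PROOF. Let `m1` be the maximum of `F` on the unit circle. `log ‖z‖` is harmonic off `0` (`AnalyticAt.harmonicAt_log_norm`). For `ε > 0` and `R > 1` with
`M ≤ m1 + ε log R` apply `SubH.le_harm` on the annulus `{1 < ‖z‖ < R}` with `h z = m1 + ε log ‖z‖`: `F z ≤ m1 + ε log ‖z‖` there; for every fixed `z`, `‖z‖ > 1`, let `R → ∞`
and then `ε → 0`: `F z ≤ m1`. On the unit disc `F ≤ m1` by `SubH.le_harm` with the constant `m1`. So `F` attains its maximum over `ℂ` at a point of the unit circle and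
`SubH.const_of_max` (with `O = univ`) applies.
-/

set_option autoImplicit false

namespace H46SB

open H50NA MeasureTheory Metric Set Filter Topology InnerProductSpace

private lemma Md_annulus {F : ℂ → ℝ} (hF : SubH F univ) {M m1 : ℝ} (hM : ∀ z, F z ≤ M)
    (hm1 : ∀ w, ‖w‖ = 1 → F w ≤ m1) {ε : ℝ} (hε : 0 < ε) {z : ℂ} (hz : 1 < ‖z‖) :
    F z ≤ m1 + ε * Real.log ‖z‖ := by
  have hFc : Continuous F := continuousOn_univ.1 hF.cont
  set R : ℝ := max (‖z‖ + 1) (Real.exp ((M - m1) / ε)) with hR
  have hRz : ‖z‖ < R := lt_of_lt_of_le (by linarith) (le_max_left _ _)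
  have hR0 : 0 < R := by linarith [norm_nonneg z]
  have hRM : M ≤ m1 + ε * Real.log R := by
    have h1 : (M - m1) / ε ≤ Real.log R := by
      rw [Real.le_log_iff_exp_le hR0]
      exact le_max_right _ _
    rw [div_le_iff₀ hε] at h1
    linarith
  set O : Set ℂ := {w | 1 < ‖w‖ ∧ ‖w‖ < R} with hO
  have hOo : IsOpen O := (isOpen_lt continuous_const continuous_norm).inter
    (isOpen_lt continuous_norm continuous_const)
  have hOb : Bornology.IsBounded O := by
    refine isBounded_ball.subset (fun w hw => ?_ : O ⊆ ball 0 R)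
    rw [mem_ball_zero_iff]
    exact hw.2
  have hcl : closure O ⊆ {w | 1 ≤ ‖w‖ ∧ ‖w‖ ≤ R} := by
    refine closure_minimal (fun w hw => ?_) ((isClosed_le continuous_const continuous_norm).inter
      (isClosed_le continuous_norm continuous_const))
    exact ⟨hw.1.le, hw.2.le⟩
  have hne : ∀ w ∈ closure O, w ≠ 0 := by
    intro w hw h0
    have := (hcl hw).1
    rw [h0, norm_zero] at this
    linarith
  have hharm : HarmonicOnNhd (fun w : ℂ => m1 + ε * Real.log ‖w‖) O := by
    intro w hw
    have h1 : HarmonicAt (fun w : ℂ => Real.log ‖w‖) w :=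
      AnalyticAt.harmonicAt_log_norm (f := fun w => w) analyticAt_id
        (hne w (subset_closure hw))
    have h2 := (harmonicAt_const (x := w) m1).add (h1.const_smul (c := ε))
    exact h2
  have hcont : ContinuousOn (fun w : ℂ => m1 + ε * Real.log ‖w‖) (closure O) := by
    apply continuousOn_const.add
    apply continuousOn_const.mul
    exact ContinuousOn.log continuous_norm.continuousOn (fun w hw => norm_ne_zero_iff.2 (hne w hw))
  refine SubH.le_harm hOo hOb (SubH.mono_set hF (subset_univ _)) hFc.continuousOn hharm hcont ?_ z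
    (subset_closure ⟨hz, hRz⟩)
  intro w hw
  have hwc := hcl (frontier_subset_closure hw)
  have hwO : w ∉ O := by
    have := hw.2
    rwa [hOo.interior_eq] at this
  rcases hwc.1.lt_or_eq with h1 | h1
  · have h2 : ‖w‖ = R := by
      apply le_antisymm hwc.2
      by_contra hcon
      exact hwO ⟨h1, not_le.1 hcon⟩
    change F w ≤ m1 + ε * Real.log ‖w‖
    rw [h2]
    exact (hM w).trans hRM
  · change F w ≤ m1 + ε * Real.log ‖w‖
    rw [← h1, Real.log_one, mul_zero, add_zero]
    exact hm1 w h1.symm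

theorem SubH.liouville {F : ℂ → ℝ} (hF : SubH F univ) {M : ℝ} (hM : ∀ z, F z ≤ M) : ∀ z w, F z = F w := by
  have hFc : Continuous F := continuousOn_univ.1 hF.cont
  obtain ⟨z0, hz0, hmax⟩ := (isCompact_sphere (0 : ℂ) 1).exists_isMaxOn
    ⟨1, by simp⟩ hFc.continuousOn
  have hm1 : ∀ w, ‖w‖ = 1 → F w ≤ F z0 := fun w hw => hmax (by simpa using hw)
  have hout : ∀ z, 1 < ‖z‖ → F z ≤ F z0 := by
    intro z hz
    refine le_of_forall_pos_le_add fun δ hδ => ?_
    have hlog : 0 < Real.log ‖z‖ := Real.log_pos hz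
    have h1 := Md_annulus hF hM hm1 (ε := δ / Real.log ‖z‖) (div_pos hδ hlog) hz
    rwa [div_mul_cancel₀ _ hlog.ne'] at h1
  have hin : ∀ z, ‖z‖ ≤ 1 → F z ≤ F z0 := by
    intro z hz
    have h1 : closure (ball (0 : ℂ) 1) = closedBall 0 1 := closure_ball _ one_ne_zero
    refine SubH.le_harm (O := ball (0 : ℂ) 1) (h := fun _ => F z0) isOpen_ball isBounded_ball
      (SubH.mono_set hF (subset_univ _)) hFc.continuousOn (harmonicOnNhd_const _) continuousOn_const ?_ z ?_
    · intro w hw
      rw [frontier_ball _ one_ne_zero] at hw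
      exact hm1 w (by simpa using hw)
    · rw [h1]
      simpa using hz
  have hall : ∀ z, F z ≤ F z0 := by
    intro z
    rcases le_or_gt ‖z‖ 1 with h | h
    · exact hin z h
    · exact hout z h
  have hconst := SubH.const_of_max isOpen_univ isPreconnected_univ hF (mem_univ z0)
    (fun y _ => hall y)
  intro z w
  rw [hconst z (mem_univ _), hconst w (mem_univ _)]

end H46SB
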