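import Pool.Agent.H46.SB.Mc

/-!
ROW Mh (MP_b319aa_NA, M6 f: Rado's theorem, first step).
PROOF. Let `z0 ∈ W = {z ∈ ball c R | f z ≠ 0}`. Show `u z0 ≤ 0` for `u = ±(Re f - h)`. `|Re f - h| ≤ C` on `closedBall c R` (compact, continuous). Let `ε > 0`; choose
`0 < δ < ‖f z0‖` with `C + ε log δ ≤ 0`. `O = {z ∈ ball c R | δ < ‖f z‖}` is open (`f` is continuous on the open ball) and bounded; on `closure O ⊆ closedBall c R ∩ {δ ≤ ‖f‖}` the
function `v = u + ε log ‖f‖` is continuous. `v` is harmonic on `O`: `f` is differentiable at every point of the open set `W ⊇ O`, hence analytic there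
(`DifferentiableOn.analyticAt`), so `Re f` (`AnalyticAt.harmonicAt_re`) and `log ‖f‖` (`AnalyticAt.harmonicAt_log_norm`) are harmonic on `O`. On `frontier O` either
`z ∈ sphere c R`, where `u z = 0` and `log ‖f z‖ ≤ 0`, or `z ∈ ball c R` and `‖f z‖ = δ` (`z ∉ O`), where `v ≤ C + ε log δ ≤ 0`. So `v ≤ 0` on `O` by `SubH.le_harm` (`harm_subH`,
`h = 0`) and `u z0 ≤ - ε log ‖f z0‖`; let `ε → 0`.
-/

set_option autoImplicit false

namespace H46SB

open H50NA MeasureTheory Metric Set Filter Topology InnerProductSpace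

theorem Mh_aux {c : ℂ} {R : ℝ} {f : ℂ → ℂ} (hf : ContinuousOn f (closedBall c R))
    (hf1 : ∀ z ∈ closedBall c R, ‖f z‖ ≤ 1) (hd : ∀ z ∈ ball c R, f z ≠ 0 → DifferentiableAt ℂ f z)
    {u : ℂ → ℝ} (hu : HarmonicOnNhd u {z | z ∈ ball c R ∧ f z ≠ 0})
    (huc : ContinuousOn u (closedBall c R)) (hb : ∀ z ∈ sphere c R, u z = 0)
    {z₀ : ℂ} (hz : z₀ ∈ ball c R) (hz0 : f z₀ ≠ 0) : u z₀ ≤ 0 := by
  have hbc : ball c R ⊆ closedBall c R := ball_subset_closedBall
  have hfb : ContinuousOn f (ball c R) := hf.mono hbc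
  obtain ⟨C, hC⟩ := (isCompact_closedBall c R).exists_bound_of_continuousOn huc
  have hn0 : 0 < ‖f z₀‖ := norm_pos_iff.2 hz0
  have key : ∀ ε : ℝ, 0 < ε → u z₀ + ε * Real.log ‖f z₀‖ ≤ 0 := by
    intro ε hε
    obtain ⟨δ, hδ⟩ : ∃ δ, δ = min (‖f z₀‖ / 2) (Real.exp (-C / ε)) := ⟨_, rfl⟩
    have hδ0 : 0 < δ := by
      rw [hδ]
      exact lt_min (by positivity) (Real.exp_pos _)
    have hδ1 : δ < ‖f z₀‖ := by
      rw [hδ]
      exact (min_le_left _ _).trans_lt (half_lt_self hn0)
    have hδ2 : C + ε * Real.log δ ≤ 0 := by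
      have h1 : Real.log δ ≤ -C / ε := by
        rw [← Real.log_exp (-C / ε)]
        apply Real.log_le_log hδ0
        rw [hδ]
        exact min_le_right _ _
      have h2 : ε * Real.log δ ≤ ε * (-C / ε) := mul_le_mul_of_nonneg_left h1 hε.le
      rw [mul_div_cancel₀ _ hε.ne'] at h2
      linarith
    obtain ⟨O, hO⟩ : ∃ O : Set ℂ, O = ball c R ∩ (fun z => ‖f z‖) ⁻¹' Ioi δ := ⟨_, rfl⟩
    have hOo : IsOpen O := by
      rw [hO]
      exact hfb.norm.isOpen_inter_preimage isOpen_ball isOpen_Ioi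
    have hOb : O ⊆ ball c R := by
      rw [hO]
      exact inter_subset_left
    have hOW : O ⊆ {z | z ∈ ball c R ∧ f z ≠ 0} := by
      rw [hO]
      rintro z ⟨h1, h2⟩
      refine ⟨h1, fun h3 => ?_⟩
      have h4 : δ < ‖f z‖ := h2
      rw [h3, norm_zero] at h4
      exact absurd h4 (not_lt.2 hδ0.le)
    have hcl : closure O ⊆ closedBall c R ∩ (fun z => ‖f z‖) ⁻¹' Ici δ := by
      apply closure_minimal
      · rw [hO]
        rintro z ⟨h1, h2⟩
        have h3 : δ < ‖f z‖ := h2
        exact ⟨hbc h1, h3.le⟩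
      · exact hf.norm.preimage_isClosed_of_isClosed isClosed_closedBall isClosed_Ici
    have hne : ∀ z ∈ closure O, f z ≠ 0 := by
      intro z hzc h3
      have h4 : δ ≤ ‖f z‖ := (hcl hzc).2
      rw [h3, norm_zero] at h4
      exact absurd h4 (not_le.2 hδ0)
    have hWo : IsOpen {z | z ∈ ball c R ∧ f z ≠ 0} := by
      have h1 : {z | z ∈ ball c R ∧ f z ≠ 0} = ball c R ∩ f ⁻¹' {0}ᶜ := rfl
      rw [h1]
      exact hfb.isOpen_inter_preimage isOpen_ball isOpen_compl_singleton
    have han : ∀ z ∈ O, AnalyticAt ℂ f z := by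
      intro z hzO
      apply DifferentiableOn.analyticAt (s := {z | z ∈ ball c R ∧ f z ≠ 0})
      · intro w hw
        exact (hd w hw.1 hw.2).differentiableWithinAt
      · exact hWo.mem_nhds (hOW hzO)
    have hharm : HarmonicOnNhd (u + ε • fun z => Real.log ‖f z‖) O := by
      apply HarmonicOnNhd.add (hu.mono hOW)
      apply HarmonicOnNhd.const_smul
      intro z hzO
      exact (han z hzO).harmonicAt_log_norm (hOW hzO).2
    have hcont : ContinuousOn (u + ε • fun z => Real.log ‖f z‖) (closure O) := by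
      apply (huc.mono (fun z hzc => (hcl hzc).1)).add
      apply ContinuousOn.const_smul
      apply ContinuousOn.log
      · exact (hf.mono (fun z hzc => (hcl hzc).1)).norm
      · intro z hzc
        exact norm_ne_zero_iff.2 (hne z hzc)
    have hfin := SubH.le_harm hOo (isBounded_ball.subset hOb) (harm_subH hharm) hcont
      (h := fun _ => (0 : ℝ)) (harmonicOnNhd_const 0) continuousOn_const (by
        intro z hzf
        have hzc : z ∈ closure O := hzf.1
        have hzO : z ∉ O := by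
          rw [hOo.frontier_eq] at hzf
          exact hzf.2
        obtain ⟨h1, h2⟩ := hcl hzc
        have h2' : δ ≤ ‖f z‖ := h2
        have h3 : (u + ε • fun z => Real.log ‖f z‖) z = u z + ε * Real.log ‖f z‖ := rfl
        rw [h3]
        by_cases hzb : z ∈ ball c R
        · have h4 : ‖f z‖ = δ := by
            refine le_antisymm ?_ h2'
            by_contra hlt
            apply hzO
            rw [hO]
            exact ⟨hzb, not_le.1 hlt⟩
          rw [h4]
          have h5 := hC z h1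
          have h6 : u z ≤ C := (le_abs_self _).trans h5
          linarith
        · have hs : z ∈ sphere c R := by
            rw [mem_sphere]
            exact le_antisymm (mem_closedBall.1 h1) (not_lt.1 hzb)
          rw [hb z hs, zero_add]
          exact mul_nonpos_of_nonneg_of_nonpos hε.le
            (Real.log_nonpos (norm_nonneg _) (hf1 z h1)))
    have hz₀O : z₀ ∈ O := by
      rw [hO]
      exact ⟨hz, hδ1⟩
    exact hfin z₀ (subset_closure hz₀O)
  by_contra hpos
  have hpos' : 0 < u z₀ := not_le.1 hpos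
  have hL : Real.log ‖f z₀‖ ≤ 0 := Real.log_nonpos (norm_nonneg _) (hf1 z₀ (hbc hz))
  obtain ⟨L, hLd⟩ : ∃ L, L = -Real.log ‖f z₀‖ := ⟨_, rfl⟩
  have hL0 : 0 ≤ L := by rw [hLd]; linarith
  have h1 := key (u z₀ / (2 * (L + 1))) (by positivity)
  have h2 : Real.log ‖f z₀‖ = -L := by rw [hLd]; ring
  rw [h2] at h1
  have h3 : u z₀ / (2 * (L + 1)) * L ≤ u z₀ / 2 := by
    rw [div_mul_eq_mul_div, div_le_div_iff₀ (by positivity) (by norm_num)]
    nlinarith
  nlinarith

theorem rado_re {c : ℂ} {R : ℝ} (hR : 0 < R) {f : ℂ → ℂ} (hf : ContinuousOn f (closedBall c R))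
    (hf1 : ∀ z ∈ closedBall c R, ‖f z‖ ≤ 1) (hd : ∀ z ∈ ball c R, f z ≠ 0 → DifferentiableAt ℂ f z)
    {h : ℂ → ℝ} (hh : HarmonicOnNhd h (ball c R)) (hhc : ContinuousOn h (closedBall c R))
    (hb : ∀ z ∈ sphere c R, h z = (f z).re) : ∀ z ∈ ball c R, f z ≠ 0 → (f z).re = h z := by
  intro z hz hz0
  have hbc : ball c R ⊆ closedBall c R := ball_subset_closedBall
  have hWo : IsOpen {z | z ∈ ball c R ∧ f z ≠ 0} := by
    have h1 : {z | z ∈ ball c R ∧ f z ≠ 0} = ball c R ∩ f ⁻¹' {0}ᶜ := rfl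
    rw [h1]
    exact (hf.mono hbc).isOpen_inter_preimage isOpen_ball isOpen_compl_singleton
  have hre : HarmonicOnNhd (fun z => (f z).re) {z | z ∈ ball c R ∧ f z ≠ 0} := by
    intro w hw
    apply AnalyticAt.harmonicAt_re
    apply DifferentiableOn.analyticAt (s := {z | z ∈ ball c R ∧ f z ≠ 0})
    · intro w' hw'
      exact (hd w' hw'.1 hw'.2).differentiableWithinAt
    · exact hWo.mem_nhds hw
  have hh' : HarmonicOnNhd h {z | z ∈ ball c R ∧ f z ≠ 0} := hh.mono fun w hw => hw.1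
  have hrc : ContinuousOn (fun z => (f z).re) (closedBall c R) :=
    Complex.continuous_re.comp_continuousOn hf
  have h1 := Mh_aux hf hf1 hd (hre.sub hh') (hrc.sub hhc) (by
    intro w hw
    change (f w).re - h w = 0
    rw [hb w hw, sub_self]) hz hz0
  have h2 := Mh_aux hf hf1 hd (hh'.sub hre) (hhc.sub hrc) (by
    intro w hw
    change h w - (f w).re = 0
    rw [hb w hw, sub_self]) hz hz0
  have h3 : (f z).re - h z ≤ 0 := h1
  have h4 : h z - (f z).re ≤ 0 := h2
  linarith

end H46SB
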