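import Mathlib

/-!
ROW Mi (MP_b319aa_NA, M6 f: Rado's theorem, second step).
PROOF. `h1 = Re G1`, `h2 = Re G2` on `ball c R` with `G1`, `G2` analytic (`InnerProductSpace.HarmonicOnNhd.exists_analyticOnNhd_ball_re_eq`). On the open set `W`:
`f - G1` is analytic with real part `0`, so its derivative vanishes on `W` (an analytic function with values in the imaginary axis is locally constant: open mapping, or
Cauchy-Riemann: `HasDerivAt` with real and imaginary directions: `Re (d) = 0` and `Re (d i) = 0` give `d = 0`); similarly `-i f - G2` has real part `Im f - h2 = 0`.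
So `deriv G1 = deriv f` and `deriv G2 = -i deriv f` on `W`, hence `deriv G2 = -i deriv G1` on `W` and, by the identity theorem
(`AnalyticOnNhd.eqOn_of_preconnected_of_eventuallyEq`), on `ball c R`. So `G2 + i G1` is constant on the ball (`IsOpen.is_const_of_deriv_eq_zero` or
`Convex.is_const_of_fderivWithin_eq_zero`), `= k`: `h2 = Re (k - i G1) = Re k + Im G1`, and `h1 + i h2 = G1 + i Re k` on the ball.
-/

set_option autoImplicit false

namespace H46SB

open MeasureTheory Metric Set Filter Topology InnerProductSpace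

/-- The derivative of a function with locally zero real part vanishes. -/
theorem rado_deriv_zero {g : ℂ → ℂ} {z : ℂ} (hg : DifferentiableAt ℂ g z)
    (h0 : ∀ᶠ w in 𝓝 z, (g w).re = 0) : deriv g z = 0 := by
  have key : ∀ v : ℂ, (deriv g z * v).re = 0 := by
    intro v
    have h1 : HasDerivAt (fun t : ℝ => z + (t : ℂ) * v) v 0 := by
      have h2 : HasDerivAt (fun t : ℝ => (t : ℂ)) 1 0 := Complex.ofRealCLM.hasDerivAt
      have h3 := (h2.mul_const v).const_add z
      simpa using h3
    have h4 : HasDerivAt g (deriv g z) (z + ((0 : ℝ) : ℂ) * v) := by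
      simpa using hg.hasDerivAt
    have h5 : HasDerivAt (fun t : ℝ => g (z + (t : ℂ) * v)) (deriv g z * v) 0 := by
      have h6 := HasDerivAt.scomp (0 : ℝ) h4 h1
      simpa [Function.comp_def, mul_comm] using h6
    have h7 : HasDerivAt (fun t : ℝ => (g (z + (t : ℂ) * v)).re) (deriv g z * v).re 0 := by
      have h8 := Complex.reCLM.hasFDerivAt.comp_hasDerivAt (0 : ℝ) h5
      simpa [Function.comp_def] using h8
    have h9 : Tendsto (fun t : ℝ => z + (t : ℂ) * v) (𝓝 0) (𝓝 z) := by
      have h10 := h1.continuousAt.tendsto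
      simpa using h10
    have h11 : (fun t : ℝ => (g (z + (t : ℂ) * v)).re) =ᶠ[𝓝 0] fun _ => 0 := h9.eventually h0
    have h12 : HasDerivAt (fun t : ℝ => (g (z + (t : ℂ) * v)).re) 0 0 :=
      (hasDerivAt_const (0 : ℝ) (0 : ℝ)).congr_of_eventuallyEq h11
    exact h7.unique h12
  apply Complex.ext
  · simpa using key 1
  · have h := key Complex.I
    simp at h
    simpa using h

theorem rado_hol {c : ℂ} {R : ℝ} {h1 h2 : ℂ → ℝ} (hh1 : HarmonicOnNhd h1 (ball c R))
    (hh2 : HarmonicOnNhd h2 (ball c R)) {W : Set ℂ} (hW : IsOpen W) (hWn : W.Nonempty) (hWb : W ⊆ ball c R)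
    {f : ℂ → ℂ} (hf : ∀ z ∈ W, DifferentiableAt ℂ f z) (he1 : ∀ z ∈ W, (f z).re = h1 z)
    (he2 : ∀ z ∈ W, (f z).im = h2 z) :
    DifferentiableOn ℂ (fun z => (h1 z : ℂ) + Complex.I * (h2 z : ℂ)) (ball c R) := by
  obtain ⟨G1, hG1, hr1⟩ := InnerProductSpace.HarmonicOnNhd.exists_analyticOnNhd_ball_re_eq hh1
  obtain ⟨G2, hG2, hr2⟩ := InnerProductSpace.HarmonicOnNhd.exists_analyticOnNhd_ball_re_eq hh2
  have hd1 : ∀ z ∈ W, deriv G1 z = deriv f z := by
    intro z hz
    have hgz : DifferentiableAt ℂ G1 z := (hG1 z (hWb hz)).differentiableAt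
    have h0 : deriv (fun w => f w - G1 w) z = 0 := by
      apply rado_deriv_zero ((hf z hz).sub hgz)
      filter_upwards [hW.mem_nhds hz] with w hw
      have h1 : (G1 w).re = h1 w := hr1 (hWb hw)
      change (f w - G1 w).re = 0
      rw [Complex.sub_re, he1 w hw, h1, sub_self]
    rw [deriv_fun_sub (hf z hz) hgz] at h0
    exact (sub_eq_zero.mp h0).symm
  have hd2 : ∀ z ∈ W, deriv G2 z = -Complex.I * deriv f z := by
    intro z hz
    have hgz : DifferentiableAt ℂ G2 z := (hG2 z (hWb hz)).differentiableAt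
    have h0 : deriv (fun w => -Complex.I * f w - G2 w) z = 0 := by
      apply rado_deriv_zero (((hf z hz).const_mul (-Complex.I)).sub hgz)
      filter_upwards [hW.mem_nhds hz] with w hw
      have h1 : (G2 w).re = h2 w := hr2 (hWb hw)
      have h3 : (-Complex.I * f w).re = (f w).im := by simp
      change (-Complex.I * f w - G2 w).re = 0
      rw [Complex.sub_re, h3, he2 w hw, h1, sub_self]
    rw [deriv_fun_sub ((hf z hz).const_mul (-Complex.I)) hgz, deriv_const_mul _ (hf z hz)] at h0
    exact (sub_eq_zero.mp h0).symm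
  have hA : AnalyticOnNhd ℂ (fun z => G2 z + Complex.I * G1 z) (ball c R) :=
    hG2.add (analyticOnNhd_const.mul hG1)
  have hAd : ∀ z ∈ ball c R, deriv (fun z => G2 z + Complex.I * G1 z) z = 0 := by
    obtain ⟨z0, hz0⟩ := hWn
    have hA2 : AnalyticOnNhd ℂ (deriv (fun z => G2 z + Complex.I * G1 z)) (ball c R) := hA.deriv
    have h0 : AnalyticOnNhd ℂ (fun _ : ℂ => (0 : ℂ)) (ball c R) := analyticOnNhd_const
    have h1 := hA2.eqOn_of_preconnected_of_eventuallyEq h0 (convex_ball c R).isPreconnected (hWb hz0) (by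
      filter_upwards [hW.mem_nhds hz0] with w hw
      have hg1 : DifferentiableAt ℂ G1 w := (hG1 w (hWb hw)).differentiableAt
      have hg2 : DifferentiableAt ℂ G2 w := (hG2 w (hWb hw)).differentiableAt
      rw [deriv_fun_add hg2 (hg1.const_mul _), deriv_const_mul _ hg1, hd1 w hw, hd2 w hw]
      ring)
    exact fun z hz => h1 hz
  obtain ⟨k, hk⟩ := IsOpen.exists_is_const_of_fderiv_eq_zero (𝕜 := ℂ) (f := fun z => G2 z + Complex.I * G1 z)
    isOpen_ball (convex_ball c R).isPreconnected hA.differentiableOn (by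
      intro z hz
      have h1 : HasDerivAt (fun z => G2 z + Complex.I * G1 z) 0 z := by
        rw [← hAd z hz]
        exact (hA z hz).differentiableAt.hasDerivAt
      have h2 := h1.hasFDerivAt.fderiv
      rw [h2]
      ext
      simp)
  have hfin : ∀ z ∈ ball c R, (h1 z : ℂ) + Complex.I * (h2 z : ℂ) = G1 z + Complex.I * ((k.re : ℝ) : ℂ) := by
    intro z hz
    have e1 : (G1 z).re = h1 z := hr1 hz
    have e2 : (G2 z).re = h2 z := hr2 hz
    have e3 := hk z hz
    have e4 : (G2 z).re - (G1 z).im = k.re := by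
      rw [← e3]
      simp
      ring
    apply Complex.ext
    · simp [e1]
    · simp [← e4, e2]
  exact (hG1.differentiableOn.add_const _).congr hfin

end H46SB
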