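import Mathlib

/-!
ROW Mj (MP_b319aa_NA, M6 f: Rado's theorem, third step).
PROOF. `W = {z ∈ ball c R | f z ≠ 0}` is open and `f = h` on `W`. `V` = interior of `{z ∈ ball c R | f z = 0}`. Claim `V = ∅`. Otherwise, since the ball is connected and `V ≠ ball`
(`W` is non empty), there is `p ∈ ball c R` in the frontier of `V`, `p ∉ V`. `h` is not identically `0` near `p` (otherwise `h = 0` on the ball by the identity theorem, but `h = f ≠ 0`
on `W`), so there is `ρ > 0`, `ball p ρ ⊆ ball c R`, with `h ≠ 0` on the punctured disc `ball p ρ \ {p}` (`AnalyticAt.eventually_eq_zero_or_eventually_ne_zero`). The punctured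
disc is preconnected (the image of the convex set `Ioo 0 ρ ×ˢ univ` under `(r, θ) ↦ p + r e^{iθ}`). `W` meets the punctured disc in a relatively open set, and also
in a relatively closed one: if `z` in the punctured disc is in the closure of `W` then `f z = h z ≠ 0` (both continuous, equal on `W`), so `z ∈ W`. But the punctured disc
contains points of `V` (`p` in the closure of the open set `V`, `V \ {p}`), which are not in `W`; so it does not meet `W`: `f = 0` on the punctured disc, and
`f p = 0` by continuity; so `p ∈ V`, contradiction. Hence `V = ∅`: every `q ∈ ball c R` is in the closure of `W`, and `f q = h q` by continuity.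
-/

set_option autoImplicit false

namespace H46SB

open MeasureTheory Metric Set Filter Topology

private theorem Mj_punct (p : ℂ) (ρ : ℝ) : IsPreconnected (ball p ρ \ {p}) := by
  have h1 : ball p ρ \ {p} =
      (fun q : ℝ × ℝ => p + (q.1 : ℂ) * Complex.exp ((q.2 : ℂ) * Complex.I)) ''
        (Ioo 0 ρ ×ˢ univ) := by
    ext z
    constructor
    · rintro ⟨hz, hzp⟩
      have hne : z - p ≠ 0 := sub_ne_zero.2 hzp
      refine ⟨(‖z - p‖, Complex.arg (z - p)), ⟨⟨norm_pos_iff.2 hne, ?_⟩, mem_univ _⟩, ?_⟩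
      · rwa [mem_ball, dist_eq_norm] at hz
      · change p + (‖z - p‖ : ℂ) * Complex.exp ((Complex.arg (z - p) : ℂ) * Complex.I) = z
        rw [Complex.norm_mul_exp_arg_mul_I]
        ring
    · rintro ⟨⟨r, θ⟩, ⟨⟨hr0, hr1⟩, -⟩, rfl⟩
      change 0 < r at hr0
      change r < ρ at hr1
      have hn : ‖(r : ℂ) * Complex.exp ((θ : ℂ) * Complex.I)‖ = r := by
        rw [norm_mul, Complex.norm_exp_ofReal_mul_I, mul_one, Complex.norm_real,
          Real.norm_of_nonneg hr0.le]
      constructor
      · rw [mem_ball, dist_eq_norm]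
        change ‖p + (r : ℂ) * Complex.exp ((θ : ℂ) * Complex.I) - p‖ < ρ
        rw [add_sub_cancel_left, hn]
        exact hr1
      · intro h0
        change p + (r : ℂ) * Complex.exp ((θ : ℂ) * Complex.I) = p at h0
        have h2 : (r : ℂ) * Complex.exp ((θ : ℂ) * Complex.I) = 0 := by
          rwa [add_eq_left] at h0
        rw [h2, norm_zero] at hn
        exact hr0.ne hn
  rw [h1]
  refine (isPreconnected_Ioo.prod isPreconnected_univ).image _ ?_
  fun_prop

theorem rado_conn {c : ℂ} {R : ℝ} {f h : ℂ → ℂ} (hf : ContinuousOn f (ball c R))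
    (hh : DifferentiableOn ℂ h (ball c R)) (he : ∀ z ∈ ball c R, f z ≠ 0 → f z = h z)
    (hn : ∃ z ∈ ball c R, f z ≠ 0) : ∀ z ∈ ball c R, f z = h z := by
  obtain ⟨z0, hz0, hfz0⟩ := hn
  have hcf : ∀ z ∈ ball c R, ContinuousAt f z := fun z hz => hf.continuousAt (isOpen_ball.mem_nhds hz)
  have hch : ∀ z ∈ ball c R, ContinuousAt h z := fun z hz =>
    hh.continuousOn.continuousAt (isOpen_ball.mem_nhds hz)
  have hnear : ∀ z ∈ ball c R, f z ≠ h z → ∀ᶠ w in 𝓝 z, w ∈ ball c R ∧ f w = 0 := by
    intro z hz hne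
    have h1 : ∀ᶠ w in 𝓝 z, f w - h w ≠ 0 :=
      ((hcf z hz).sub (hch z hz)).eventually_ne (sub_ne_zero.2 hne)
    filter_upwards [h1, isOpen_ball.mem_nhds hz] with w hw hwB
    refine ⟨hwB, ?_⟩
    by_contra h0
    exact hw (sub_eq_zero.2 (he w hwB h0))
  intro q hq
  by_contra hqne
  set V : Set ℂ := interior {z | z ∈ ball c R ∧ f z = 0} with hV
  have hVsub : ∀ z ∈ V, z ∈ ball c R ∧ f z = 0 := by
    intro z hz
    have h1 : z ∈ {z | z ∈ ball c R ∧ f z = 0} := interior_subset hz
    exact h1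
  have hqV : q ∈ V := mem_interior_iff_mem_nhds.2 (hnear q hq hqne)
  have hcl : closure V ∩ ball c R ⊆ V := by
    rintro p ⟨hpc, hpB⟩
    have han : AnalyticAt ℂ h p := hh.analyticAt (isOpen_ball.mem_nhds hpB)
    rcases han.eventually_eq_zero_or_eventually_ne_zero with h0 | h0
    · exfalso
      have hon : AnalyticOnNhd ℂ h (ball c R) := fun z hz =>
        hh.analyticAt (isOpen_ball.mem_nhds hz)
      have h1 := hon.eqOn_zero_of_preconnected_of_eventuallyEq_zero
        (convex_ball c R).isPreconnected hpB h0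
      exact hfz0 ((he z0 hz0 hfz0).trans (h1 hz0))
    · rw [eventually_nhdsWithin_iff] at h0
      obtain ⟨ρ, hρ, hρb⟩ := Metric.eventually_nhds_iff_ball.1
        (h0.and (isOpen_ball.mem_nhds hpB))
      have hfp : f p = 0 := by
        by_contra hne
        have h1 : ∀ᶠ w in 𝓝 p, f w ≠ 0 := (hcf p hpB).eventually_ne hne
        obtain ⟨w, hw1, hw2⟩ := mem_closure_iff_nhds.1 hpc _ h1
        exact hw1 (hVsub w hw2).2
      have hu : IsOpen {z | z ∈ ball p ρ \ {p} ∧ f z = 0} := by
        rw [isOpen_iff_mem_nhds]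
        rintro z ⟨hz, hz0'⟩
        have hzB := (hρb z hz.1).2
        have hhz := (hρb z hz.1).1 hz.2
        have h1 := hnear z hzB (by rw [hz0']; exact hhz.symm)
        have h2 : ball p ρ \ {p} ∈ 𝓝 z :=
          (isOpen_ball.sdiff isClosed_singleton).mem_nhds hz
        filter_upwards [h1, h2] with w hw hw2
        exact ⟨hw2, hw.2⟩
      have hv : IsOpen {z | z ∈ ball p ρ \ {p} ∧ f z ≠ 0} := by
        rw [isOpen_iff_mem_nhds]
        rintro z ⟨hz, hz0'⟩
        have hzB := (hρb z hz.1).2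
        have h2 : ball p ρ \ {p} ∈ 𝓝 z :=
          (isOpen_ball.sdiff isClosed_singleton).mem_nhds hz
        filter_upwards [(hcf z hzB).eventually_ne hz0', h2] with w hw hw2
        exact ⟨hw2, hw⟩
      have hmeet : ((ball p ρ \ {p}) ∩ {z | z ∈ ball p ρ \ {p} ∧ f z = 0}).Nonempty := by
        by_cases hpV : p ∈ V
        · have h1 : ∀ᶠ w in 𝓝[≠] p, w ∈ ball p ρ ∧ w ∈ V :=
            mem_nhdsWithin_of_mem_nhds
              (Filter.inter_mem (ball_mem_nhds p hρ) (isOpen_interior.mem_nhds hpV))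
          obtain ⟨w, hw, hw2⟩ := (h1.and self_mem_nhdsWithin).exists
          exact ⟨w, ⟨hw.1, hw2⟩, ⟨hw.1, hw2⟩, (hVsub w hw.2).2⟩
        · obtain ⟨w, hw1, hw2⟩ := mem_closure_iff_nhds.1 hpc _ (ball_mem_nhds p hρ)
          have hwp : w ∈ ({p} : Set ℂ)ᶜ := by
            rintro rfl
            exact hpV hw2
          exact ⟨w, ⟨hw1, hwp⟩, ⟨hw1, hwp⟩, (hVsub w hw2).2⟩
      have hsub := IsPreconnected.subset_left_of_subset_union hu hv
        (Set.disjoint_left.2 fun z h1 h2 => h2.2 h1.2)
        (fun z hz => by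
          by_cases h1 : f z = 0
          · exact Or.inl ⟨hz, h1⟩
          · exact Or.inr ⟨hz, h1⟩) hmeet (Mj_punct p ρ)
      refine mem_interior_iff_mem_nhds.2 ?_
      filter_upwards [ball_mem_nhds p hρ] with w hw
      refine ⟨(hρb w hw).2, ?_⟩
      by_cases hwp : w = p
      · rw [hwp]
        exact hfp
      · exact (hsub ⟨hw, hwp⟩).2
  have hB := (convex_ball c R).isPreconnected.subset_of_closure_inter_subset isOpen_interior
    ⟨q, hq, hqV⟩ hcl
  exact hfz0 (hVsub z0 (hB hz0)).2

end H46SB
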