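import Pool.Agent.H46.SB.Mg
import Pool.Agent.H46.SB.Mh
import Pool.Agent.H46.SB.Mi
import Pool.Agent.H46.SB.Mj

/-!
ROW Mk (MP_b319aa_NA, M6 f: Rado's theorem).
PROOF. Local: for `x ∈ O` take `closedBall x R ⊆ O`. Let `B > 0` bound `‖f‖` on it; replace `f` by `f / B`, so `‖f‖ ≤ 1`. If `f = 0` on the ball it is differentiable at `x`.
Otherwise let `h1`, `h2` be the Dirichlet solutions (`dirichlet`) for `Re f` and `Im f`. `rado_re` for `f` gives `Re f = h1` on `W = {z ∈ ball x R | f z ≠ 0}`, and `rado_re` for `-i f` (real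
part `Im f`) gives `Im f = h2` on `W`; `W` is open. `rado_hol`: `h = h1 + i h2` is holomorphic on the ball; `rado_conn`: `f = h` on the ball.
-/

set_option autoImplicit false

namespace H46SB

open H50NA MeasureTheory Metric Set Filter Topology InnerProductSpace

private theorem Mk_loc {c : ℂ} {R : ℝ} (hR : 0 < R) {f : ℂ → ℂ} (hf : ContinuousOn f (closedBall c R))
    (hf1 : ∀ z ∈ closedBall c R, ‖f z‖ ≤ 1) (hd : ∀ z ∈ ball c R, f z ≠ 0 → DifferentiableAt ℂ f z)
    (hn : ∃ z ∈ ball c R, f z ≠ 0) : DifferentiableOn ℂ f (ball c R) := by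
  have hre : ContinuousOn (fun z => (f z).re) (sphere c R) :=
    Complex.continuous_re.comp_continuousOn (hf.mono sphere_subset_closedBall)
  have him : ContinuousOn (fun z => (f z).im) (sphere c R) :=
    Complex.continuous_im.comp_continuousOn (hf.mono sphere_subset_closedBall)
  obtain ⟨h1, a1, a2, a3⟩ := dirichlet c hR hre
  obtain ⟨h2, b1, b2, b3⟩ := dirichlet c hR him
  have e1 := rado_re hR hf hf1 hd a1 a2 a3
  have hI : ∀ w : ℂ, (-Complex.I * w).re = w.im := fun w => by
    simp [Complex.mul_re]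
  have e2 : ∀ z ∈ ball c R, f z ≠ 0 → (f z).im = h2 z := by
    have g1 : ContinuousOn (fun z => -Complex.I * f z) (closedBall c R) := continuousOn_const.mul hf
    have g2 : ∀ z ∈ closedBall c R, ‖-Complex.I * f z‖ ≤ 1 := by
      intro z hz
      rw [norm_mul, norm_neg, Complex.norm_I, one_mul]
      exact hf1 z hz
    have g3 : ∀ z ∈ ball c R, -Complex.I * f z ≠ 0 → DifferentiableAt ℂ (fun z => -Complex.I * f z) z := by
      intro z hz hne
      exact (hd z hz (right_ne_zero_of_mul hne)).const_mul _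
    have g4 := rado_re hR g1 g2 g3 b1 b2 (fun z hz => by rw [hI]; exact b3 z hz)
    intro z hz hne
    have g5 := g4 z hz (mul_ne_zero (neg_ne_zero.2 Complex.I_ne_zero) hne)
    rw [hI] at g5
    exact g5
  have hW : IsOpen (ball c R ∩ f ⁻¹' {0}ᶜ) :=
    (hf.mono ball_subset_closedBall).isOpen_inter_preimage isOpen_ball isOpen_compl_singleton
  have hWn : (ball c R ∩ f ⁻¹' {0}ᶜ).Nonempty := by
    obtain ⟨z, hz, hne⟩ := hn
    exact ⟨z, hz, hne⟩
  have h3 := rado_hol a1 b1 hW hWn Set.inter_subset_left (f := f) (fun z hz => hd z hz.1 hz.2)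
    (fun z hz => e1 z hz.1 hz.2) (fun z hz => e2 z hz.1 hz.2)
  have h4 := rado_conn (hf.mono ball_subset_closedBall) h3 (fun z hz hne => by
    rw [← e1 z hz hne, ← e2 z hz hne, mul_comm]
    exact (Complex.re_add_im (f z)).symm) hn
  exact h3.congr h4

theorem rado {f : ℂ → ℂ} {O : Set ℂ} (hO : IsOpen O) (hf : ContinuousOn f O)
    (hd : ∀ z ∈ O, f z ≠ 0 → DifferentiableAt ℂ f z) : DifferentiableOn ℂ f O := by
  intro x hx
  apply DifferentiableAt.differentiableWithinAt
  obtain ⟨R, hR, hRO⟩ := Metric.nhds_basis_closedBall.mem_iff.1 (hO.mem_nhds hx)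
  have hbO : ball x R ⊆ O := ball_subset_closedBall.trans hRO
  have hxb : ball x R ∈ 𝓝 x := ball_mem_nhds x hR
  by_cases hn : ∃ z ∈ ball x R, f z ≠ 0
  · obtain ⟨B, hB⟩ := (isCompact_closedBall x R).exists_bound_of_continuousOn (hf.mono hRO)
    have hM : 0 < max B 1 := lt_of_lt_of_le one_pos (le_max_right _ _)
    set M : ℝ := max B 1 with hMd
    have hMC : (M : ℂ) ≠ 0 := by exact_mod_cast hM.ne'
    have g1 : DifferentiableOn ℂ (fun z => (M : ℂ)⁻¹ * f z) (ball x R) := by
      apply Mk_loc hR (f := fun z => (M : ℂ)⁻¹ * f z) (continuousOn_const.mul (hf.mono hRO))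
      · intro z hz
        rw [norm_mul, norm_inv, Complex.norm_real, Real.norm_of_nonneg hM.le, inv_mul_le_iff₀ hM, mul_one]
        exact (hB z hz).trans (le_max_left _ _)
      · intro z hz hne
        exact (hd z (hbO hz) (right_ne_zero_of_mul hne)).const_mul _
      · obtain ⟨z, hz, hne⟩ := hn
        exact ⟨z, hz, mul_ne_zero (inv_ne_zero hMC) hne⟩
    have g2 : DifferentiableOn ℂ (fun z => (M : ℂ) * ((M : ℂ)⁻¹ * f z)) (ball x R) := g1.const_mul _
    have g3 : DifferentiableOn ℂ f (ball x R) := by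
      apply g2.congr
      intro z _
      rw [mul_inv_cancel_left₀ hMC]
    exact g3.differentiableAt hxb
  · push Not at hn
    have g3 : DifferentiableOn ℂ f (ball x R) := (differentiableOn_const (0 : ℂ)).congr hn
    exact g3.differentiableAt hxb

end H46SB
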