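import Pool.Agent.H50.NA.Defs

/-!
ROW Ma (MP_b319aa_NA, M6 a: elementary facts on functions with nondecreasing ball averages).
PROOF. `F` is continuous on the compact `closedBall x R ⊆ O`, so integrable on `ball x r` (`ContinuousOn.integrableOn_compact`, `mono_set`); averages are linear
(`MeasureTheory.average`, `setAverage_eq`).
`le_avg`: `avg_r F → F x` as `r → 0+` (continuity at `x` relative to the ball: `|avg_r F - F x| ≤ sup_{ball x r} |F - F x|`), and `avg_r F ≤ avg_R F` for `r ≤ R`.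
`lim`: `TendstoUniformlyOn` on `closedBall x R` gives convergence of the averages over `ball x r` and `ball x R`, so `≤` passes to the limit (`le_of_tendsto_of_tendsto`
with `hs` eventually); continuity on `O` (open) from uniform convergence on small closed balls (`TendstoUniformlyOn.continuousOn`, `Fn n` continuous on the ball for
frequently many `n`).
-/

set_option autoImplicit false

namespace H46SB

open H50NA MeasureTheory Metric Set Filter Topology

theorem Ma_int {F : ℂ → ℝ} {x : ℂ} {r R : ℝ} (hF : ContinuousOn F (closedBall x R)) (hr : r ≤ R) :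
    IntegrableOn F (ball x r) :=
  (hF.integrableOn_compact (isCompact_closedBall x R)).mono_set
    (ball_subset_closedBall.trans (closedBall_subset_closedBall hr))

theorem Ma_avg_mono {F G : ℂ → ℝ} {x : ℂ} {r : ℝ} (hF : IntegrableOn F (ball x r)) (hG : IntegrableOn G (ball x r))
    (h : ∀ y ∈ ball x r, F y ≤ G y) : (⨍ y in ball x r, F y) ≤ ⨍ y in ball x r, G y := by
  rw [setAverage_eq, setAverage_eq, smul_eq_mul, smul_eq_mul]
  exact mul_le_mul_of_nonneg_left (setIntegral_mono_on hF hG measurableSet_ball h) (inv_nonneg.2 measureReal_nonneg)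

theorem Ma_avg_const {x : ℂ} {r : ℝ} (hr : 0 < r) (c : ℝ) : (⨍ _y in ball x r, c) = c :=
  setAverage_const (measure_ball_pos volume x hr).ne' measure_ball_lt_top.ne c

theorem Ma_avg_add {F G : ℂ → ℝ} {x : ℂ} {r : ℝ} (hF : IntegrableOn F (ball x r)) (hG : IntegrableOn G (ball x r)) :
    (⨍ y in ball x r, (F y + G y)) = (⨍ y in ball x r, F y) + ⨍ y in ball x r, G y := by
  rw [setAverage_eq, setAverage_eq, setAverage_eq, integral_add hF hG, smul_add]

theorem SubH.mono_set {F : ℂ → ℝ} {O O' : Set ℂ} (h : SubH F O) (hO : O' ⊆ O) : SubH F O' :=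
  ⟨h.cont.mono hO, fun x r R hr hR hx => h.mono x r R hr hR (hx.trans hO)⟩

theorem SubH.congr {F G : ℂ → ℝ} {O : Set ℂ} (h : SubH F O) (hG : ∀ x ∈ O, G x = F x) : SubH G O := by
  refine ⟨h.cont.congr hG, fun x r R hr hR hx => ?_⟩
  have h1 : ∀ s : ℝ, s ≤ R → (⨍ y in ball x s, G y) = ⨍ y in ball x s, F y := fun s hs =>
    setAverage_congr_fun measurableSet_ball (Eventually.of_forall fun y hy =>
      hG y (hx ((ball_subset_closedBall.trans (closedBall_subset_closedBall hs)) hy)))
  rw [h1 r hR, h1 R le_rfl]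
  exact h.mono x r R hr hR hx

theorem SubH.add {F G : ℂ → ℝ} {O : Set ℂ} (hF : SubH F O) (hG : SubH G O) : SubH (fun x => F x + G x) O := by
  refine ⟨hF.cont.add hG.cont, fun x r R hr hR hx => ?_⟩
  rw [Ma_avg_add (Ma_int (hF.cont.mono hx) hR) (Ma_int (hG.cont.mono hx) hR),
    Ma_avg_add (Ma_int (hF.cont.mono hx) le_rfl) (Ma_int (hG.cont.mono hx) le_rfl)]
  exact add_le_add (hF.mono x r R hr hR hx) (hG.mono x r R hr hR hx)

theorem SubH.smul {F : ℂ → ℝ} {O : Set ℂ} (hF : SubH F O) {c : ℝ} (hc : 0 ≤ c) :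
    SubH (fun x => c * F x) O := by
  refine ⟨continuousOn_const.mul hF.cont, fun x r R hr hR hx => ?_⟩
  have h1 : ∀ s : ℝ, (⨍ y in ball x s, c * F y) = c * ⨍ y in ball x s, F y := by
    intro s
    rw [setAverage_eq, setAverage_eq, integral_const_mul, smul_eq_mul, smul_eq_mul]
    ring
  rw [h1, h1]
  exact mul_le_mul_of_nonneg_left (hF.mono x r R hr hR hx) hc

theorem SubH.const (c : ℝ) (O : Set ℂ) : SubH (fun _ => c) O := by
  refine ⟨continuousOn_const, fun x r R hr hR _ => ?_⟩
  rw [Ma_avg_const hr, Ma_avg_const (hr.trans_le hR)]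

theorem SubH.le_avg {F : ℂ → ℝ} {O : Set ℂ} (hF : SubH F O) {x : ℂ} {R : ℝ} (hR : 0 < R)
    (hx : closedBall x R ⊆ O) : F x ≤ ⨍ y in ball x R, F y := by
  refine le_of_forall_pos_le_add fun ε hε => ?_
  have hcw : ContinuousWithinAt F (closedBall x R) x :=
    (hF.cont.mono hx) x (mem_closedBall_self hR.le)
  obtain ⟨δ, hδ, h1⟩ := Metric.continuousWithinAt_iff.1 hcw ε hε
  have hr : 0 < min δ R := lt_min hδ hR
  have h2 : F x - ε ≤ ⨍ y in ball x (min δ R), F y := by
    rw [← Ma_avg_const (x := x) hr (F x - ε)]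
    refine Ma_avg_mono (integrableOn_const measure_ball_lt_top.ne) (Ma_int (hF.cont.mono hx) (min_le_right _ _)) ?_
    intro y hy
    have h3 : dist y x < δ := lt_of_lt_of_le hy (min_le_left _ _)
    have h4 : y ∈ closedBall x R := (ball_subset_closedBall.trans (closedBall_subset_closedBall (min_le_right _ _))) hy
    have h5 := h1 h4 h3
    rw [Real.dist_eq] at h5
    have h6 := (abs_lt.1 h5).1
    linarith
  have h3 := hF.mono x (min δ R) R hr (min_le_right _ _) hx
  linarith

theorem Ma_avg_tendsto {ι : Type*} {l : Filter ι} {Fn : ι → ℂ → ℝ} {F : ℂ → ℝ} {x : ℂ} {r R : ℝ}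
    (hr : 0 < r) (hR : r ≤ R) (hF : ContinuousOn F (closedBall x R))
    (hs : ∀ᶠ n in l, ContinuousOn (Fn n) (closedBall x R))
    (hu : TendstoUniformlyOn Fn F l (closedBall x R)) :
    Tendsto (fun n => ⨍ y in ball x r, Fn n y) l (𝓝 (⨍ y in ball x r, F y)) := by
  rw [Metric.tendsto_nhds]
  intro ε hε
  have h1 := Metric.tendstoUniformlyOn_iff.1 hu (ε / 2) (half_pos hε)
  filter_upwards [hs, h1] with n hn h2
  have hc : ∀ c : ℝ, IntegrableOn (fun _ : ℂ => c) (ball x r) := fun c => integrableOn_const measure_ball_lt_top.ne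
  have hb : ∀ y ∈ ball x r, |F y - Fn n y| < ε / 2 := fun y hy => by
    have h3 := h2 y ((ball_subset_closedBall.trans (closedBall_subset_closedBall hR)) hy)
    rwa [Real.dist_eq] at h3
  have hFi := Ma_int hF hR
  have hni := Ma_int hn hR
  have h4 : (⨍ y in ball x r, Fn n y) ≤ (⨍ y in ball x r, F y) + ε / 2 := by
    have h5 := Ma_avg_mono hni (hFi.add (hc (ε / 2))) (fun y hy => by
      have h6 := (abs_lt.1 (hb y hy)).1
      change Fn n y ≤ F y + ε / 2
      linarith)
    refine h5.trans (le_of_eq ?_)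
    have h7 := Ma_avg_add hFi (hc (ε / 2))
    rw [Ma_avg_const hr] at h7
    exact h7
  have h5 : (⨍ y in ball x r, F y) ≤ (⨍ y in ball x r, Fn n y) + ε / 2 := by
    have h5 := Ma_avg_mono hFi (hni.add (hc (ε / 2))) (fun y hy => by
      have h6 := (abs_lt.1 (hb y hy)).2
      change F y ≤ Fn n y + ε / 2
      linarith)
    refine h5.trans (le_of_eq ?_)
    have h7 := Ma_avg_add hni (hc (ε / 2))
    rw [Ma_avg_const hr] at h7
    exact h7
  rw [Real.dist_eq, abs_lt]
  constructor <;> linarith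

theorem SubH.lim {ι : Type*} {l : Filter ι} [l.NeBot] {Fn : ι → ℂ → ℝ} {F : ℂ → ℝ} {O : Set ℂ} (hO : IsOpen O)
    (hs : ∀ (x : ℂ) (R : ℝ), 0 < R → closedBall x R ⊆ O →
      ∀ᶠ n in l, ∃ O' : Set ℂ, closedBall x R ⊆ O' ∧ SubH (Fn n) O')
    (hu : ∀ (x : ℂ) (R : ℝ), 0 < R → closedBall x R ⊆ O → TendstoUniformlyOn Fn F l (closedBall x R)) :
    SubH F O := by
  have hc : ∀ (x : ℂ) (R : ℝ), 0 < R → closedBall x R ⊆ O →
      (∀ᶠ n in l, ContinuousOn (Fn n) (closedBall x R)) ∧ ContinuousOn F (closedBall x R) := by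
    intro x R hR hx
    have h1 : ∀ᶠ n in l, ContinuousOn (Fn n) (closedBall x R) := by
      filter_upwards [hs x R hR hx] with n hn
      obtain ⟨O', h2, h3⟩ := hn
      exact h3.cont.mono h2
    exact ⟨h1, (hu x R hR hx).continuousOn h1.frequently⟩
  constructor
  · intro x hx
    obtain ⟨R, hR, h1⟩ := Metric.nhds_basis_closedBall.mem_iff.1 (hO.mem_nhds hx)
    have h2 := (hc x R hR h1).2 x (mem_closedBall_self hR.le)
    exact (h2.continuousAt (closedBall_mem_nhds x hR)).continuousWithinAt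
  · intro x r R hr hR hx
    obtain ⟨h1, h2⟩ := hc x R (hr.trans_le hR) hx
    have h3 := Ma_avg_tendsto hr hR h2 h1 (hu x R (hr.trans_le hR) hx)
    have h4 := Ma_avg_tendsto (hr.trans_le hR) le_rfl h2 h1 (hu x R (hr.trans_le hR) hx)
    refine le_of_tendsto_of_tendsto h3 h4 ?_
    filter_upwards [hs x R (hr.trans_le hR) hx] with n hn
    obtain ⟨O', h5, h6⟩ := hn
    exact h6.mono x r R hr hR h5

end H46SB
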