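import Mathlib

/-!
ROW Ha (MP_b319aa_NA, X9: one dimensional Hardy inequality with the logarithmic weight).
PROOF. `F x = 1 / (1 + log (b / x))` on `(0, b]`: `0 < F ≤ 1`, `F' = 1 / (x (1 + log (b/x))^2)`, `F^2 / F' = x`. `q` is absolutely continuous on `[a, c]`
(`LipschitzOnWith.absolutelyContinuousOnInterval`), integration by parts (`AbsolutelyContinuousOnInterval.integral_mul_deriv_eq_deriv_mul` with `q^2` and `F`, or
`AbsolutelyContinuousOnInterval.integral_deriv_eq_sub` for `F q^2`): `A = ∫ F' q^2 = F(c) q(c)^2 - F(a) q(a)^2 - ∫ 2 F q q' ≤ q(c)^2 + ∫ 2 F |q q'|`, and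
`2 F |q q'| ≤ (1/2) F' q^2 + 2 (F^2/F') q'^2 = (1/2) F' q^2 + 2 x q'^2`. So `A ≤ 2 q(c)^2 + 4 ∫ x q'^2`. (`deriv q` is bounded by `K` a.e. on `(a,b)`, measurable: integrable.)
`hardy_log_avg`: with `b = 2 r`, for `c ∈ [r, 2r]` the left side is monotone in the upper limit: `A_r ≤ A_c ≤ 2 q(c)^2 + 4 B`, `B = ∫_a^{2r} x q'^2`; multiply by `c`, integrate over
`c ∈ [r, 2r]` (`∫ c dc = 3 r^2 / 2`): `A_r ≤ (4 / (3 r^2)) ∫_r^{2r} c q(c)^2 + 4 B`.
-/

set_option autoImplicit false

namespace H46SB

open MeasureTheory Set Filter Topology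
open scoped NNReal

private theorem one_add_log_pos {b x : ℝ} (hx : 0 < x) (hxb : x ≤ b) : 1 ≤ 1 + Real.log (b / x) := by
  have : 1 ≤ b / x := by rw [le_div_iff₀ hx]; linarith
  have := Real.log_nonneg this
  linarith

private theorem hasDerivAt_F {b x : ℝ} (hx : 0 < x) (hxb : x ≤ b) :
    HasDerivAt (fun y => (1 + Real.log (b / y))⁻¹) (1 / (x * (1 + Real.log (b / x)) ^ 2)) x := by
  have hb : 0 < b := lt_of_lt_of_le hx hxb
  have h1 : HasDerivAt (fun y => b / y) (-b / x ^ 2) x := by
    have := (hasDerivAt_inv hx.ne').const_mul b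
    refine this.congr_deriv ?_ |>.congr_of_eventuallyEq ?_
    · field_simp
    · exact Filter.Eventually.of_forall fun y => by simp [div_eq_mul_inv]
  have h2 := h1.log (by positivity : b / x ≠ 0)
  have h3 := (h2.const_add 1).inv (by have := one_add_log_pos hx hxb; positivity)
  refine h3.congr_deriv ?_
  have := one_add_log_pos hx hxb
  have h4 : (1 + Real.log (b / x)) ≠ 0 := by positivity
  field_simp

private theorem contOn_w {b a c : ℝ} (ha : 0 < a) (hac : a ≤ c) (hcb : c ≤ b) :
    ContinuousOn (fun x => 1 / (x * (1 + Real.log (b / x)) ^ 2)) (Icc a c) := by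
  have hb : 0 < b := lt_of_lt_of_le (lt_of_lt_of_le ha hac) hcb
  have h0 : ∀ x ∈ Icc a c, x ≠ 0 := fun x hx => (lt_of_lt_of_le ha hx.1).ne'
  have h1 : ContinuousOn (fun x => b / x) (Icc a c) := continuousOn_const.div continuousOn_id h0
  have h2 : ContinuousOn (fun x => Real.log (b / x)) (Icc a c) :=
    h1.log fun x hx => (div_pos hb (lt_of_lt_of_le ha hx.1)).ne'
  refine continuousOn_const.div (continuousOn_id.mul ((continuousOn_const.add h2).pow 2)) ?_
  intro x hx
  have := one_add_log_pos (b := b) (lt_of_lt_of_le ha hx.1) (hx.2.trans hcb)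
  have h3 := lt_of_lt_of_le ha hx.1
  have h4 : 0 < 1 + Real.log (b / x) := by linarith
  positivity

private theorem int_deriv_sq {q : ℝ → ℝ} {a c b : ℝ} (ha : 0 < a) (hac : a ≤ c) (hcb : c ≤ b)
    {K : ℝ≥0} (hq : LipschitzOnWith K q (Icc a b)) :
    IntervalIntegrable (fun x => x * deriv q x ^ 2) volume a c := by
  rw [intervalIntegrable_iff_integrableOn_Ioo_of_le hac]
  refine Measure.integrableOn_of_bounded (M := b * (K : ℝ) ^ 2) (by simp) ?_ ?_
  · exact (measurable_id.mul ((measurable_deriv q).pow_const 2)).aestronglyMeasurable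
  · refine (ae_restrict_iff' measurableSet_Ioo).2 (Filter.Eventually.of_forall fun x hx => ?_)
    have h1 : ‖deriv q x‖ ≤ K := by
      refine norm_deriv_le_of_lipschitzOn ?_ hq
      exact Icc_mem_nhds hx.1 (lt_of_lt_of_le hx.2 hcb)
    have hx0 : 0 < x := lt_trans ha hx.1
    rw [norm_mul, norm_pow, Real.norm_eq_abs x, abs_of_pos hx0]
    have hxb : x ≤ b := hx.2.le.trans hcb
    have : ‖deriv q x‖ ^ 2 ≤ (K : ℝ) ^ 2 := by gcongr
    have hb : 0 ≤ b := hx0.le.trans hxb
    gcongr

theorem hardy_log {q : ℝ → ℝ} {a c b : ℝ} (ha : 0 < a) (hac : a ≤ c) (hcb : c ≤ b) {K : ℝ≥0}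
    (hq : LipschitzOnWith K q (Icc a b)) :
    ∫ x in a..c, q x ^ 2 / (x * (1 + Real.log (b / x)) ^ 2) ≤
      2 * q c ^ 2 + 4 * ∫ x in a..c, x * deriv q x ^ 2 := by
  set w : ℝ → ℝ := fun x => 1 / (x * (1 + Real.log (b / x)) ^ 2) with hw
  set F : ℝ → ℝ := fun y => (1 + Real.log (b / y))⁻¹ with hF
  have hqc : LipschitzOnWith K q (Icc a c) := hq.mono (Icc_subset_Icc_right hcb)
  have hqAC : AbsolutelyContinuousOnInterval q a c := by
    refine LipschitzOnWith.absolutelyContinuousOnInterval (K := K) ?_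
    rwa [uIcc_of_le hac]
  have hwc := contOn_w ha hac hcb
  -- F is Lipschitz on [a, c]
  obtain ⟨C, hC⟩ := (isCompact_Icc (a := a) (b := c)).exists_bound_of_continuousOn hwc
  have hFL : LipschitzOnWith (Real.toNNReal C) F (Icc a c) := by
    refine Convex.lipschitzOnWith_of_nnnorm_hasDerivWithin_le (f' := w) (convex_Icc a c)
      (fun x hx => (hasDerivAt_F (lt_of_lt_of_le ha hx.1) (hx.2.trans hcb)).hasDerivWithinAt) ?_
    intro x hx
    rw [← NNReal.coe_le_coe, coe_nnnorm]
    exact (hC x hx).trans (Real.le_coe_toNNReal C)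
  have hFAC : AbsolutelyContinuousOnInterval F a c := by
    refine LipschitzOnWith.absolutelyContinuousOnInterval (K := Real.toNNReal C) ?_
    rwa [uIcc_of_le hac]
  have hHAC : AbsolutelyContinuousOnInterval (F * (q * q)) a c := hFAC.mul (hqAC.mul hqAC)
  have hint := hHAC.integral_deriv_eq_sub
  have hdi := hHAC.intervalIntegrable_deriv
  have hwi : IntervalIntegrable (fun x => (1 / 2) * (w x * q x ^ 2)) volume a c := by
    refine ContinuousOn.intervalIntegrable ?_
    rw [uIcc_of_le hac]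
    exact continuousOn_const.mul (hwc.mul (hqc.continuousOn.pow 2))
  have hqi := int_deriv_sq ha hac hcb hq
  have hmono : ∫ x in a..c, (1 / 2) * (w x * q x ^ 2) ≤
      ∫ x in a..c, (deriv (F * (q * q)) x + 2 * (x * deriv q x ^ 2)) := by
    refine intervalIntegral.integral_mono_ae_restrict hac hwi (hdi.add (hqi.const_mul 2)) ?_
    refine (ae_restrict_iff' measurableSet_Icc).2 ?_
    filter_upwards [hqAC.ae_differentiableAt] with x hx hxm
    have hxm' : x ∈ uIcc a c := by rwa [uIcc_of_le hac]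
    have hx0 : 0 < x := lt_of_lt_of_le ha hxm.1
    have hxb : x ≤ b := hxm.2.trans hcb
    have hd := (hx hxm').hasDerivAt
    have hFd : HasDerivAt F (w x) x := hasDerivAt_F hx0 hxb
    have hH : deriv (F * (q * q)) x = w x * (q x * q x) + F x * (deriv q x * q x + q x * deriv q x) :=
      (hFd.mul (hd.mul hd)).deriv
    rw [hH]
    have hFx : 1 ≤ 1 + Real.log (b / x) := one_add_log_pos hx0 hxb
    have hne : (1 + Real.log (b / x)) ≠ 0 := by positivity
    have hwx : w x * x = F x ^ 2 := by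
      simp only [hw, hF]
      field_simp
    have hw0 : 0 ≤ w x := by
      simp only [hw]
      positivity
    -- (1/2) w q^2 + 2 F q q' + 2 x q'^2 >= 0
    have key : 0 ≤ x * (w x * q x ^ 2 + 4 * F x * q x * deriv q x + 4 * x * deriv q x ^ 2) := by
      have : x * (w x * q x ^ 2 + 4 * F x * q x * deriv q x + 4 * x * deriv q x ^ 2) =
          (F x * q x + 2 * x * deriv q x) ^ 2 := by
        linear_combination (q x ^ 2) * hwx
      rw [this]
      positivity
    have key2 : 0 ≤ w x * q x ^ 2 + 4 * F x * q x * deriv q x + 4 * x * deriv q x ^ 2 :=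
      nonneg_of_mul_nonneg_right key hx0
    nlinarith [key2]
  rw [intervalIntegral.integral_const_mul, intervalIntegral.integral_add hdi (hqi.const_mul 2),
    intervalIntegral.integral_const_mul, hint] at hmono
  have hca : 0 < c := lt_of_lt_of_le ha hac
  have hFc : F c ≤ 1 := by
    have := one_add_log_pos hca hcb
    simp only [hF]
    exact inv_le_one_of_one_le₀ this
  have hFa : 0 ≤ F a := by
    have := one_add_log_pos ha (hac.trans hcb)
    simp only [hF]
    positivity
  have hcongr : ∫ x in a..c, q x ^ 2 / (x * (1 + Real.log (b / x)) ^ 2) =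
      ∫ x in a..c, w x * q x ^ 2 := by
    refine intervalIntegral.integral_congr fun x _ => ?_
    simp only [hw]
    ring
  rw [hcongr]
  have h1 : (F * (q * q)) c ≤ q c ^ 2 := by
    simp only [Pi.mul_apply]
    nlinarith [sq_nonneg (q c)]
  have h2 : 0 ≤ (F * (q * q)) a := by
    simp only [Pi.mul_apply]
    have := mul_self_nonneg (q a)
    positivity
  linarith

theorem hardy_log_avg {q : ℝ → ℝ} {a r : ℝ} (ha : 0 < a) (har : a ≤ r) {K : ℝ≥0}
    (hq : LipschitzOnWith K q (Icc a (2 * r))) :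
    ∫ x in a..r, q x ^ 2 / (x * (1 + Real.log (2 * r / x)) ^ 2) ≤
      2 / r ^ 2 * (∫ x in r..(2 * r), x * q x ^ 2) + 4 * ∫ x in a..(2 * r), x * deriv q x ^ 2 := by
  have hr : 0 < r := lt_of_lt_of_le ha har
  have hr2 : r ≤ 2 * r := by linarith
  have ha2 : a ≤ 2 * r := har.trans hr2
  set g : ℝ → ℝ := fun x => q x ^ 2 / (x * (1 + Real.log (2 * r / x)) ^ 2) with hg
  set A : ℝ := ∫ x in a..r, g x with hA
  set B : ℝ := ∫ x in a..(2 * r), x * deriv q x ^ 2 with hB
  have hgc : ContinuousOn g (Icc a (2 * r)) := by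
    have h1 := contOn_w (b := 2 * r) ha ha2 le_rfl
    refine (h1.mul (hq.continuousOn.pow 2)).congr fun x _ => ?_
    simp only [hg, Pi.mul_apply, Pi.pow_apply]
    ring
  have hg0 : ∀ x ∈ Icc a (2 * r), 0 ≤ g x := by
    intro x hx
    have hx0 := lt_of_lt_of_le ha hx.1
    simp only [hg]
    positivity
  have hgi : ∀ u v, u ∈ Icc a (2 * r) → v ∈ Icc a (2 * r) → IntervalIntegrable g volume u v := by
    intro u v hu hv
    refine (hgc.mono ?_).intervalIntegrable
    intro x hx
    rw [mem_uIcc] at hx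
    rcases hx with hx | hx
    · exact ⟨hu.1.trans hx.1, hx.2.trans hv.2⟩
    · exact ⟨hv.1.trans hx.1, hx.2.trans hu.2⟩
  have hall := int_deriv_sq ha ha2 le_rfl hq
  have main : ∀ c ∈ Icc r (2 * r), A ≤ 2 * q c ^ 2 + 4 * B := by
    intro c hc
    have hac : a ≤ c := har.trans hc.1
    have h1 := hardy_log ha hac hc.2 hq
    have h2 : A ≤ ∫ x in a..c, g x := by
      have h3 := intervalIntegral.integral_add_adjacent_intervals
        (hgi a r ⟨le_rfl, ha2⟩ ⟨har, hr2⟩) (hgi r c ⟨har, hr2⟩ ⟨hac, hc.2⟩)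
      have h4 : 0 ≤ ∫ x in r..c, g x :=
        intervalIntegral.integral_nonneg hc.1 fun x hx => hg0 x ⟨har.trans hx.1, hx.2.trans hc.2⟩
      linarith
    have h5 : ∫ x in a..c, x * deriv q x ^ 2 ≤ B := by
      have hi1 := int_deriv_sq ha hac hc.2 hq
      have hi2 : IntervalIntegrable (fun x => x * deriv q x ^ 2) volume c (2 * r) :=
        hall.mono_set (by
          rw [uIcc_of_le hc.2, uIcc_of_le ha2]
          exact Icc_subset_Icc_left hac)
      have h3 := intervalIntegral.integral_add_adjacent_intervals hi1 hi2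
      have h4 : 0 ≤ ∫ x in c..(2 * r), x * deriv q x ^ 2 := by
        refine intervalIntegral.integral_nonneg hc.2 fun x hx => ?_
        have : 0 ≤ x := (hr.le.trans hc.1).trans hx.1
        positivity
      linarith
    linarith
  -- integrate against c over [r, 2r]
  have hqc : ContinuousOn q (Icc r (2 * r)) := hq.continuousOn.mono (Icc_subset_Icc_left har)
  have hi1 : IntervalIntegrable (fun c : ℝ => c * A) volume r (2 * r) :=
    (continuous_id.mul continuous_const).intervalIntegrable _ _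
  have hi2 : IntervalIntegrable (fun c : ℝ => c * q c ^ 2) volume r (2 * r) := by
    refine ContinuousOn.intervalIntegrable ?_
    rw [uIcc_of_le hr2]
    exact continuousOn_id.mul (hqc.pow 2)
  have hi3 : IntervalIntegrable (fun c : ℝ => c * (4 * B)) volume r (2 * r) :=
    (continuous_id.mul continuous_const).intervalIntegrable _ _
  have hmono : ∫ c in r..(2 * r), c * A ≤
      ∫ c in r..(2 * r), (2 * (c * q c ^ 2) + c * (4 * B)) := by
    refine intervalIntegral.integral_mono_on hr2 hi1 ((hi2.const_mul 2).add hi3) ?_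
    intro c hc
    have h1 := main c hc
    have h0 : 0 ≤ c := hr.le.trans hc.1
    nlinarith [mul_le_mul_of_nonneg_left h1 h0]
  rw [intervalIntegral.integral_add (hi2.const_mul 2) hi3, intervalIntegral.integral_const_mul,
    intervalIntegral.integral_mul_const, intervalIntegral.integral_mul_const, integral_id] at hmono
  set J : ℝ := ∫ x in r..(2 * r), x * q x ^ 2 with hJ
  have hJ0 : 0 ≤ J := by
    refine intervalIntegral.integral_nonneg hr2 fun x hx => ?_
    have : 0 ≤ x := hr.le.trans hx.1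
    positivity
  have h6 : ((2 * r) ^ 2 - r ^ 2) / 2 = 3 / 2 * r ^ 2 := by ring
  rw [h6] at hmono
  have hrr : 0 < r ^ 2 := by positivity
  have h7 : r ^ 2 * A ≤ r ^ 2 * (2 / r ^ 2 * J + 4 * B) := by
    have : r ^ 2 * (2 / r ^ 2 * J + 4 * B) = 2 * J + 4 * B * r ^ 2 := by
      field_simp
    rw [this]
    nlinarith
  exact le_of_mul_le_mul_left h7 hrr

end H46SB
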