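import Mathlib

/-!
ROW Hb (MP_b319aa_NA, X9: one dimensional Hardy inequality with zero boundary value).
PROOF. `q` is absolutely continuous on `[r, b]` (`LipschitzOnWith.absolutelyContinuousOnInterval`). For `0 < e ≤ a`: integrate the derivative of `- q^2 / (x - r)` over `[r + e, b]`
(`AbsolutelyContinuousOnInterval.integral_deriv_eq_sub` or integration by parts with `1/(x - r)`, which is smooth there):
`A_e = ∫_{r+e}^b q^2/(x-r)^2 = q(r+e)^2/e - q(b)^2/(b-r) + ∫ 2 q q'/(x-r) ≤ q(r+e)^2/e + (1/2) A_e + 2 ∫ q'^2`. As `q r = 0`, `q(r+e)^2 ≤ K^2 e^2`; so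
`A_a ≤ A_e ≤ 2 K^2 e + 4 ∫_r^b q'^2` for all `0 < e ≤ a`; let `e → 0`.
-/

set_option autoImplicit false

namespace H46SB

open MeasureTheory Set Filter Topology
open scoped NNReal

theorem Hb_bound {q : ℝ → ℝ} {r b : ℝ} {K : ℝ≥0} (hq : LipschitzOnWith K q (Icc r b)) :
    ∀ x ∈ Ioo r b, |deriv q x| ≤ K := by
  intro x hx
  have h := norm_deriv_le_of_lipschitzOn (Icc_mem_nhds hx.1 hx.2) hq
  rwa [Real.norm_eq_abs] at h

theorem Hb_int {q : ℝ → ℝ} {r b c d : ℝ} {K : ℝ≥0} (hq : LipschitzOnWith K q (Icc r b)) (hc : r ≤ c) (hcd : c ≤ d)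
    (hd : d ≤ b) : IntervalIntegrable (fun x => deriv q x ^ 2) volume c d := by
  rw [intervalIntegrable_iff_integrableOn_Ioo_of_le hcd]
  refine Measure.integrableOn_of_bounded (M := (K : ℝ) ^ 2) (measure_Ioo_lt_top.ne)
    ((measurable_deriv q).pow_const 2).aestronglyMeasurable ?_
  rw [ae_restrict_iff' measurableSet_Ioo]
  refine Eventually.of_forall fun x hx => ?_
  rw [Real.norm_eq_abs, abs_pow]
  exact pow_le_pow_left₀ (abs_nonneg _) (Hb_bound hq x ⟨lt_of_le_of_lt hc hx.1, lt_of_lt_of_le hx.2 hd⟩) 2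

theorem Hb_e {q : ℝ → ℝ} {r e b : ℝ} (he : 0 < e) (heb : r + e ≤ b) {K : ℝ≥0}
    (hq : LipschitzOnWith K q (Icc r b)) (h0 : q r = 0) :
    ∫ x in (r + e)..b, q x ^ 2 / (x - r) ^ 2 ≤ 4 * (∫ x in (r + e)..b, deriv q x ^ 2) + 2 * (K : ℝ) ^ 2 * e := by
  have hsub : uIcc (r + e) b ⊆ Icc r b := by
    rw [uIcc_of_le heb]
    exact Icc_subset_Icc_left (by linarith)
  have hpos : ∀ x ∈ uIcc (r + e) b, 0 < x - r := by
    intro x hx
    rw [uIcc_of_le heb] at hx
    linarith [hx.1]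
  have hqa : AbsolutelyContinuousOnInterval q (r + e) b := (hq.mono hsub).absolutelyContinuousOnInterval
  have hfa : AbsolutelyContinuousOnInterval (fun x => q x * q x) (r + e) b := hqa.fun_mul hqa
  have hcg : ContDiffOn ℝ 1 (fun x : ℝ => (x - r)⁻¹) (uIcc (r + e) b) := by
    refine ContDiffOn.inv (contDiffOn_id.sub contDiffOn_const) fun x hx => (hpos x hx).ne'
  have hga : AbsolutelyContinuousOnInterval (fun x : ℝ => (x - r)⁻¹) (r + e) b := hcg.absolutelyContinuousOnInterval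
  have hg' : ∀ x ∈ uIcc (r + e) b, deriv (fun x : ℝ => (x - r)⁻¹) x = -((x - r) ^ 2)⁻¹ := by
    intro x hx
    have h1 : HasDerivAt (fun x : ℝ => x - r) 1 x := (hasDerivAt_id x).sub_const r
    have h2 := (h1.inv (hpos x hx).ne').deriv
    have h3 : (fun x : ℝ => (x - r)⁻¹) = (fun x : ℝ => x - r)⁻¹ := rfl
    rw [h3, h2]
    rw [neg_div, one_div]
  have hqc : ContinuousOn q (uIcc (r + e) b) := hqa.continuousOn
  have hdc : ContinuousOn (fun x : ℝ => (x - r) ^ 2) (uIcc (r + e) b) := by fun_prop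
  have hA : IntervalIntegrable (fun x => q x ^ 2 / (x - r) ^ 2) volume (r + e) b := by
    apply ContinuousOn.intervalIntegrable
    exact (hqc.pow 2).div hdc fun x hx => pow_ne_zero 2 (hpos x hx).ne'
  have hB : IntervalIntegrable (fun x => deriv q x ^ 2) volume (r + e) b := Hb_int hq (by linarith) heb le_rfl
  have hC : IntervalIntegrable (fun x => deriv (fun x => q x * q x) x * (x - r)⁻¹) volume (r + e) b :=
    hfa.intervalIntegrable_deriv.mul_continuousOn hga.continuousOn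
  have hparts := AbsolutelyContinuousOnInterval.integral_mul_deriv_eq_deriv_mul hfa hga
  have h1 : ∫ x in (r + e)..b, q x * q x * deriv (fun x : ℝ => (x - r)⁻¹) x =
      - ∫ x in (r + e)..b, q x ^ 2 / (x - r) ^ 2 := by
    rw [← intervalIntegral.integral_neg]
    apply intervalIntegral.integral_congr
    intro x hx
    change q x * q x * deriv (fun x : ℝ => (x - r)⁻¹) x = -(q x ^ 2 / (x - r) ^ 2)
    rw [hg' x hx, div_eq_mul_inv]
    ring
  have h2 : ∫ x in (r + e)..b, deriv (fun x => q x * q x) x * (x - r)⁻¹ ≤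
      ∫ x in (r + e)..b, (1 / 2 * (q x ^ 2 / (x - r) ^ 2) + 2 * deriv q x ^ 2) := by
    apply intervalIntegral.integral_mono_ae_restrict heb hC ((hA.const_mul _).add (hB.const_mul _))
    have h3 := hqa.ae_differentiableAt
    rw [EventuallyLE, ae_restrict_iff' measurableSet_Icc]
    filter_upwards [h3] with x hx hxm
    rw [← uIcc_of_le heb] at hxm
    have hd := (hx hxm).hasDerivAt
    have h4 : deriv (fun x => q x * q x) x = deriv q x * q x + q x * deriv q x := (hd.mul hd).deriv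
    have h5 := hpos x hxm
    have h6 : q x ^ 2 / (x - r) ^ 2 = (q x * (x - r)⁻¹) ^ 2 := by
      rw [mul_pow, inv_pow, div_eq_mul_inv]
    change deriv (fun x => q x * q x) x * (x - r)⁻¹ ≤ 1 / 2 * (q x ^ 2 / (x - r) ^ 2) + 2 * deriv q x ^ 2
    rw [h4, h6]
    nlinarith [sq_nonneg (q x * (x - r)⁻¹ - 2 * deriv q x)]
  have h3 : ∫ x in (r + e)..b, (1 / 2 * (q x ^ 2 / (x - r) ^ 2) + 2 * deriv q x ^ 2) =
      1 / 2 * (∫ x in (r + e)..b, q x ^ 2 / (x - r) ^ 2) + 2 * ∫ x in (r + e)..b, deriv q x ^ 2 := by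
    rw [intervalIntegral.integral_add (hA.const_mul _) (hB.const_mul _), intervalIntegral.integral_const_mul,
      intervalIntegral.integral_const_mul]
  have h4 : q (r + e) * q (r + e) * (r + e - r)⁻¹ ≤ (K : ℝ) ^ 2 * e := by
    have h5 := hq.dist_le_mul (r + e) ⟨by linarith, heb⟩ r ⟨le_rfl, by linarith⟩
    rw [h0, Real.dist_eq, Real.dist_eq, sub_zero, add_sub_cancel_left, abs_of_pos he] at h5
    have h6 : q (r + e) * q (r + e) ≤ ((K : ℝ) * e) ^ 2 := by
      rw [← abs_mul_abs_self, ← sq]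
      exact pow_le_pow_left₀ (abs_nonneg _) h5 2
    rw [add_sub_cancel_left, ← div_eq_mul_inv, div_le_iff₀ he]
    calc q (r + e) * q (r + e) ≤ ((K : ℝ) * e) ^ 2 := h6
      _ = (K : ℝ) ^ 2 * e * e := by ring
  have h5 : 0 ≤ q b * q b * (b - r)⁻¹ :=
    mul_nonneg (mul_self_nonneg _) (inv_nonneg.2 (by linarith))
  rw [h1] at hparts
  rw [h3] at h2
  linarith

theorem hardy_zero {q : ℝ → ℝ} {r a b : ℝ} (ha : 0 < a) (hab : r + a ≤ b) {K : ℝ≥0}
    (hq : LipschitzOnWith K q (Icc r b)) (h0 : q r = 0) :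
    ∫ x in (r + a)..b, q x ^ 2 / (x - r) ^ 2 ≤ 4 * ∫ x in r..b, deriv q x ^ 2 := by
  refine le_of_forall_pos_le_add fun ε hε => ?_
  set e := min a (ε / (2 * (K : ℝ) ^ 2 + 1)) with he
  have hK : 0 < 2 * (K : ℝ) ^ 2 + 1 := by positivity
  have he0 : 0 < e := lt_min ha (div_pos hε hK)
  have hea : e ≤ a := min_le_left _ _
  have he1 : 2 * (K : ℝ) ^ 2 * e ≤ ε := by
    have h1 : e * (2 * (K : ℝ) ^ 2 + 1) ≤ ε := (le_div_iff₀ hK).1 (min_le_right _ _)
    nlinarith
  have heb : r + e ≤ b := by linarith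
  have h1 := Hb_e he0 heb hq h0
  have hqc : ContinuousOn q (Icc r b) := hq.continuousOn
  have h2 : ∫ x in (r + a)..b, q x ^ 2 / (x - r) ^ 2 ≤ ∫ x in (r + e)..b, q x ^ 2 / (x - r) ^ 2 := by
    refine intervalIntegral.integral_mono_interval (by linarith) hab le_rfl
      (Eventually.of_forall fun x => by positivity) ?_
    apply ContinuousOn.intervalIntegrable
    rw [uIcc_of_le heb]
    refine ((hqc.mono (Icc_subset_Icc_left (by linarith))).pow 2).div (by fun_prop) fun x hx => ?_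
    exact pow_ne_zero 2 (by linarith [hx.1])
  have h3 : ∫ x in (r + e)..b, deriv q x ^ 2 ≤ ∫ x in r..b, deriv q x ^ 2 :=
    intervalIntegral.integral_mono_interval (by linarith) heb le_rfl
      (Eventually.of_forall fun x => by positivity) (Hb_int hq le_rfl (by linarith) le_rfl)
  linarith

end H46SB
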