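import Mathlib

/-!
ROW Hc (MP_b319aa_NA, X9: integration over the octant `{0 < y < x}`).
PROOF. `Oct a b` is open, hence measurable. Fubini (`MeasureTheory.lintegral_prod`, `Measure.volume_eq_prod`): `∫⁻_{Oct a b} G = ∫⁻_{x ∈ (a,b)} ∫⁻_{y ∈ (0,x)} G(x,y)`; for fixed `x > 0` substitute
`y = x w`: `∫⁻_{y ∈ (0,x)} G(x,y) dy = ∫⁻_{w ∈ (0,1)} G(x, x w) x dw` (`MeasureTheory.lintegral_image_eq_lintegral_abs_deriv_mul` or `Real.map_volume_mul_left`); exchange again.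
`oct_int`: for `g` integrable on `Oct a b`: the same with Bochner integrals (`integral_prod`, `integral_prod_symm`; `intervalIntegral`/`integral_comp_mul_left`-type substitution), or
from the positive and negative parts. `oct_int_on` is the integrability of the transported function: its `lintegral` of the norm is that of `g` by `oct_lint`.
(For `AEStronglyMeasurable` of the transported function: the map `(w, s) ↦ (s, s w)` is quasi measure preserving from `(0,1) × (a,b)`: null sets by `oct_lint` applied to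
indicators of measurable null sets.)
-/

set_option autoImplicit false

namespace H46SB

open MeasureTheory Set Filter Topology
open scoped NNReal ENNReal

/-- the octant -/
def Oct (a b : ℝ) : Set (ℝ × ℝ) := {x | a < x.1 ∧ x.1 < b ∧ 0 < x.2 ∧ x.2 < x.1}

/-- the transport map -/
private def Hc_f (p : ℝ × ℝ) : ℝ × ℝ := (p.2, p.2 * p.1)

private noncomputable def Hc_f' (p : ℝ × ℝ) : ℝ × ℝ →L[ℝ] ℝ × ℝ :=
  LinearMap.toContinuousLinearMap (Matrix.toLin (Module.Basis.finTwoProd ℝ)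
    (Module.Basis.finTwoProd ℝ) !![0, 1; p.2, p.1])

private theorem Hc_det (p : ℝ × ℝ) : (Hc_f' p).det = -p.2 := by
  unfold Hc_f'
  rw [ContinuousLinearMap.det, LinearMap.coe_toContinuousLinearMap, LinearMap.det_toLin,
    Matrix.det_fin_two_of]
  ring

private theorem Hc_deriv (p : ℝ × ℝ) : HasFDerivAt Hc_f (Hc_f' p) p := by
  unfold Hc_f'
  rw [Matrix.toLin_finTwoProd_toContinuousLinearMap]
  have h := HasFDerivAt.prodMk (𝕜 := ℝ) (hasFDerivAt_snd (𝕜 := ℝ) (p := p))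
    ((hasFDerivAt_snd (𝕜 := ℝ) (p := p)).mul (hasFDerivAt_fst (𝕜 := ℝ) (p := p)))
  have e : ((0 : ℝ) • ContinuousLinearMap.fst ℝ ℝ ℝ + (1 : ℝ) • ContinuousLinearMap.snd ℝ ℝ ℝ) =
      ContinuousLinearMap.snd ℝ ℝ ℝ := by
    rw [zero_smul, one_smul, zero_add]
  rw [e]
  exact h

private theorem Hc_inj {a b : ℝ} (ha : 0 ≤ a) :
    InjOn Hc_f (Ioo (0 : ℝ) 1 ×ˢ Ioo a b) := by
  rintro ⟨w, s⟩ ⟨-, ⟨hs, -⟩⟩ ⟨w', s'⟩ - h
  have h1 : s = s' := congrArg Prod.fst h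
  have h2 : s * w = s' * w' := congrArg Prod.snd h
  subst h1
  have h3 : s ≠ 0 := (lt_of_le_of_lt ha hs).ne'
  rw [mul_left_cancel₀ h3 h2]

private theorem Hc_image {a b : ℝ} (ha : 0 ≤ a) :
    Hc_f '' (Ioo (0 : ℝ) 1 ×ˢ Ioo a b) = Oct a b := by
  ext ⟨x, y⟩
  constructor
  · rintro ⟨⟨w, s⟩, ⟨⟨hw0, hw1⟩, ⟨hs0, hs1⟩⟩, h⟩
    have h1 : s = x := congrArg Prod.fst h
    have h2 : s * w = y := congrArg Prod.snd h
    change 0 < w at hw0
    change w < 1 at hw1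
    change a < s at hs0
    change s < b at hs1
    have hs : 0 < s := lt_of_le_of_lt ha hs0
    subst h1
    subst h2
    refine ⟨hs0, hs1, mul_pos hs hw0, ?_⟩
    change s * w < s
    nlinarith
  · rintro ⟨h1, h2, h3, h4⟩
    change a < x at h1
    change x < b at h2
    change 0 < y at h3
    change y < x at h4
    have hx : 0 < x := lt_of_le_of_lt ha h1
    refine ⟨(y / x, x), ⟨⟨div_pos h3 hx, (div_lt_one hx).2 h4⟩, ⟨h1, h2⟩⟩, ?_⟩
    unfold Hc_f
    change (x, x * (y / x)) = (x, y)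
    rw [mul_div_cancel₀ _ hx.ne']

private theorem Hc_ms (a b : ℝ) : MeasurableSet (Ioo (0 : ℝ) 1 ×ˢ Ioo a b) :=
  measurableSet_Ioo.prod measurableSet_Ioo

private theorem Hc_abs {a b : ℝ} (ha : 0 ≤ a) {p : ℝ × ℝ} (hp : p ∈ Ioo (0 : ℝ) 1 ×ˢ Ioo a b) :
    |(Hc_f' p).det| = p.2 := by
  rw [Hc_det, abs_neg, abs_of_pos (lt_of_le_of_lt ha hp.2.1)]

theorem oct_lint {a b : ℝ} (ha : 0 ≤ a) {G : ℝ × ℝ → ℝ≥0∞} (hG : Measurable G) :
    ∫⁻ x in Oct a b, G x = ∫⁻ w in Ioo (0 : ℝ) 1, ∫⁻ s in Ioo a b, G (s, s * w) * ENNReal.ofReal s := by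
  rw [← Hc_image ha, lintegral_image_eq_lintegral_abs_det_fderiv_mul volume (Hc_ms a b)
    (fun p _ => (Hc_deriv p).hasFDerivWithinAt) (Hc_inj ha) G]
  have h1 : ∫⁻ p in Ioo (0 : ℝ) 1 ×ˢ Ioo a b, ENNReal.ofReal |(Hc_f' p).det| * G (Hc_f p) =
      ∫⁻ p in Ioo (0 : ℝ) 1 ×ˢ Ioo a b, G (p.2, p.2 * p.1) * ENNReal.ofReal p.2 := by
    refine setLIntegral_congr_fun (Hc_ms a b) fun p hp => ?_
    rw [Hc_abs ha hp, mul_comm]
    rfl
  rw [h1, Measure.volume_eq_prod, ← Measure.prod_restrict, lintegral_prod]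
  refine Measurable.aemeasurable ?_
  fun_prop

theorem oct_int_on {a b : ℝ} (ha : 0 ≤ a) {g : ℝ × ℝ → ℝ} (hg : IntegrableOn g (Oct a b)) :
    Integrable (fun p : ℝ × ℝ => g (p.2, p.2 * p.1) * p.2)
      ((volume.restrict (Ioo (0 : ℝ) 1)).prod (volume.restrict (Ioo a b))) := by
  rw [← Hc_image ha, integrableOn_image_iff_integrableOn_abs_det_fderiv_smul volume (Hc_ms a b)
    (fun p _ => (Hc_deriv p).hasFDerivWithinAt) (Hc_inj ha) g] at hg
  rw [Measure.prod_restrict, ← Measure.volume_eq_prod]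
  refine IntegrableOn.congr_fun hg (fun p hp => ?_) (Hc_ms a b)
  change |(Hc_f' p).det| • g (Hc_f p) = g (p.2, p.2 * p.1) * p.2
  rw [Hc_abs ha hp, smul_eq_mul, mul_comm]
  rfl

theorem oct_int {a b : ℝ} (ha : 0 ≤ a) {g : ℝ × ℝ → ℝ} (hg : IntegrableOn g (Oct a b)) :
    ∫ x in Oct a b, g x = ∫ w in Ioo (0 : ℝ) 1, ∫ s in Ioo a b, g (s, s * w) * s := by
  have h0 := oct_int_on ha hg
  rw [← Hc_image ha, integral_image_eq_integral_abs_det_fderiv_smul volume (Hc_ms a b)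
    (fun p _ => (Hc_deriv p).hasFDerivWithinAt) (Hc_inj ha) g]
  have h1 : ∫ p in Ioo (0 : ℝ) 1 ×ˢ Ioo a b, |(Hc_f' p).det| • g (Hc_f p) =
      ∫ p in Ioo (0 : ℝ) 1 ×ˢ Ioo a b, g (p.2, p.2 * p.1) * p.2 := by
    refine setIntegral_congr_fun (Hc_ms a b) fun p hp => ?_
    rw [Hc_abs ha hp, smul_eq_mul, mul_comm]
    rfl
  rw [h1, Measure.volume_eq_prod, ← Measure.prod_restrict, integral_prod _ h0]

end H46SB
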