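import Pool.Agent.H50.NA.Defs

/-!
ROW Hd (MP_b319aa_NA, X9: speeds of real functions).
PROOF. `sp_diff`: at a point of differentiability `(n + 1) * |q (x + t/(n+1)) - q x| → |fderiv ℝ q x t|` (directional derivative, `HasFDerivAt.lim`), and the limsup is the limit
(`Filter.Tendsto.limsup_eq`).
`diff_ae`: `O` open in `ℝ × ℝ` is a countable union of closed balls `⊆ O` (compact), on each of which `q` is Lipschitz: Rademacher
(`LipschitzOnWith.ae_differentiableWithinAt_of_mem`), differentiable within the closed ball at interior points = differentiable; use open balls covering (`TopologicalSpace.isOpen_iUnion_countable` /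
Lindelof / rational balls).
`sp_meas`: on `O`, `sp q t = |fderiv ℝ q · t|` a.e. and `fderiv` applied to `t` is measurable (`measurable_fderiv_apply_const`).
`sp_le`: if `dist (q y) (q x) ≤ L * dist y x` for `y` near `x` then `0 ≤ sp q t x ≤ L * ‖t‖`.
`int_sq`: on a bounded measurable set `S` whose closure is a compact subset of a set on which `q` is Lipschitz, contained in the open set `O`, `q^2` and `sp^2` are bounded by constants a.e. and measurable.
-/

set_option autoImplicit false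

namespace H46SB

open H50NA MeasureTheory Set Filter Topology
open scoped NNReal

theorem sp_diff {q : ℝ × ℝ → ℝ} {x : ℝ × ℝ} (hq : DifferentiableAt ℝ q x) (t : ℝ × ℝ) :
    sp q t x = |fderiv ℝ q x t| := by
  have hn : Tendsto (fun n : ℕ => (n : ℝ) + 1) atTop atTop :=
    tendsto_atTop_add_const_right _ _ tendsto_natCast_atTop_atTop
  have hn' : Tendsto (fun n : ℕ => ‖(n : ℝ) + 1‖) atTop atTop :=
    tendsto_norm_atTop_atTop.comp hn
  have h1 := (hq.hasFDerivAt.lim t hn').abs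
  unfold sp
  refine Tendsto.limsup_eq (h1.congr fun n => ?_)
  have hp : (0 : ℝ) < (n : ℝ) + 1 := by positivity
  rw [smul_eq_mul, abs_mul, abs_of_pos hp, Real.dist_eq, one_div]

theorem Hd_lip {q : ℝ × ℝ → ℝ} {s C : Set (ℝ × ℝ)} (hq : Lpo q s) (hC : C ⊆ s)
    (hc : IsCompact C) : ∃ K : ℝ≥0, LipschitzOnWith K q C := by
  obtain ⟨L, hL⟩ := hq C hC hc
  refine ⟨L.toNNReal, LipschitzOnWith.of_dist_le_mul fun x hx y hy => ?_⟩
  exact (hL x hx y hy).trans (mul_le_mul_of_nonneg_right (Real.le_coe_toNNReal L) dist_nonneg)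

theorem diff_ae {q : ℝ × ℝ → ℝ} {O : Set (ℝ × ℝ)} (hO : IsOpen O) (hq : Lpo q O) :
    ∀ᵐ x ∂(volume.restrict O), DifferentiableAt ℝ q x := by
  rw [ae_restrict_iff' hO.measurableSet, ae_iff]
  refine measure_null_of_locally_null _ fun x hx => ?_
  have hxO : x ∈ O := by
    by_contra h
    exact hx fun h' => absurd h' h
  obtain ⟨r, hr, hrO⟩ := Metric.nhds_basis_closedBall.mem_iff.1 (hO.mem_nhds hxO)
  obtain ⟨K, hK⟩ := Hd_lip hq hrO (isCompact_closedBall x r)
  have h1 := (hK.mono Metric.ball_subset_closedBall).ae_differentiableWithinAt_of_mem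
    (μ := (volume : Measure (ℝ × ℝ)))
  refine ⟨{y | ¬ (y ∈ O → DifferentiableAt ℝ q y)} ∩ Metric.ball x r,
    inter_mem self_mem_nhdsWithin (mem_nhdsWithin_of_mem_nhds (Metric.ball_mem_nhds x hr)), ?_⟩
  refine measure_mono_null ?_ (ae_iff.1 h1)
  rintro y ⟨hy1, hy2⟩ hy3
  exact hy1 fun _ => (hy3 hy2).differentiableAt (Metric.isOpen_ball.mem_nhds hy2)

theorem sp_meas {q : ℝ × ℝ → ℝ} {O : Set (ℝ × ℝ)} (hO : IsOpen O) (hq : Lpo q O) (t : ℝ × ℝ) :
    AEStronglyMeasurable (sp q t) (volume.restrict O) := by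
  refine ((measurable_fderiv_apply_const ℝ q t).abs.aestronglyMeasurable).congr ?_
  filter_upwards [diff_ae hO hq] with x hx
  exact (sp_diff hx t).symm

theorem sp_le {q : ℝ × ℝ → ℝ} {x : ℝ × ℝ} {L : ℝ} (hL : ∀ᶠ y in 𝓝 x, dist (q y) (q x) ≤ L * dist y x)
    (t : ℝ × ℝ) : 0 ≤ sp q t x ∧ sp q t x ≤ L * ‖t‖ := by
  have hlim : Tendsto (fun n : ℕ => x + (1 / ((n : ℝ) + 1)) • t) atTop (𝓝 x) := by
    have h1 : Tendsto (fun n : ℕ => (1 / ((n : ℝ) + 1)) • t) atTop (𝓝 ((0 : ℝ) • t)) :=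
      tendsto_one_div_add_atTop_nhds_zero_nat.smul_const t
    rw [zero_smul] at h1
    simpa using tendsto_const_nhds.add h1
  have hb : ∀ᶠ n : ℕ in atTop,
      ((n : ℝ) + 1) * dist (q (x + (1 / ((n : ℝ) + 1)) • t)) (q x) ≤ L * ‖t‖ := by
    filter_upwards [hlim.eventually hL] with n hn
    have hp : (0 : ℝ) < (n : ℝ) + 1 := by positivity
    have h2 : dist (x + (1 / ((n : ℝ) + 1)) • t) x = 1 / ((n : ℝ) + 1) * ‖t‖ := by
      rw [dist_eq_norm, add_sub_cancel_left, norm_smul, Real.norm_of_nonneg (by positivity)]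
    rw [h2] at hn
    calc ((n : ℝ) + 1) * dist (q (x + (1 / ((n : ℝ) + 1)) • t)) (q x)
        ≤ ((n : ℝ) + 1) * (L * (1 / ((n : ℝ) + 1) * ‖t‖)) := mul_le_mul_of_nonneg_left hn hp.le
      _ = L * ‖t‖ := by
          field_simp
  have h0 : ∀ n : ℕ, 0 ≤ ((n : ℝ) + 1) * dist (q (x + (1 / ((n : ℝ) + 1)) • t)) (q x) :=
    fun n => mul_nonneg (by positivity) dist_nonneg
  unfold sp
  constructor
  · exact le_limsup_of_frequently_le (Frequently.of_forall h0) ⟨L * ‖t‖, by
      simpa using hb⟩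
  · refine limsup_le_of_le ⟨0, fun a ha => ?_⟩ hb
    obtain ⟨n, hn⟩ := (eventually_map.1 ha).exists
    exact (h0 n).trans hn

theorem int_sq {q : ℝ × ℝ → ℝ} {S C : Set (ℝ × ℝ)} (hS : IsOpen S) (hC : IsCompact C) (hSC : S ⊆ C)
    (hq : Lpo q C) (t : ℝ × ℝ) :
    IntegrableOn (fun x => q x ^ 2) S ∧ IntegrableOn (fun x => sp q t x ^ 2) S := by
  obtain ⟨K, hK⟩ := Hd_lip hq subset_rfl hC
  have hfin : volume C < ⊤ := hC.measure_lt_top
  constructor
  · have h1 : ContinuousOn (fun x => q x ^ 2) C := hK.continuousOn.pow 2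
    exact (h1.integrableOn_compact hC).mono_set hSC
  · have hqS : Lpo q S := fun C' hC' hc => hq C' (hC'.trans hSC) hc
    haveI : IsFiniteMeasure (volume.restrict S) :=
      ⟨by rw [Measure.restrict_apply_univ]; exact (measure_mono hSC).trans_lt hfin⟩
    refine Integrable.of_bound ((sp_meas hS hqS t).pow 2) ((K * ‖t‖) ^ 2) ?_
    rw [ae_restrict_iff' hS.measurableSet]
    refine Eventually.of_forall fun x hx => ?_
    have h2 := sp_le (q := q) (x := x) (L := K) (by
      filter_upwards [hS.mem_nhds hx] with y hy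
      exact hK.dist_le_mul y (hSC hy) x (hSC hx)) t
    rw [Real.norm_of_nonneg (by positivity)]
    exact pow_le_pow_left₀ h2.1 h2.2 2

end H46SB
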