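import Pool.Agent.H46.SB.Ha
import Pool.Agent.H46.SB.Hb
import Pool.Agent.H46.SB.Hc
import Pool.Agent.H46.SB.Hd

/-!
ROW He (MP_b319aa_NA, X9: Hardy inequalities on the octant).
PROOF. `hardy_oct`: all integrands are bounded on the relevant sets (`int_sq` with the compact `{a ≤ x.1 ≤ 2r, 0 ≤ x.2 ≤ x.1}` on which `q` is Lipschitz), so `oct_int` applies. For `w ∈ (0,1)` the function
`u s = q (s, s w)` is Lipschitz on `[a, 2r]`; for a.e. `w`, for a.e. `s ∈ (a, 2r)`, `q` is differentiable at `(s, s w)` (`diff_ae` on the open set `Oct a (2r)`, transported by `oct_lint` applied to the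
indicator of a measurable null set containing the bad set, `s > 0`), and then `deriv u s = fderiv ℝ q (s, s w) (1, w)`, so
`(deriv u s)^2 ≤ 2 (fderiv q e1)^2 + 2 w^2 (fderiv q e2)^2 ≤ 2 (sp q e1 ^ 2 + sp q e2 ^ 2)` by `sp_diff`. Apply `hardy_log_avg` to `u`, integrate over `w` and use `oct_int` for the three integrals
(`q(s, s w)^2 / (s^2 (..)^2) * s = u^2 / (s (..)^2)`).
`hardy_oct0`: similarly with `hardy_zero` and the weights `s ≤ b` on the left, `1 ≤ s / r` on the right.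
-/

set_option autoImplicit false

namespace H46SB

open H50NA MeasureTheory Set Filter Topology
open scoped NNReal ENNReal

theorem He_open (a b : ℝ) : IsOpen (Oct a b) :=
  (isOpen_lt continuous_const continuous_fst).inter
    ((isOpen_lt continuous_fst continuous_const).inter
      ((isOpen_lt continuous_const continuous_snd).inter
        (isOpen_lt continuous_snd continuous_fst)))

theorem He_comp (a b : ℝ) : IsCompact {x : ℝ × ℝ | a ≤ x.1 ∧ x.1 ≤ b ∧ 0 ≤ x.2 ∧ x.2 ≤ x.1} := by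
  refine (isCompact_Icc (a := ((a, 0) : ℝ × ℝ)) (b := (b, b))).of_isClosed_subset ?_ ?_
  · exact (isClosed_le continuous_const continuous_fst).inter
      ((isClosed_le continuous_fst continuous_const).inter
        ((isClosed_le continuous_const continuous_snd).inter
          (isClosed_le continuous_snd continuous_fst)))
  · rintro ⟨x, y⟩ ⟨h1, h2, h3, h4⟩
    exact ⟨⟨h1, h3⟩, ⟨h2, le_trans h4 h2⟩⟩

theorem He_sub {a b c d : ℝ} (h1 : c ≤ a) (h2 : b ≤ d) :
    Oct a b ⊆ {x : ℝ × ℝ | c ≤ x.1 ∧ x.1 ≤ d ∧ 0 ≤ x.2 ∧ x.2 ≤ x.1} := by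
  rintro ⟨x, y⟩ ⟨h3, h4, h5, h6⟩
  exact ⟨h1.trans h3.le, h4.le.trans h2, h5.le, h6.le⟩

theorem He_ae {a b : ℝ} (ha : 0 ≤ a) {P : ℝ × ℝ → Prop} (hP : MeasurableSet {x | P x})
    (h : ∀ᵐ x ∂(volume.restrict (Oct a b)), P x) :
    ∀ᵐ w ∂(volume.restrict (Ioo (0 : ℝ) 1)), ∀ᵐ s ∂(volume.restrict (Ioo a b)), P (s, s * w) := by
  classical
  have hG : Measurable ({x | P x}ᶜ.indicator (fun _ => (1 : ℝ≥0∞))) :=
    measurable_const.indicator hP.compl
  have h1 := oct_lint (a := a) (b := b) ha hG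
  have h2 : ∫⁻ x in Oct a b, {x | P x}ᶜ.indicator (fun _ => (1 : ℝ≥0∞)) x = 0 := by
    rw [lintegral_eq_zero_iff hG]
    filter_upwards [h] with x hx
    show {x | P x}ᶜ.indicator (fun _ => (1 : ℝ≥0∞)) x = 0
    exact indicator_of_notMem (not_not.2 hx) _
  rw [h2] at h1
  have hm2 : Measurable (fun p : ℝ × ℝ => {x | P x}ᶜ.indicator (fun _ => (1 : ℝ≥0∞))
      (p.2, p.2 * p.1) * ENNReal.ofReal p.2) := by
    refine (hG.comp ?_).mul ?_
    · exact measurable_snd.prodMk (measurable_snd.mul measurable_fst)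
    · exact ENNReal.measurable_ofReal.comp measurable_snd
  have h3 := (lintegral_eq_zero_iff (hm2.lintegral_prod_right')).1 h1.symm
  filter_upwards [h3] with w hw
  have hm3 : Measurable (fun s : ℝ => {x | P x}ᶜ.indicator (fun _ => (1 : ℝ≥0∞))
      (s, s * w) * ENNReal.ofReal s) := hm2.comp (measurable_const.prodMk measurable_id)
  have h4 := (lintegral_eq_zero_iff hm3).1 hw
  filter_upwards [h4, ae_restrict_mem measurableSet_Ioo] with s hs hs2
  by_contra hc
  have h5 : {x | P x}ᶜ.indicator (fun _ => (1 : ℝ≥0∞)) (s, s * w) * ENNReal.ofReal s = 0 := hs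
  have h6 : {x | P x}ᶜ.indicator (fun _ => (1 : ℝ≥0∞)) (s, s * w) = 1 :=
    indicator_of_mem (show (s, s * w) ∈ {x | P x}ᶜ from hc) _
  rw [h6, one_mul, ENNReal.ofReal_eq_zero] at h5
  exact absurd (lt_of_le_of_lt ha hs2.1) (not_lt.2 h5)

theorem He_lip {q : ℝ × ℝ → ℝ} {a b : ℝ} (ha : 0 < a)
    (hq : Lpo q {x : ℝ × ℝ | a ≤ x.1 ∧ x.1 ≤ b ∧ 0 ≤ x.2 ∧ x.2 ≤ x.1}) :
    ∃ K : ℝ≥0, ∀ w ∈ Ioo (0 : ℝ) 1, LipschitzOnWith K (fun s => q (s, s * w)) (Icc a b) := by
  obtain ⟨L, hL⟩ := hq _ subset_rfl (He_comp a b)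
  refine ⟨(max L 0).toNNReal, fun w hw => LipschitzOnWith.of_dist_le_mul ?_⟩
  intro s hs t ht
  have hm : ∀ s ∈ Icc a b, (s, s * w) ∈ {x : ℝ × ℝ | a ≤ x.1 ∧ x.1 ≤ b ∧ 0 ≤ x.2 ∧ x.2 ≤ x.1} := by
    intro s hs
    have h0 : 0 ≤ s := ha.le.trans hs.1
    exact ⟨hs.1, hs.2, mul_nonneg h0 hw.1.le, mul_le_of_le_one_right h0 hw.2.le⟩
  have h1 := hL _ (hm s hs) _ (hm t ht)
  have h2 : dist ((s, s * w) : ℝ × ℝ) (t, t * w) = dist s t := by
    rw [Prod.dist_eq]
    have h3 : dist (s * w) (t * w) ≤ dist s t := by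
      rw [Real.dist_eq, Real.dist_eq, ← sub_mul, abs_mul, abs_of_pos hw.1]
      exact mul_le_of_le_one_right (abs_nonneg _) hw.2.le
    exact max_eq_left h3
  rw [h2] at h1
  rw [Real.coe_toNNReal _ (le_max_right _ _)]
  exact h1.trans (mul_le_mul_of_nonneg_right (le_max_left _ _) dist_nonneg)

theorem He_deriv {q : ℝ × ℝ → ℝ} {w s : ℝ} (hw : w ∈ Ioo (0 : ℝ) 1)
    (hd : DifferentiableAt ℝ q (s, s * w)) :
    deriv (fun s => q (s, s * w)) s ^ 2 ≤
      2 * (sp q (1, 0) (s, s * w) ^ 2 + sp q (0, 1) (s, s * w) ^ 2) := by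
  rw [sp_diff hd, sp_diff hd, sq_abs, sq_abs]
  have h1 : HasDerivAt (fun s : ℝ => (s, s * w)) (1, w) s := by
    have h2 : HasDerivAt (fun s : ℝ => s * w) w s := by
      simpa using (hasDerivAt_id s).mul_const w
    exact (hasDerivAt_id s).prodMk h2
  have h3 : HasDerivAt (fun s => q (s, s * w)) (fderiv ℝ q (s, s * w) (1, w)) s :=
    hd.hasFDerivAt.comp_hasDerivAt s h1
  rw [h3.deriv]
  have h4 : ((1, w) : ℝ × ℝ) = (1, 0) + w • (0, 1) := by
    simp
  rw [h4, map_add, map_smul, smul_eq_mul]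
  set A := fderiv ℝ q (s, s * w) (1, 0)
  set B := fderiv ℝ q (s, s * w) (0, 1)
  have hw2 : w ^ 2 ≤ 1 := pow_le_one₀ hw.1.le hw.2.le
  nlinarith [sq_nonneg (A - w * B), mul_nonneg (sq_nonneg B) (sub_nonneg.2 hw2)]

theorem He_dae {q : ℝ × ℝ → ℝ} {a b : ℝ} (ha : 0 ≤ a) (hq : Lpo q (Oct a b)) :
    ∀ᵐ w ∂(volume.restrict (Ioo (0 : ℝ) 1)), ∀ᵐ s ∂(volume.restrict (Ioo a b)),
      deriv (fun s => q (s, s * w)) s ^ 2 ≤
      2 * (sp q (1, 0) (s, s * w) ^ 2 + sp q (0, 1) (s, s * w) ^ 2) := by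
  have h1 := He_ae ha (measurableSet_of_differentiableAt ℝ q) (diff_ae (He_open a b) hq)
  filter_upwards [h1, ae_restrict_mem measurableSet_Ioo] with w hw hw2
  filter_upwards [hw] with s hs
  exact He_deriv hw2 hs

theorem He_lpo {q : ℝ × ℝ → ℝ} {S T : Set (ℝ × ℝ)} (hq : Lpo q T) (h : S ⊆ T) : Lpo q S :=
  fun C hC hC2 => hq C (hC.trans h) hC2

theorem He_spint {q : ℝ × ℝ → ℝ} {a b : ℝ}
    (hq : Lpo q {x : ℝ × ℝ | a ≤ x.1 ∧ x.1 ≤ b ∧ 0 ≤ x.2 ∧ x.2 ≤ x.1}) :
    IntegrableOn (fun x => sp q (1, 0) x ^ 2 + sp q (0, 1) x ^ 2) (Oct a b) :=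
  ((int_sq (He_open a b) (He_comp a b) (He_sub le_rfl le_rfl) hq (1, 0)).2).add
    ((int_sq (He_open a b) (He_comp a b) (He_sub le_rfl le_rfl) hq (0, 1)).2)

theorem He_ii {a b : ℝ} (h : a ≤ b) (f : ℝ → ℝ) : ∫ x in a..b, f x = ∫ x in Ioo a b, f x := by
  rw [intervalIntegral.integral_of_le h, integral_Ioc_eq_integral_Ioo]

theorem hardy_oct {q : ℝ × ℝ → ℝ} {a r : ℝ} (ha : 0 < a) (har : a < r)
    (hq : Lpo q {x : ℝ × ℝ | a ≤ x.1 ∧ x.1 ≤ 2 * r ∧ 0 ≤ x.2 ∧ x.2 ≤ x.1}) :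
    ∫ x in Oct a r, q x ^ 2 / (x.1 ^ 2 * (1 + Real.log (2 * r / x.1)) ^ 2) ≤
      2 / r ^ 2 * (∫ x in Oct r (2 * r), q x ^ 2) +
        8 * ∫ x in Oct a (2 * r), (sp q (1, 0) x ^ 2 + sp q (0, 1) x ^ 2) := by
  have hr : 0 < r := ha.trans har
  have har2 : a ≤ 2 * r := by linarith
  have hqO : Lpo q (Oct a (2 * r)) := He_lpo hq (He_sub le_rfl le_rfl)
  obtain ⟨K, hK⟩ := He_lip ha hq
  -- integrability
  have i1 : IntegrableOn (fun x : ℝ × ℝ => q x ^ 2) (Oct r (2 * r)) :=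
    (int_sq (He_open _ _) (He_comp a (2 * r)) (He_sub har.le le_rfl) hq (1, 0)).1
  have i2 := He_spint hq
  have i0 : IntegrableOn (fun x : ℝ × ℝ => q x ^ 2) (Oct a r) :=
    (int_sq (He_open _ _) (He_comp a (2 * r)) (He_sub le_rfl (by linarith)) hq (1, 0)).1
  have i3 : IntegrableOn (fun x : ℝ × ℝ => q x ^ 2 / (x.1 ^ 2 * (1 + Real.log (2 * r / x.1)) ^ 2))
      (Oct a r) := by
    refine Integrable.mono' (i0.const_mul (1 / a ^ 2)) ?_ ?_
    · have hm : Measurable (fun x : ℝ × ℝ => (x.1 ^ 2 * (1 + Real.log (2 * r / x.1)) ^ 2)) := by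
        fun_prop
      exact (i0.aestronglyMeasurable.aemeasurable.div hm.aemeasurable).aestronglyMeasurable
    · filter_upwards [ae_restrict_mem (He_open a r).measurableSet] with x hx
      have hx1 : a < x.1 := hx.1
      have hx2 : x.1 < r := hx.2.1
      have hx0 : 0 < x.1 := ha.trans hx1
      have hl : 0 ≤ Real.log (2 * r / x.1) := by
        apply Real.log_nonneg
        rw [le_div_iff₀ hx0]
        linarith
      have h1 : a ^ 2 ≤ x.1 ^ 2 * (1 + Real.log (2 * r / x.1)) ^ 2 := by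
        have h2 : a ^ 2 ≤ x.1 ^ 2 := pow_le_pow_left₀ ha.le hx1.le 2
        have h3 : 1 ≤ (1 + Real.log (2 * r / x.1)) ^ 2 := one_le_pow₀ (by linarith)
        nlinarith [sq_nonneg x.1, sq_nonneg a]
      have ha2 : 0 < a ^ 2 := pow_pos ha 2
      rw [Real.norm_of_nonneg (div_nonneg (sq_nonneg _) (ha2.le.trans h1)), one_div,
        div_eq_inv_mul]
      exact mul_le_mul_of_nonneg_right (inv_anti₀ ha2 h1) (sq_nonneg _)
  rw [oct_int ha.le i3, oct_int hr.le i1, oct_int ha.le i2]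
  have j1 := (oct_int_on hr.le i1)
  have j2 := (oct_int_on ha.le i2)
  have k1 := j1.integral_prod_left
  have k2 := j2.integral_prod_left
  have hae := He_dae ha.le hqO
  have j2' := j2.prod_right_ae
  rw [← integral_const_mul, ← integral_const_mul, ← integral_add (k1.const_mul _) (k2.const_mul _)]
  refine integral_mono_of_nonneg ?_ ((k1.const_mul _).add (k2.const_mul _)) ?_
  · filter_upwards with w
    refine setIntegral_nonneg measurableSet_Ioo ?_
    intro s hs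
    exact mul_nonneg (div_nonneg (sq_nonneg _) (mul_nonneg (sq_nonneg _) (sq_nonneg _)))
      (ha.trans hs.1).le
  · filter_upwards [hae, j2', ae_restrict_mem measurableSet_Ioo] with w hw1 hw2 hw3
    have h1 := hardy_log_avg ha har.le (hK w hw3)
    rw [He_ii har.le, He_ii (by linarith : r ≤ 2 * r), He_ii har2] at h1
    have e1 : ∫ s in Ioo a r, q (s, s * w) ^ 2 / (s ^ 2 * (1 + Real.log (2 * r / s)) ^ 2) * s =
        ∫ s in Ioo a r, q (s, s * w) ^ 2 / (s * (1 + Real.log (2 * r / s)) ^ 2) := by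
      refine setIntegral_congr_fun measurableSet_Ioo ?_
      intro s hs
      have hs0 : s ≠ 0 := (ha.trans hs.1).ne'
      show q (s, s * w) ^ 2 / (s ^ 2 * (1 + Real.log (2 * r / s)) ^ 2) * s =
        q (s, s * w) ^ 2 / (s * (1 + Real.log (2 * r / s)) ^ 2)
      rw [div_mul_eq_mul_div, show s ^ 2 * (1 + Real.log (2 * r / s)) ^ 2 =
        (s * (1 + Real.log (2 * r / s)) ^ 2) * s by ring, mul_div_mul_right _ _ hs0]
    have e2 : ∫ s in Ioo r (2 * r), q (s, s * w) ^ 2 * s =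
        ∫ s in Ioo r (2 * r), s * q (s, s * w) ^ 2 := by
      simp only [mul_comm]
    have e3 : ∫ s in Ioo a (2 * r), s * deriv (fun s => q (s, s * w)) s ^ 2 ≤
        2 * ∫ s in Ioo a (2 * r), (sp q (1, 0) (s, s * w) ^ 2 + sp q (0, 1) (s, s * w) ^ 2) * s := by
      rw [← integral_const_mul]
      refine integral_mono_of_nonneg ?_ (hw2.const_mul _) ?_
      · filter_upwards [ae_restrict_mem measurableSet_Ioo] with s hs
        exact mul_nonneg (ha.trans hs.1).le (sq_nonneg _)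
      · filter_upwards [hw1, ae_restrict_mem measurableSet_Ioo] with s hs1 hs2
        have hs0 : 0 < s := ha.trans hs2.1
        show s * deriv (fun s => q (s, s * w)) s ^ 2 ≤
          2 * ((sp q (1, 0) (s, s * w) ^ 2 + sp q (0, 1) (s, s * w) ^ 2) * s)
        nlinarith [mul_le_mul_of_nonneg_left hs1 hs0.le]
    show ∫ s in Ioo a r, q (s, s * w) ^ 2 / (s ^ 2 * (1 + Real.log (2 * r / s)) ^ 2) * s ≤
      2 / r ^ 2 * (∫ s in Ioo r (2 * r), q (s, s * w) ^ 2 * s) +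
      8 * ∫ s in Ioo a (2 * r), (sp q (1, 0) (s, s * w) ^ 2 + sp q (0, 1) (s, s * w) ^ 2) * s
    rw [e1, e2]
    linarith

theorem hardy_oct0 {q : ℝ × ℝ → ℝ} {r a b : ℝ} (hr : 0 < r) (ha : 0 < a) (hab : r + a ≤ b)
    (hq : Lpo q {x : ℝ × ℝ | r ≤ x.1 ∧ x.1 ≤ b ∧ 0 ≤ x.2 ∧ x.2 ≤ x.1})
    (h0 : ∀ y : ℝ, 0 ≤ y → y ≤ r → q (r, y) = 0) :
    ∫ x in Oct (r + a) b, q x ^ 2 / (x.1 - r) ^ 2 ≤
      8 * b / r * ∫ x in Oct r b, (sp q (1, 0) x ^ 2 + sp q (0, 1) x ^ 2) := by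
  have hb : r < b := by linarith
  have hb0 : 0 < b := hr.trans hb
  have hra : 0 < r + a := by linarith
  have hqO : Lpo q (Oct r b) := He_lpo hq (He_sub le_rfl le_rfl)
  obtain ⟨K, hK⟩ := He_lip hr hq
  have i2 := He_spint hq
  have i0 : IntegrableOn (fun x : ℝ × ℝ => q x ^ 2) (Oct (r + a) b) :=
    (int_sq (He_open _ _) (He_comp r b) (He_sub (by linarith) le_rfl) hq (1, 0)).1
  have i3 : IntegrableOn (fun x : ℝ × ℝ => q x ^ 2 / (x.1 - r) ^ 2) (Oct (r + a) b) := by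
    refine Integrable.mono' (i0.const_mul (1 / a ^ 2)) ?_ ?_
    · have hm : Measurable (fun x : ℝ × ℝ => (x.1 - r) ^ 2) := by
        fun_prop
      exact (i0.aestronglyMeasurable.aemeasurable.div hm.aemeasurable).aestronglyMeasurable
    · filter_upwards [ae_restrict_mem (He_open (r + a) b).measurableSet] with x hx
      have hx1 : r + a < x.1 := hx.1
      have h1 : a ^ 2 ≤ (x.1 - r) ^ 2 := pow_le_pow_left₀ ha.le (by linarith) 2
      have ha2 : 0 < a ^ 2 := pow_pos ha 2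
      rw [Real.norm_of_nonneg (div_nonneg (sq_nonneg _) (sq_nonneg _)), one_div, div_eq_inv_mul]
      exact mul_le_mul_of_nonneg_right (inv_anti₀ ha2 h1) (sq_nonneg _)
  rw [oct_int hra.le i3, oct_int hr.le i2]
  have j2 := (oct_int_on hr.le i2)
  have k2 := j2.integral_prod_left
  have hae := He_dae hr.le hqO
  have j2' := j2.prod_right_ae
  rw [← integral_const_mul]
  refine integral_mono_of_nonneg ?_ (k2.const_mul _) ?_
  · filter_upwards with w
    refine setIntegral_nonneg measurableSet_Ioo ?_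
    intro s hs
    exact mul_nonneg (div_nonneg (sq_nonneg _) (sq_nonneg _)) (hra.trans hs.1).le
  · filter_upwards [hae, j2', ae_restrict_mem measurableSet_Ioo] with w hw1 hw2 hw3
    have h00 : (fun s => q (s, s * w)) r = 0 := by
      show q (r, r * w) = 0
      exact h0 _ (mul_nonneg hr.le hw3.1.le) (mul_le_of_le_one_right hr.le hw3.2.le)
    have h1 := hardy_zero ha hab (hK w hw3) h00
    rw [He_ii hab, He_ii hb.le] at h1
    have e1 : ∫ s in Ioo (r + a) b, q (s, s * w) ^ 2 / (s - r) ^ 2 * s ≤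
        b * ∫ s in Ioo (r + a) b, q (s, s * w) ^ 2 / (s - r) ^ 2 := by
      rw [← integral_const_mul]
      refine integral_mono_of_nonneg ?_ (Integrable.const_mul ?_ _) ?_
      · filter_upwards [ae_restrict_mem measurableSet_Ioo] with s hs
        exact mul_nonneg (div_nonneg (sq_nonneg _) (sq_nonneg _)) (hra.trans hs.1).le
      · have hc : ContinuousOn (fun s : ℝ => q (s, s * w) ^ 2 / (s - r) ^ 2) (Icc (r + a) b) := by
          refine ContinuousOn.div ?_ (by fun_prop) ?_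
          · exact (((hK w hw3).continuousOn).mono (Icc_subset_Icc (by linarith) le_rfl)).pow 2
          · intro s hs
            have : 0 < s - r := by linarith [hs.1]
            positivity
        exact (hc.integrableOn_compact isCompact_Icc).mono_set Ioo_subset_Icc_self
      · filter_upwards [ae_restrict_mem measurableSet_Ioo] with s hs
        show q (s, s * w) ^ 2 / (s - r) ^ 2 * s ≤ b * (q (s, s * w) ^ 2 / (s - r) ^ 2)
        rw [mul_comm b]
        exact mul_le_mul_of_nonneg_left hs.2.le (div_nonneg (sq_nonneg _) (sq_nonneg _))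
    have e3 : ∫ s in Ioo r b, deriv (fun s => q (s, s * w)) s ^ 2 ≤
        2 / r * ∫ s in Ioo r b, (sp q (1, 0) (s, s * w) ^ 2 + sp q (0, 1) (s, s * w) ^ 2) * s := by
      rw [← integral_const_mul]
      refine integral_mono_of_nonneg ?_ (hw2.const_mul _) ?_
      · filter_upwards with s
        exact sq_nonneg _
      · filter_upwards [hw1, ae_restrict_mem measurableSet_Ioo] with s hs1 hs2
        show deriv (fun s => q (s, s * w)) s ^ 2 ≤
          2 / r * ((sp q (1, 0) (s, s * w) ^ 2 + sp q (0, 1) (s, s * w) ^ 2) * s)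
        have h5 : 0 ≤ sp q (1, 0) (s, s * w) ^ 2 + sp q (0, 1) (s, s * w) ^ 2 := by positivity
        have h6 : 2 / r * ((sp q (1, 0) (s, s * w) ^ 2 + sp q (0, 1) (s, s * w) ^ 2) * s) =
            2 * (sp q (1, 0) (s, s * w) ^ 2 + sp q (0, 1) (s, s * w) ^ 2) * (s / r) := by ring
        have h7 : 1 ≤ s / r := by
          rw [le_div_iff₀ hr, one_mul]
          exact hs2.1.le
        rw [h6]
        exact hs1.trans (le_mul_of_one_le_right (by linarith) h7)
    show ∫ s in Ioo (r + a) b, q (s, s * w) ^ 2 / (s - r) ^ 2 * s ≤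
      8 * b / r * ∫ s in Ioo r b, (sp q (1, 0) (s, s * w) ^ 2 + sp q (0, 1) (s, s * w) ^ 2) * s
    have e4 : 8 * b / r * ∫ s in Ioo r b, (sp q (1, 0) (s, s * w) ^ 2 + sp q (0, 1) (s, s * w) ^ 2) * s =
      b * (4 * (2 / r * ∫ s in Ioo r b, (sp q (1, 0) (s, s * w) ^ 2 + sp q (0, 1) (s, s * w) ^ 2) * s)) := by
      ring
    rw [e4]
    refine e1.trans (mul_le_mul_of_nonneg_left ?_ hb0.le)
    linarith

end H46SB
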