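import Pool.Agent.H46.SB.Hc
import Pool.Agent.H46.SB.Hd

/-!
ROW Hf (MP_b319aa_NA, X9: the eight octant charts at a point).
PROOF. `ch p i` is an isometry of `ℝ × ℝ` (sup norm), an affine homeomorphism preserving the volume (translation, sign changes, swap: `measurePreserving_add_left`, `Measure.prod_swap`,
`MeasurePreserving.prod`, `measurePreserving_neg`...), so `ch_int` is `MeasurePreserving.setIntegral_image_emb`. `ch_dist`: for `x ∈ Oct a b`, `dist (ch p i x) p = max |x.1| |x.2| = x.1`.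
`ch_cover`: for `y` with `y.1 ≠ p.1`, `y.2 ≠ p.2`, `|y.1 - p.1| ≠ |y.2 - p.2|`, `a < dist y p < b` there is a (unique) `i` with `y ∈ ch p i '' Oct a b`; the exceptional set is a finite union
of lines, a null set.
`ch_sp`: at a point `x` such that `q` is differentiable at `ch p i x`, `q ∘ ch p i` is differentiable at `x` and its partial derivatives are, up to sign and order, those of `q`; use `sp_diff`.
`ch_lpo`: `Lpo` is preserved (isometry; images of compact sets are compact).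
-/

set_option autoImplicit false

namespace H46SB

open H50NA MeasureTheory Set Filter Topology

/-- sign -/
def sg (b : Bool) : ℝ := if b then 1 else -1

/-- the charts -/
def ch (p : ℝ × ℝ) (i : Bool × Bool × Bool) (x : ℝ × ℝ) : ℝ × ℝ :=
  if i.2.2 then (p.1 + sg i.1 * x.1, p.2 + sg i.2.1 * x.2) else (p.1 + sg i.1 * x.2, p.2 + sg i.2.1 * x.1)

theorem Hf_sg (b : Bool) : sg b = 1 ∨ sg b = -1 := by
  cases b
  · right; rfl
  · left; rfl

theorem Hf_sg_mul (b : Bool) (x : ℝ) : sg b * (sg b * x) = x := by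
  rcases Hf_sg b with h | h <;> rw [h] <;> ring

theorem Hf_abs (b : Bool) (x : ℝ) : |sg b * x| = |x| := by
  rcases Hf_sg b with h | h
  · rw [h, one_mul]
  · rw [h, neg_one_mul, abs_neg]

theorem Hf_sq (b : Bool) : sg b ^ 2 = 1 := by
  rcases Hf_sg b with h | h <;> rw [h] <;> norm_num

theorem Hf_t (p : ℝ × ℝ) (i : Bool × Bool × Bool) (h : i.2.2 = true) (x : ℝ × ℝ) :
    ch p i x = (p.1 + sg i.1 * x.1, p.2 + sg i.2.1 * x.2) := by
  unfold ch
  rw [if_pos h]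

theorem Hf_f (p : ℝ × ℝ) (i : Bool × Bool × Bool) (h : ¬ i.2.2 = true) (x : ℝ × ℝ) :
    ch p i x = (p.1 + sg i.1 * x.2, p.2 + sg i.2.1 * x.1) := by
  unfold ch
  rw [if_neg h]

theorem Hf_isometry (p : ℝ × ℝ) (i : Bool × Bool × Bool) : Isometry (ch p i) := by
  refine Isometry.of_dist_eq fun x y => ?_
  have h1 : ∀ (c : ℝ) (b : Bool) (u v : ℝ), dist (c + sg b * u) (c + sg b * v) = dist u v := by
    intro c b u v
    rw [Real.dist_eq, Real.dist_eq, add_sub_add_left_eq_sub, ← mul_sub, Hf_abs]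
  by_cases h : i.2.2 = true
  · rw [Hf_t p i h, Hf_t p i h, Prod.dist_eq, Prod.dist_eq]
    simp only [h1]
  · rw [Hf_f p i h, Hf_f p i h, Prod.dist_eq, Prod.dist_eq]
    simp only [h1]
    exact max_comm _ _

theorem Hf_surj (p : ℝ × ℝ) (i : Bool × Bool × Bool) : Function.Surjective (ch p i) := by
  intro y
  by_cases h : i.2.2 = true
  · refine ⟨(sg i.1 * (y.1 - p.1), sg i.2.1 * (y.2 - p.2)), ?_⟩
    rw [Hf_t p i h]
    refine Prod.ext ?_ ?_
    · show p.1 + sg i.1 * (sg i.1 * (y.1 - p.1)) = y.1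
      rw [Hf_sg_mul]; ring
    · show p.2 + sg i.2.1 * (sg i.2.1 * (y.2 - p.2)) = y.2
      rw [Hf_sg_mul]; ring
  · refine ⟨(sg i.2.1 * (y.2 - p.2), sg i.1 * (y.1 - p.1)), ?_⟩
    rw [Hf_f p i h]
    refine Prod.ext ?_ ?_
    · show p.1 + sg i.1 * (sg i.1 * (y.1 - p.1)) = y.1
      rw [Hf_sg_mul]; ring
    · show p.2 + sg i.2.1 * (sg i.2.1 * (y.2 - p.2)) = y.2
      rw [Hf_sg_mul]; ring

/-- The chart as an isometry of the plane. -/
noncomputable def Hf_E (p : ℝ × ℝ) (i : Bool × Bool × Bool) : (ℝ × ℝ) ≃ᵢ (ℝ × ℝ) where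
  toEquiv := Equiv.ofBijective (ch p i) ⟨(Hf_isometry p i).injective, Hf_surj p i⟩
  isometry_toFun := Hf_isometry p i

theorem Hf_E_coe (p : ℝ × ℝ) (i : Bool × Bool × Bool) : ⇑(Hf_E p i) = ch p i := rfl

theorem Hf_mp (p : ℝ × ℝ) (i : Bool × Bool × Bool) :
    MeasurePreserving (ch p i) (volume : Measure (ℝ × ℝ)) volume := by
  have h := (Hf_E p i).measurePreserving_hausdorffMeasure 2
  rw [hausdorffMeasure_prod_real] at h
  exact h

theorem Hf_emb (p : ℝ × ℝ) (i : Bool × Bool × Bool) : MeasurableEmbedding (ch p i) :=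
  (Hf_E p i).toHomeomorph.measurableEmbedding

/-- The linear part of the chart. -/
noncomputable def Hf_L (i : Bool × Bool × Bool) : ℝ × ℝ →L[ℝ] ℝ × ℝ :=
  if i.2.2 then (sg i.1 • ContinuousLinearMap.fst ℝ ℝ ℝ).prod (sg i.2.1 • ContinuousLinearMap.snd ℝ ℝ ℝ)
  else (sg i.1 • ContinuousLinearMap.snd ℝ ℝ ℝ).prod (sg i.2.1 • ContinuousLinearMap.fst ℝ ℝ ℝ)

theorem Hf_ch (p : ℝ × ℝ) (i : Bool × Bool × Bool) (x : ℝ × ℝ) : ch p i x = p + Hf_L i x := by
  by_cases h : i.2.2 = true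
  · rw [Hf_t p i h]
    unfold Hf_L
    rw [if_pos h]
    rfl
  · rw [Hf_f p i h]
    unfold Hf_L
    rw [if_neg h]
    rfl

theorem Hf_deriv (p : ℝ × ℝ) (i : Bool × Bool × Bool) (x : ℝ × ℝ) :
    HasFDerivAt (ch p i) (Hf_L i) x := by
  have h1 : HasFDerivAt (fun y => p + Hf_L i y) (Hf_L i) x := (Hf_L i).hasFDerivAt.const_add p
  have h2 : ch p i = fun y => p + Hf_L i y := funext fun y => Hf_ch p i y
  rw [h2]
  exact h1

theorem Hf_null (p : ℝ × ℝ) : volume {y : ℝ × ℝ | y.1 = p.1 ∨ y.2 = p.2 ∨ |y.1 - p.1| = |y.2 - p.2|} = 0 := by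
  have hm : MeasurableSet {y : ℝ × ℝ | y.1 = p.1 ∨ y.2 = p.2 ∨ |y.1 - p.1| = |y.2 - p.2|} := by
    have c1 : IsClosed {y : ℝ × ℝ | y.1 = p.1} := isClosed_eq continuous_fst continuous_const
    have c2 : IsClosed {y : ℝ × ℝ | y.2 = p.2} := isClosed_eq continuous_snd continuous_const
    have c3 : IsClosed {y : ℝ × ℝ | |y.1 - p.1| = |y.2 - p.2|} :=
      isClosed_eq (continuous_abs.comp (continuous_fst.sub continuous_const))
        (continuous_abs.comp (continuous_snd.sub continuous_const))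
    exact (c1.union (c2.union c3)).measurableSet
  rw [Measure.volume_eq_prod, Measure.measure_prod_null hm]
  have h1 : ∀ᵐ x : ℝ, x ≠ p.1 := by
    rw [ae_iff]
    simp
  filter_upwards [h1] with x hx
  have h2 : Prod.mk x ⁻¹' {y : ℝ × ℝ | y.1 = p.1 ∨ y.2 = p.2 ∨ |y.1 - p.1| = |y.2 - p.2|} ⊆
      {p.2, p.2 + |x - p.1|, p.2 - |x - p.1|} := by
    intro y hy
    rcases hy with hy | hy | hy
    · exact absurd hy hx
    · left; exact hy
    · right
      have hy' : |x - p.1| = |y - p.2| := hy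
      rcases abs_choice (y - p.2) with h3 | h3
      · left
        rw [hy', h3]; ring
      · right
        show y = _
        rw [hy', h3]; ring
  have h3 : ({p.2, p.2 + |x - p.1|, p.2 - |x - p.1|} : Set ℝ).Finite := Set.toFinite _
  exact measure_mono_null h2 (h3.measure_zero volume)

theorem Hf_sgabs (x : ℝ) : sg (decide (0 < x)) * |x| = x := by
  by_cases h : 0 < x
  · rw [decide_eq_true h, abs_of_pos h]
    show (if true then (1 : ℝ) else -1) * x = x
    simp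
  · rw [decide_eq_false h, abs_of_nonpos (not_lt.1 h)]
    show (if false then (1 : ℝ) else -1) * (-x) = x
    simp

theorem ch_dist (p : ℝ × ℝ) (i : Bool × Bool × Bool) (x : ℝ × ℝ) (hx : 0 < x.2) (hx2 : x.2 < x.1) :
    dist (ch p i x) p = x.1 := by
  have h1 : ∀ (c : ℝ) (b : Bool) (u : ℝ), dist (c + sg b * u) c = |u| := by
    intro c b u
    rw [Real.dist_eq, add_sub_cancel_left, Hf_abs]
  have hx1 : 0 < x.1 := hx.trans hx2
  by_cases h : i.2.2 = true
  · rw [Hf_t p i h, Prod.dist_eq]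
    simp only [h1]
    rw [abs_of_pos hx, abs_of_pos hx1, max_eq_left hx2.le]
  · rw [Hf_f p i h, Prod.dist_eq]
    simp only [h1]
    rw [abs_of_pos hx, abs_of_pos hx1, max_eq_right hx2.le]

theorem ch_int (p : ℝ × ℝ) (i : Bool × Bool × Bool) (S : Set (ℝ × ℝ)) (g : ℝ × ℝ → ℝ) :
    ∫ y in ch p i '' S, g y = ∫ x in S, g (ch p i x) := by
  exact (Hf_mp p i).setIntegral_image_emb (Hf_emb p i) g S

theorem ch_intOn (p : ℝ × ℝ) (i : Bool × Bool × Bool) (S : Set (ℝ × ℝ)) (g : ℝ × ℝ → ℝ) :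
    IntegrableOn g (ch p i '' S) ↔ IntegrableOn (fun x => g (ch p i x)) S := by
  exact (Hf_mp p i).integrableOn_image (Hf_emb p i)

theorem ch_cover (p : ℝ × ℝ) (a b : ℝ) : ∃ Z : Set (ℝ × ℝ), volume Z = 0 ∧
    ∀ y : ℝ × ℝ, y ∉ Z → a < dist y p → dist y p < b → ∃ i, y ∈ ch p i '' Oct a b := by
  refine ⟨_, Hf_null p, fun y hy ha hb => ?_⟩
  rw [mem_setOf_eq, not_or, not_or] at hy
  obtain ⟨h1, h2, h3⟩ := hy
  rw [Prod.dist_eq, Real.dist_eq, Real.dist_eq] at ha hb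
  have p1 : 0 < |y.1 - p.1| := abs_pos.2 (sub_ne_zero.2 h1)
  have p2 : 0 < |y.2 - p.2| := abs_pos.2 (sub_ne_zero.2 h2)
  by_cases h : |y.2 - p.2| < |y.1 - p.1|
  · rw [max_eq_left h.le] at ha hb
    refine ⟨(decide (0 < y.1 - p.1), decide (0 < y.2 - p.2), true),
      (|y.1 - p.1|, |y.2 - p.2|), ⟨ha, hb, p2, h⟩, ?_⟩
    rw [Hf_t _ _ rfl]
    refine Prod.ext ?_ ?_
    · show p.1 + sg (decide (0 < y.1 - p.1)) * |y.1 - p.1| = y.1
      rw [Hf_sgabs]; ring
    · show p.2 + sg (decide (0 < y.2 - p.2)) * |y.2 - p.2| = y.2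
      rw [Hf_sgabs]; ring
  · have h' : |y.1 - p.1| < |y.2 - p.2| := lt_of_le_of_ne (not_lt.1 h) h3
    rw [max_eq_right h'.le] at ha hb
    refine ⟨(decide (0 < y.1 - p.1), decide (0 < y.2 - p.2), false),
      (|y.2 - p.2|, |y.1 - p.1|), ⟨ha, hb, p1, h'⟩, ?_⟩
    rw [Hf_f _ _ (by simp)]
    refine Prod.ext ?_ ?_
    · show p.1 + sg (decide (0 < y.1 - p.1)) * |y.1 - p.1| = y.1
      rw [Hf_sgabs]; ring
    · show p.2 + sg (decide (0 < y.2 - p.2)) * |y.2 - p.2| = y.2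
      rw [Hf_sgabs]; ring

theorem ch_sp (p : ℝ × ℝ) (i : Bool × Bool × Bool) {q : ℝ × ℝ → ℝ} {x : ℝ × ℝ}
    (hq : DifferentiableAt ℝ q (ch p i x)) :
    sp (fun y => q (ch p i y)) (1, 0) x ^ 2 + sp (fun y => q (ch p i y)) (0, 1) x ^ 2 =
      sp q (1, 0) (ch p i x) ^ 2 + sp q (0, 1) (ch p i x) ^ 2 := by
  have h1 : HasFDerivAt (fun y => q (ch p i y)) ((fderiv ℝ q (ch p i x)).comp (Hf_L i)) x :=
    hq.hasFDerivAt.comp x (Hf_deriv p i x)
  rw [sp_diff h1.differentiableAt, sp_diff h1.differentiableAt, sp_diff hq, sp_diff hq, h1.fderiv]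
  rw [ContinuousLinearMap.comp_apply, ContinuousLinearMap.comp_apply]
  simp only [sq_abs]
  by_cases h : i.2.2 = true
  · have e1 : Hf_L i (1, 0) = sg i.1 • ((1 : ℝ), (0 : ℝ)) := by
      unfold Hf_L
      rw [if_pos h]
      refine Prod.ext ?_ ?_
      · show sg i.1 * 1 = sg i.1 * 1
        rfl
      · show sg i.2.1 * 0 = sg i.1 * 0
        rw [mul_zero, mul_zero]
    have e2 : Hf_L i (0, 1) = sg i.2.1 • ((0 : ℝ), (1 : ℝ)) := by
      unfold Hf_L
      rw [if_pos h]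
      refine Prod.ext ?_ ?_
      · show sg i.1 * 0 = sg i.2.1 * 0
        rw [mul_zero, mul_zero]
      · show sg i.2.1 * 1 = sg i.2.1 * 1
        rfl
    rw [e1, e2, map_smul, map_smul, smul_eq_mul, smul_eq_mul, mul_pow, mul_pow, Hf_sq, Hf_sq,
      one_mul, one_mul]
  · have e1 : Hf_L i (1, 0) = sg i.2.1 • ((0 : ℝ), (1 : ℝ)) := by
      unfold Hf_L
      rw [if_neg h]
      refine Prod.ext ?_ ?_
      · show sg i.1 * 0 = sg i.2.1 * 0
        rw [mul_zero, mul_zero]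
      · show sg i.2.1 * 1 = sg i.2.1 * 1
        rfl
    have e2 : Hf_L i (0, 1) = sg i.1 • ((1 : ℝ), (0 : ℝ)) := by
      unfold Hf_L
      rw [if_neg h]
      refine Prod.ext ?_ ?_
      · show sg i.1 * 1 = sg i.1 * 1
        rfl
      · show sg i.2.1 * 0 = sg i.1 * 0
        rw [mul_zero, mul_zero]
    rw [e1, e2, map_smul, map_smul, smul_eq_mul, smul_eq_mul, mul_pow, mul_pow, Hf_sq, Hf_sq,
      one_mul, one_mul, add_comm]

theorem ch_open (p : ℝ × ℝ) (i : Bool × Bool × Bool) {S : Set (ℝ × ℝ)} (hS : IsOpen S) :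
    IsOpen (ch p i '' S) := by
  exact (Hf_E p i).toHomeomorph.isOpenMap S hS

theorem ch_lpo (p : ℝ × ℝ) (i : Bool × Bool × Bool) {q : ℝ × ℝ → ℝ} {S T : Set (ℝ × ℝ)} (hq : Lpo q T)
    (hS : ∀ x ∈ S, ch p i x ∈ T) : Lpo (fun y => q (ch p i y)) S := by
  intro C hC hCc
  obtain ⟨L, hL⟩ := hq (ch p i '' C) (by
    rintro _ ⟨x, hx, rfl⟩
    exact hS x (hC hx)) (hCc.image (Hf_isometry p i).continuous)
  refine ⟨L, fun x hx y hy => ?_⟩
  rw [← (Hf_isometry p i).dist_eq x y]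
  exact hL _ ⟨x, hx, rfl⟩ _ ⟨y, hy, rfl⟩

end H46SB
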