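import Pool.Agent.H46.SB.He
import Pool.Agent.H46.SB.Hf
import Pool.Agent.H80.HM.Defs

/-!
ROW Hg (MP_b319aa_NA, X9: the Hardy inequality at a point of `D`).
PROOF. Choose `r0 > 0` with `2 r0` smaller than each of the positive numbers among `p.1, 1 - p.1, p.2, 1/2 - p.2` and than the distance of `p` to the punctures different from `p`. Let `r ≤ r0`,
`G` = the set of `i` with `ch p i '' Oct 0 (2 r) ⊆ U`. For every `i` either `i ∈ G` or `ch p i '' Oct 0 (2 r)` is disjoint from `U` (look at the two coordinates separately: for `0 < t < 2 r` the number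
`p.1 + sg s * t` is in `(0,1)` iff `0 < p.1 < 1` or (`p.1 = 0`, `s = true`) or (`p.1 = 1`, `s = false`); independent of `t`). For `i ∈ G` the closed set
`{x | a ≤ x.1 ≤ 2r, 0 ≤ x.2 ≤ x.1}` is mapped by `ch p i` into `D \ P` (`D` closed; distance from `p` in `[a, 2 r]`). So `hardy_oct` applies to `q ∘ ch p i` (`ch_lpo`).
By `ch_cover`, `U ∩ {a < dist x p < r}` is contained in the union over `i ∈ G` of `ch p i '' Oct a r` and a null set, so the left side is `≤ ∑_{i ∈ G} ∫_{ch p i '' Oct a r} (...)`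
(nonnegative integrand, integrable: `int_sq`, bounded weight), `= ∑_{i ∈ G} ∫_{Oct a r} (q ∘ ch)^2 / (x.1^2 (..)^2)` (`ch_int`, `ch_dist`); each term is `≤ 2/r^2 ∫_{Oct r (2r)} (q ∘ ch)^2 + 8 ∫_{Oct a (2r)} (...)`,
and, transported back (`ch_int`; `ch_sp` with `diff_ae`), `≤ 2/r^2 ∫_U q^2 + 8 ∫_U |grad q|^2`. There are at most eight `i`.
-/

set_option autoImplicit false

namespace H46SB

open H50NA H80HM MeasureTheory Set Filter Topology

theorem Hg_dich (lo hi c R : ℝ) (hc1 : lo ≤ c) (hc2 : c ≤ hi) (hlh : lo < hi) (h1 : lo < c → R < c - lo)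
    (h2 : c < hi → R < hi - c) (s : Bool) :
    ((∀ t : ℝ, 0 < t → t < R → lo < c + sg s * t ∧ c + sg s * t < hi) ∧
      (∀ t : ℝ, 0 ≤ t → t ≤ R → lo ≤ c + sg s * t ∧ c + sg s * t ≤ hi)) ∨
    (∀ t : ℝ, 0 < t → ¬ (lo < c + sg s * t ∧ c + sg s * t < hi)) := by
  cases s
  · have e : sg false = -1 := rfl
    rw [e]
    rcases hc1.lt_or_eq with h | h
    · left
      have h3 := h1 h
      refine ⟨fun t ht1 ht2 => ⟨by linarith, by linarith⟩, fun t ht1 ht2 => ⟨by linarith, by linarith⟩⟩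
    · right
      intro t ht h3
      linarith [h3.1]
  · have e : sg true = 1 := rfl
    rw [e]
    rcases hc2.lt_or_eq with h | h
    · left
      have h3 := h2 h
      refine ⟨fun t ht1 ht2 => ⟨by linarith, by linarith⟩, fun t ht1 ht2 => ⟨by linarith, by linarith⟩⟩
    · right
      intro t ht h3
      linarith [h3.2]

theorem Hg_ev (x : ℝ) : ∀ᶠ r in 𝓝[>] (0 : ℝ), (0 < x → 2 * r < x) := by
  by_cases hx : 0 < x
  · have h1 : ∀ᶠ r in 𝓝[>] (0 : ℝ), r < x / 2 :=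
      (eventually_lt_nhds (show (0 : ℝ) < x / 2 by linarith)).filter_mono nhdsWithin_le_nhds
    filter_upwards [h1] with r hr _
    linarith
  · exact Eventually.of_forall fun r h => absurd h hx

theorem Hg_P_fin : (P : Set (ℝ × ℝ)).Finite := by
  unfold P
  exact Set.Finite.prod (Set.toFinite _) (Set.toFinite _)

theorem Hg_r0 (p : ℝ × ℝ) : ∃ r0 > 0, (0 < p.1 → 2 * r0 < p.1) ∧ (0 < 1 - p.1 → 2 * r0 < 1 - p.1) ∧
    (0 < p.2 → 2 * r0 < p.2) ∧ (0 < 1 / 2 - p.2 → 2 * r0 < 1 / 2 - p.2) ∧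
    ∀ c ∈ P, 0 < dist c p → 2 * r0 < dist c p := by
  have h5 : ∀ᶠ r in 𝓝[>] (0 : ℝ), ∀ c ∈ P, 0 < dist c p → 2 * r < dist c p := by
    rw [Filter.eventually_all_finite Hg_P_fin]
    intro c _
    exact Hg_ev _
  have h6 : ∀ᶠ r in 𝓝[>] (0 : ℝ), 0 < r := self_mem_nhdsWithin
  obtain ⟨r, h⟩ := ((((Hg_ev p.1).and (Hg_ev (1 - p.1))).and ((Hg_ev p.2).and (Hg_ev (1 / 2 - p.2)))).and
    (h5.and h6)).exists
  exact ⟨r, h.2.2, h.1.1.1, h.1.1.2, h.1.2.1, h.1.2.2, h.2.1⟩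

theorem Hg_open (a b : ℝ) : IsOpen (Oct a b) := by
  have h1 : IsOpen {x : ℝ × ℝ | a < x.1} := isOpen_lt continuous_const continuous_fst
  have h2 : IsOpen {x : ℝ × ℝ | x.1 < b} := isOpen_lt continuous_fst continuous_const
  have h3 : IsOpen {x : ℝ × ℝ | 0 < x.2} := isOpen_lt continuous_const continuous_snd
  have h4 : IsOpen {x : ℝ × ℝ | x.2 < x.1} := isOpen_lt continuous_snd continuous_fst
  exact h1.inter (h2.inter (h3.inter h4))

theorem Hg_oct_mono {a b a' b' : ℝ} (h1 : a' ≤ a) (h2 : b ≤ b') : Oct a b ⊆ Oct a' b' :=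
  fun _ hx => ⟨lt_of_le_of_lt h1 hx.1, lt_of_lt_of_le hx.2.1 h2, hx.2.2.1, hx.2.2.2⟩

theorem Hg_zero (p : ℝ × ℝ) (i : Bool × Bool × Bool) : ch p i (0, 0) = p := by
  by_cases h : i.2.2 = true
  · rw [Hf_t p i h]
    simp
  · rw [Hf_f p i h]
    simp

theorem Hg_distc (p : ℝ × ℝ) (i : Bool × Bool × Bool) (x : ℝ × ℝ) (h1 : 0 ≤ x.2) (h2 : x.2 ≤ x.1) :
    dist (ch p i x) p = x.1 := by
  conv_lhs => rw [← Hg_zero p i]
  rw [Hg_zero p i]
  have h3 : dist (ch p i x) (ch p i (0, 0)) = x.1 := by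
    rw [(Hf_isometry p i).dist_eq, Prod.dist_eq, Real.dist_eq, Real.dist_eq]
    show max |x.1 - 0| |x.2 - 0| = x.1
    rw [sub_zero, sub_zero, abs_of_nonneg h1, abs_of_nonneg (h1.trans h2), max_eq_left h2]
  rwa [Hg_zero p i] at h3

/-- a chart is inside `U` or disjoint from it -/
theorem Hg_good {p : ℝ × ℝ} (hp : p ∈ D) {R : ℝ} (h1 : 0 < p.1 → R < p.1) (h2 : 0 < 1 - p.1 → R < 1 - p.1)
    (h3 : 0 < p.2 → R < p.2) (h4 : 0 < 1 / 2 - p.2 → R < 1 / 2 - p.2) (i : Bool × Bool × Bool) :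
    ((∀ x ∈ Oct 0 R, ch p i x ∈ U) ∧ (∀ x : ℝ × ℝ, x.1 ≤ R → 0 ≤ x.2 → x.2 ≤ x.1 → ch p i x ∈ D)) ∨
    (∀ x ∈ Oct 0 R, ch p i x ∉ U) := by
  have hp1 : 0 ≤ p.1 := hp.1.1
  have hp2 : p.1 ≤ 1 := hp.1.2
  have hp3 : 0 ≤ p.2 := hp.2.1
  have hp4 : p.2 ≤ 1 / 2 := hp.2.2
  have d1 := Hg_dich 0 1 p.1 R hp1 hp2 (by norm_num) (fun h => by have := h1 h; linarith)
    (fun h => by have := h2 (by linarith); linarith) i.1
  have d2 := Hg_dich 0 (1 / 2) p.2 R hp3 hp4 (by norm_num) (fun h => by have := h3 h; linarith)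
    (fun h => by have := h4 (by linarith); linarith) i.2.1
  rcases d1 with d1 | d1
  · rcases d2 with d2 | d2
    · left
      refine ⟨fun x hx => ?_, fun x hx1 hx2 hx3 => ?_⟩
      · obtain ⟨x1, x2, x3, x4⟩ := hx
        by_cases h : i.2.2 = true
        · rw [Hf_t p i h]
          exact ⟨d1.1 x.1 x1 x2, d2.1 x.2 x3 (x4.trans x2)⟩
        · rw [Hf_f p i h]
          exact ⟨d1.1 x.2 x3 (x4.trans x2), d2.1 x.1 x1 x2⟩
      · by_cases h : i.2.2 = true
        · rw [Hf_t p i h]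
          exact ⟨d1.2 x.1 (hx2.trans hx3) hx1, d2.2 x.2 hx2 (hx3.trans hx1)⟩
        · rw [Hf_f p i h]
          exact ⟨d1.2 x.2 hx2 (hx3.trans hx1), d2.2 x.1 (hx2.trans hx3) hx1⟩
    · right
      intro x hx hU
      obtain ⟨x1, x2, x3, x4⟩ := hx
      by_cases h : i.2.2 = true
      · rw [Hf_t p i h] at hU
        exact d2 x.2 x3 hU.2
      · rw [Hf_f p i h] at hU
        exact d2 x.1 x1 hU.2
  · right
    intro x hx hU
    obtain ⟨x1, x2, x3, x4⟩ := hx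
    by_cases h : i.2.2 = true
    · rw [Hf_t p i h] at hU
      exact d1 x.1 x1 hU.1
    · rw [Hf_f p i h] at hU
      exact d1 x.2 x3 hU.1

theorem Hg_U_sub : U ⊆ D \ P := by
  rintro x ⟨h1, h2⟩
  refine ⟨⟨⟨h1.1.le, h1.2.le⟩, ⟨h2.1.le, h2.2.le⟩⟩, ?_⟩
  rintro ⟨-, h3⟩
  rcases h3 with h3 | h3
  · rw [h3] at h2
    exact lt_irrefl _ h2.1
  · rw [mem_singleton_iff] at h3
    rw [h3] at h2
    exact lt_irrefl _ h2.2

theorem Hg_U_open : IsOpen U := isOpen_Ioo.prod isOpen_Ioo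

theorem Hg_piece {p : ℝ × ℝ} {r a : ℝ} (ha : 0 < a) (har : a < r)
    {i : Bool × Bool × Bool} (hU : ∀ x ∈ Oct 0 (2 * r), ch p i x ∈ U)
    (hD : ∀ x : ℝ × ℝ, x.1 ≤ 2 * r → 0 ≤ x.2 → x.2 ≤ x.1 → ch p i x ∈ D)
    (hP : ∀ c ∈ P, 0 < dist c p → 2 * r < dist c p) {q : ℝ × ℝ → ℝ} (hq : Lpo q (D \ P))
    (hq2 : IntegrableOn (fun x => q x ^ 2) U)
    (hqs : IntegrableOn (fun x => sp q (1, 0) x ^ 2 + sp q (0, 1) x ^ 2) U) :
    ∫ x in ch p i '' Oct a r, q x ^ 2 / (dist x p ^ 2 * (1 + Real.log (2 * r / dist x p)) ^ 2) ≤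
      2 / r ^ 2 * (∫ x in U, q x ^ 2) + 8 * ∫ x in U, (sp q (1, 0) x ^ 2 + sp q (0, 1) x ^ 2) := by
  have hr : 0 < r := ha.trans har
  have hl : Lpo (fun y => q (ch p i y)) {x : ℝ × ℝ | a ≤ x.1 ∧ x.1 ≤ 2 * r ∧ 0 ≤ x.2 ∧ x.2 ≤ x.1} := by
    refine ch_lpo p i hq ?_
    rintro x ⟨x1, x2, x3, x4⟩
    refine ⟨hD x x2 x3 x4, fun hc => ?_⟩
    have h1 := Hg_distc p i x x3 x4
    have h2 := hP _ hc (by rw [h1]; linarith)
    rw [h1] at h2
    linarith
  have hmain := hardy_oct ha har hl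
  have hOct : MeasurableSet (Oct a r) := (Hg_open a r).measurableSet
  have e1 : ∫ x in ch p i '' Oct a r, q x ^ 2 / (dist x p ^ 2 * (1 + Real.log (2 * r / dist x p)) ^ 2) =
      ∫ x in Oct a r, q (ch p i x) ^ 2 / (x.1 ^ 2 * (1 + Real.log (2 * r / x.1)) ^ 2) := by
    rw [ch_int]
    refine setIntegral_congr_fun hOct fun x hx => ?_
    show q (ch p i x) ^ 2 / (dist (ch p i x) p ^ 2 * (1 + Real.log (2 * r / dist (ch p i x) p)) ^ 2) =
      q (ch p i x) ^ 2 / (x.1 ^ 2 * (1 + Real.log (2 * r / x.1)) ^ 2)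
    rw [ch_dist p i x hx.2.2.1 hx.2.2.2]
  rw [e1]
  refine hmain.trans ?_
  have s1 : ch p i '' Oct r (2 * r) ⊆ U := by
    rintro _ ⟨x, hx, rfl⟩
    exact hU x (Hg_oct_mono hr.le (le_refl _) hx)
  have s2 : ch p i '' Oct a (2 * r) ⊆ U := by
    rintro _ ⟨x, hx, rfl⟩
    exact hU x (Hg_oct_mono ha.le (le_refl _) hx)
  have e2 : ∫ x in Oct r (2 * r), q (ch p i x) ^ 2 ≤ ∫ x in U, q x ^ 2 := by
    rw [← ch_int p i (Oct r (2 * r)) (fun x => q x ^ 2)]
    refine setIntegral_mono_set hq2 ?_ (LE.le.eventuallyLE s1)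
    exact Eventually.of_forall fun x => sq_nonneg _
  have e3 : ∫ x in Oct a (2 * r), (sp (fun y => q (ch p i y)) (1, 0) x ^ 2 +
      sp (fun y => q (ch p i y)) (0, 1) x ^ 2) ≤ ∫ x in U, (sp q (1, 0) x ^ 2 + sp q (0, 1) x ^ 2) := by
    have hO : IsOpen (ch p i '' Oct a (2 * r)) := ch_open p i (Hg_open _ _)
    have hqO : Lpo q (ch p i '' Oct a (2 * r)) := fun C hC hc => hq C (hC.trans (s2.trans Hg_U_sub)) hc
    have hae := diff_ae hO hqO
    have hmp := (Hf_mp p i).restrict_image_emb (Hf_emb p i) (Oct a (2 * r))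
    have hae2 : ∀ᵐ x ∂(volume.restrict (Oct a (2 * r))), DifferentiableAt ℝ q (ch p i x) :=
      hmp.quasiMeasurePreserving.ae hae
    have e4 : ∫ x in Oct a (2 * r), (sp (fun y => q (ch p i y)) (1, 0) x ^ 2 +
        sp (fun y => q (ch p i y)) (0, 1) x ^ 2) =
        ∫ x in Oct a (2 * r), (sp q (1, 0) (ch p i x) ^ 2 + sp q (0, 1) (ch p i x) ^ 2) := by
      refine integral_congr_ae ?_
      filter_upwards [hae2] with x hx
      exact ch_sp p i hx
    rw [e4, ← ch_int p i (Oct a (2 * r)) (fun x => sp q (1, 0) x ^ 2 + sp q (0, 1) x ^ 2)]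
    refine setIntegral_mono_set hqs ?_ (LE.le.eventuallyLE s2)
    exact Eventually.of_forall fun x => add_nonneg (sq_nonneg _) (sq_nonneg _)
  have h5 : 2 / r ^ 2 * (∫ x in Oct r (2 * r), q (ch p i x) ^ 2) ≤ 2 / r ^ 2 * ∫ x in U, q x ^ 2 :=
    mul_le_mul_of_nonneg_left e2 (by positivity)
  linarith

theorem Hg_int {p : ℝ × ℝ} {r a : ℝ} (ha : 0 < a) {q : ℝ × ℝ → ℝ}
    (hq2 : IntegrableOn (fun x => q x ^ 2) U) :
    IntegrableOn (fun x => q x ^ 2 / (dist x p ^ 2 * (1 + Real.log (2 * r / dist x p)) ^ 2))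
        (U ∩ {x | a < dist x p ∧ dist x p < r}) := by
  have hd : Continuous fun x : ℝ × ℝ => dist x p := continuous_id.dist continuous_const
  have hopen : IsOpen (U ∩ {x | a < dist x p ∧ dist x p < r}) :=
    Hg_U_open.inter ((isOpen_lt continuous_const hd).inter (isOpen_lt hd continuous_const))
  have h1 : IntegrableOn (fun x => q x ^ 2) (U ∩ {x | a < dist x p ∧ dist x p < r}) :=
    hq2.mono_set inter_subset_left
  have hw : Measurable fun x : ℝ × ℝ => (dist x p ^ 2 * (1 + Real.log (2 * r / dist x p)) ^ 2)⁻¹ := by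
    have hdm : Measurable fun x : ℝ × ℝ => dist x p := hd.measurable
    exact ((hdm.pow_const 2).mul ((measurable_const.add
      (Real.measurable_log.comp (measurable_const.div hdm))).pow_const 2)).inv
  have h2 : Integrable (fun x => (dist x p ^ 2 * (1 + Real.log (2 * r / dist x p)) ^ 2)⁻¹ * q x ^ 2)
      (volume.restrict (U ∩ {x | a < dist x p ∧ dist x p < r})) := by
    refine Integrable.bdd_mul (c := (a ^ 2)⁻¹) h1 hw.aestronglyMeasurable ?_
    rw [ae_restrict_iff' hopen.measurableSet]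
    refine Eventually.of_forall fun x hx => ?_
    obtain ⟨-, hx1, hx2⟩ := hx
    have hx0 : 0 < dist x p := ha.trans hx1
    have h3 : 0 ≤ Real.log (2 * r / dist x p) := by
      apply Real.log_nonneg
      rw [le_div_iff₀ hx0]
      linarith
    have h4 : a ^ 2 ≤ dist x p ^ 2 * (1 + Real.log (2 * r / dist x p)) ^ 2 := by
      have h5 : a ^ 2 ≤ dist x p ^ 2 := pow_le_pow_left₀ ha.le hx1.le 2
      have h6 : (1 : ℝ) ≤ (1 + Real.log (2 * r / dist x p)) ^ 2 := one_le_pow₀ (by linarith)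
      have h7 : dist x p ^ 2 ≤ dist x p ^ 2 * (1 + Real.log (2 * r / dist x p)) ^ 2 :=
        le_mul_of_one_le_right (sq_nonneg _) h6
      exact h5.trans h7
    rw [norm_inv, Real.norm_of_nonneg (by positivity)]
    exact inv_anti₀ (by positivity) h4
  refine h2.congr (Eventually.of_forall fun x => ?_)
  exact (div_eq_inv_mul (q x ^ 2) (dist x p ^ 2 * (1 + Real.log (2 * r / dist x p)) ^ 2)).symm

theorem hardy_pt {p : ℝ × ℝ} (hp : p ∈ D) : ∃ r0 > 0, ∀ r : ℝ, 0 < r → r ≤ r0 → ∀ q : ℝ × ℝ → ℝ, Lpo q (D \ P) →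
    IntegrableOn (fun x => q x ^ 2) U → IntegrableOn (fun x => sp q (1, 0) x ^ 2 + sp q (0, 1) x ^ 2) U →
    ∀ a : ℝ, 0 < a → a < r →
      IntegrableOn (fun x => q x ^ 2 / (dist x p ^ 2 * (1 + Real.log (2 * r / dist x p)) ^ 2))
        (U ∩ {x | a < dist x p ∧ dist x p < r}) ∧
      ∫ x in U ∩ {x | a < dist x p ∧ dist x p < r},
        q x ^ 2 / (dist x p ^ 2 * (1 + Real.log (2 * r / dist x p)) ^ 2) ≤
      8 * (2 / r ^ 2 * (∫ x in U, q x ^ 2) + 8 * ∫ x in U, (sp q (1, 0) x ^ 2 + sp q (0, 1) x ^ 2)) := by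
  classical
  obtain ⟨r0, hr0, c1, c2, c3, c4, c5⟩ := Hg_r0 p
  refine ⟨r0, hr0, fun r hr hrr q hq hq2 hqs a ha har => ⟨Hg_int ha hq2, ?_⟩⟩
  obtain ⟨E, hE⟩ : ∃ E, E = 2 / r ^ 2 * (∫ x in U, q x ^ 2) +
      8 * ∫ x in U, (sp q (1, 0) x ^ 2 + sp q (0, 1) x ^ 2) := ⟨_, rfl⟩
  have hE0 : 0 ≤ E := by
    have i1 : 0 ≤ ∫ x in U, q x ^ 2 := integral_nonneg fun x => sq_nonneg _
    have i2 : 0 ≤ ∫ x in U, (sp q (1, 0) x ^ 2 + sp q (0, 1) x ^ 2) :=
      integral_nonneg fun x => add_nonneg (sq_nonneg _) (sq_nonneg _)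
    rw [hE]
    positivity
  rw [← hE]
  obtain ⟨F, hF⟩ : ∃ F : ℝ × ℝ → ℝ, F = fun x => q x ^ 2 / (dist x p ^ 2 * (1 + Real.log (2 * r / dist x p)) ^ 2) :=
    ⟨_, rfl⟩
  have hF0 : ∀ x, 0 ≤ F x := by
    intro x
    rw [hF]
    exact div_nonneg (sq_nonneg _) (mul_nonneg (sq_nonneg _) (sq_nonneg _))
  obtain ⟨A, hA⟩ : ∃ A : Set (ℝ × ℝ), A = U ∩ {x | a < dist x p ∧ dist x p < r} := ⟨_, rfl⟩
  have hFA : IntegrableOn F A := by
    rw [hF, hA]
    exact Hg_int ha hq2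
  have hdich := Hg_good hp (R := 2 * r) (fun h => by have := c1 h; linarith) (fun h => by have := c2 h; linarith)
    (fun h => by have := c3 h; linarith) (fun h => by have := c4 h; linarith)
  have hd : Continuous fun x : ℝ × ℝ => dist x p := continuous_id.dist continuous_const
  have hAo : IsOpen A := by
    rw [hA]
    exact Hg_U_open.inter ((isOpen_lt continuous_const hd).inter (isOpen_lt hd continuous_const))
  obtain ⟨B, hB⟩ : ∃ B : Bool × Bool × Bool → Set (ℝ × ℝ), B = fun i =>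
      if (∀ x ∈ Oct 0 (2 * r), ch p i x ∈ U) ∧
        (∀ x : ℝ × ℝ, x.1 ≤ 2 * r → 0 ≤ x.2 → x.2 ≤ x.1 → ch p i x ∈ D) then ch p i '' Oct a r else ∅ := ⟨_, rfl⟩
  have hBo : ∀ i, IsOpen (B i) := by
    intro i
    rw [hB]
    simp only
    split_ifs
    · exact ch_open p i (Hg_open _ _)
    · exact isOpen_empty
  have hBA : ∀ i, B i ⊆ A := by
    intro i y hy
    rw [hB] at hy
    simp only at hy
    split_ifs at hy with hc
    · obtain ⟨x, hx, rfl⟩ := hy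
      rw [hA]
      refine ⟨hc.1 x (Hg_oct_mono ha.le (by linarith) hx), ?_⟩
      rw [mem_ofPred_eq, ch_dist p i x hx.2.2.1 hx.2.2.2]
      exact ⟨hx.1, hx.2.1⟩
    · exact absurd hy (notMem_empty y)
  have hBE : ∀ i, ∫ x in B i, F x ≤ E := by
    intro i
    by_cases hc : (∀ x ∈ Oct 0 (2 * r), ch p i x ∈ U) ∧
        (∀ x : ℝ × ℝ, x.1 ≤ 2 * r → 0 ≤ x.2 → x.2 ≤ x.1 → ch p i x ∈ D)
    · have e : B i = ch p i '' Oct a r := by
        rw [hB]
        simp only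
        rw [if_pos hc]
      rw [e, hF, hE]
      exact Hg_piece ha har hc.1 hc.2 (fun c hcP h0 => by have := c5 c hcP h0; linarith) hq hq2 hqs
    · have e : B i = ∅ := by
        rw [hB]
        simp only
        rw [if_neg hc]
      rw [e, Measure.restrict_empty, integral_zero_measure]
      exact hE0
  obtain ⟨Z, hZ, hcov⟩ := ch_cover p a r
  have hZae : ∀ᵐ x : ℝ × ℝ, x ∉ Z := by
    rw [ae_iff]
    simpa using hZ
  have hle : ∀ᵐ x : ℝ × ℝ, A.indicator F x ≤ ∑ i, (B i).indicator F x := by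
    filter_upwards [hZae] with x hx
    have hnn : ∀ i, 0 ≤ (B i).indicator F x := fun i => indicator_nonneg (fun y _ => hF0 y) x
    by_cases hxA : x ∈ A
    · rw [indicator_of_mem hxA]
      have hxA' := hxA
      rw [hA] at hxA'
      obtain ⟨hxU, h1, h2⟩ := hxA'
      obtain ⟨i, y, hy, hyx⟩ := hcov x hx h1 h2
      have hy2 : y ∈ Oct 0 (2 * r) := Hg_oct_mono ha.le (by linarith) hy
      have hc : (∀ x ∈ Oct 0 (2 * r), ch p i x ∈ U) ∧
        (∀ x : ℝ × ℝ, x.1 ≤ 2 * r → 0 ≤ x.2 → x.2 ≤ x.1 → ch p i x ∈ D) := by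
        rcases hdich i with h | h
        · exact h
        · exact absurd (by rw [hyx]; exact hxU) (h y hy2)
      have hxB : x ∈ B i := by
        rw [hB]
        simp only
        rw [if_pos hc]
        exact ⟨y, hy, hyx⟩
      have h3 : F x = (B i).indicator F x := by rw [indicator_of_mem hxB]
      rw [h3]
      exact Finset.single_le_sum (f := fun i => (B i).indicator F x) (fun j _ => hnn j) (Finset.mem_univ i)
    · rw [indicator_of_notMem hxA]
      exact Finset.sum_nonneg fun j _ => hnn j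
  have hBi : ∀ i, Integrable ((B i).indicator F) := fun i =>
    (hFA.mono_set (hBA i)).integrable_indicator (hBo i).measurableSet
  have hfin : ∫ x in A, F x ≤ 8 * E := by
    rw [← integral_indicator hAo.measurableSet]
    calc ∫ x, A.indicator F x ≤ ∫ x, ∑ i, (B i).indicator F x :=
          integral_mono_ae (hFA.integrable_indicator hAo.measurableSet)
            (integrable_finsetSum _ fun i _ => hBi i) hle
      _ = ∑ i, ∫ x, (B i).indicator F x := integral_finsetSum _ fun i _ => hBi i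
      _ = ∑ i, ∫ x in B i, F x := Finset.sum_congr rfl fun i _ => integral_indicator (hBo i).measurableSet
      _ ≤ ∑ _i : Bool × Bool × Bool, E := Finset.sum_le_sum fun i _ => hBE i
      _ = 8 * E := by
        rw [Finset.sum_const, Finset.card_univ, nsmul_eq_mul]
        norm_num [Fintype.card_prod, Fintype.card_bool]
  rw [hA, hF] at hfin
  exact hfin

end H46SB
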