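import Pool.Agent.H50.NA.Defs

/-!
ROW Hh (MP_b319aa_NA, X9: the cutoff functions).
`cl a r x = max a (min r x)` (clamp). `lam a r x = 1 - log (LL (cl a r x) / LL r) / log (LL a / LL r)`, `LL x = 1 + log (2 r / x)`; `mu a R x = log (cl a R x / a) / log (R / a)`.
PROOF. `LL` is decreasing and `≥ 1` on `(0, 2r]`, `C^1` on `[a, r]`; `LL r = 1 + log 2`, `LL a > LL r`. On `[a, r]` the derivative of `x ↦ 1 - log (LL x / LL r) / log (LL a / LL r)` is
`c / (x LL x)`, `c = 1 / log (LL a / LL r)`. The clamp is 1-Lipschitz with values in `[a, r]`. So all properties; for `a < x < r` (open condition) `lam` agrees near `x` with the smooth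
function. Same for `mu`: derivative `1 / (x log (R/a))`.
-/

set_option autoImplicit false

namespace H46SB

open H50NA MeasureTheory Set Filter Topology
open scoped NNReal

/-- clamp -/
noncomputable def cl (a r x : ℝ) : ℝ := max a (min r x)

/-- logarithmic weight -/
noncomputable def LL (r x : ℝ) : ℝ := 1 + Real.log (2 * r / x)

/-- cutoff function at a point -/
noncomputable def lam (a r x : ℝ) : ℝ := 1 - Real.log (LL r (cl a r x) / LL r r) / Real.log (LL r a / LL r r)

/-- cutoff function at a hypersurface -/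
noncomputable def mu (a R x : ℝ) : ℝ := Real.log (cl a R x / a) / Real.log (R / a)

theorem Hh_gen {a r : ℝ} (har : a < r) (G g : ℝ → ℝ) (K : ℝ≥0)
    (hG : ∀ x ∈ Icc a r, HasDerivAt G (g x) x) (h0 : ∀ x ∈ Icc a r, 0 ≤ g x)
    (hK : ∀ x ∈ Icc a r, g x ≤ K) (hGa : G a = 0) (hGr : G r = 1) :
    (∃ K : ℝ≥0, LipschitzWith K (fun x => G (cl a r x))) ∧
      (∀ x, 0 ≤ G (cl a r x) ∧ G (cl a r x) ≤ 1) ∧
      (∀ x, x ≤ a → G (cl a r x) = 0) ∧ (∀ x, r ≤ x → G (cl a r x) = 1) ∧
      (∀ x, a < x → x < r → HasDerivAt (fun x => G (cl a r x)) (g x) x) := by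
  have hcl : ∀ x, cl a r x ∈ Icc a r := fun x =>
    ⟨le_max_left _ _, max_le har.le (min_le_left _ _)⟩
  have hlc : LipschitzWith 1 (cl a r) := (LipschitzWith.id.const_min r).const_max a
  have hmono : MonotoneOn G (Icc a r) := by
    apply monotoneOn_of_deriv_nonneg (convex_Icc a r)
    · intro x hx
      exact (hG x hx).continuousAt.continuousWithinAt
    · intro x hx
      exact (hG x (interior_subset hx)).differentiableAt.differentiableWithinAt
    · intro x hx
      rw [(hG x (interior_subset hx)).deriv]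
      exact h0 x (interior_subset hx)
  refine ⟨⟨K, ?_⟩, ?_, ?_, ?_, ?_⟩
  · have h1 : LipschitzOnWith K G (Icc a r) := by
      apply Convex.lipschitzOnWith_of_nnnorm_hasDerivWithin_le (convex_Icc a r)
        (fun x hx => (hG x hx).hasDerivWithinAt)
      intro x hx
      rw [← NNReal.coe_le_coe, coe_nnnorm, Real.norm_of_nonneg (h0 x hx)]
      exact hK x hx
    apply LipschitzWith.of_dist_le_mul
    intro x y
    refine (h1.dist_le_mul _ (hcl x) _ (hcl y)).trans ?_
    have h2 := hlc.dist_le_mul x y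
    rw [NNReal.coe_one, one_mul] at h2
    exact mul_le_mul_of_nonneg_left h2 K.2
  · intro x
    have h1 := hmono (left_mem_Icc.2 har.le) (hcl x) (hcl x).1
    have h2 := hmono (hcl x) (right_mem_Icc.2 har.le) (hcl x).2
    rw [hGa] at h1
    rw [hGr] at h2
    exact ⟨h1, h2⟩
  · intro x hx
    have h1 : cl a r x = a := by
      unfold cl
      rw [min_eq_right (hx.trans har.le), max_eq_left hx]
    rw [h1, hGa]
  · intro x hx
    have h1 : cl a r x = r := by
      unfold cl
      rw [min_eq_left hx, max_eq_right har.le]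
    rw [h1, hGr]
  · intro x hax hxr
    apply (hG x ⟨hax.le, hxr.le⟩).congr_of_eventuallyEq
    have h1 : Ioo a r ∈ 𝓝 x := Ioo_mem_nhds hax hxr
    filter_upwards [h1] with y hy
    have h2 : cl a r y = y := by
      unfold cl
      rw [min_eq_right hy.2.le, max_eq_right hy.1.le]
    rw [h2]

theorem lam_props {a r : ℝ} (ha : 0 < a) (har : a < r) :
    (∃ K : ℝ≥0, LipschitzWith K (lam a r)) ∧ (∀ x, 0 ≤ lam a r x ∧ lam a r x ≤ 1) ∧
      (∀ x, x ≤ a → lam a r x = 0) ∧ (∀ x, r ≤ x → lam a r x = 1) ∧
      (∀ x, a < x → x < r → HasDerivAt (lam a r) (1 / Real.log (LL r a / LL r r) / (x * LL r x)) x) := by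
  have hr : 0 < r := ha.trans har
  have hLL1 : ∀ x ∈ Icc a r, 1 ≤ LL r x := by
    intro x hx
    have hx0 : 0 < x := ha.trans_le hx.1
    unfold LL
    have h1 : 1 ≤ 2 * r / x := by
      rw [le_div_iff₀ hx0]
      linarith [hx.2]
    linarith [Real.log_nonneg h1]
  have hLLr : LL r r = 1 + Real.log 2 := by
    unfold LL
    rw [mul_div_assoc, div_self hr.ne', mul_one]
  have hrr : 0 < LL r r := lt_of_lt_of_le one_pos (hLL1 r (right_mem_Icc.2 har.le))
  have hlt : LL r r < LL r a := by
    rw [hLLr]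
    unfold LL
    have h1 : (2 : ℝ) < 2 * r / a := by
      rw [lt_div_iff₀ ha]
      linarith
    linarith [Real.log_lt_log (by norm_num) h1]
  have hc : 0 < Real.log (LL r a / LL r r) := by
    apply Real.log_pos
    rw [lt_div_iff₀ hrr]
    linarith
  set c := Real.log (LL r a / LL r r) with hcdef
  apply Hh_gen har (fun y => 1 - Real.log (LL r y / LL r r) / c) (fun x => 1 / c / (x * LL r x))
    ⟨1 / c / a, by positivity⟩
  · intro x hx
    have hx0 : 0 < x := ha.trans_le hx.1
    have hLx : 0 < LL r x := lt_of_lt_of_le one_pos (hLL1 x hx)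
    have h1 : HasDerivAt (fun y => 2 * r / y) (2 * r * (-(x ^ 2)⁻¹)) x := by
      simpa [div_eq_mul_inv] using (hasDerivAt_inv hx0.ne').const_mul (2 * r)
    have h2 : HasDerivAt (LL r) (2 * r * (-(x ^ 2)⁻¹) / (2 * r / x)) x := by
      unfold LL
      exact (h1.log (by positivity)).const_add 1
    have h3 := (((h2.div_const (LL r r)).log (by positivity)).div_const c).const_sub 1
    refine h3.congr_deriv ?_
    field_simp
  · intro x hx
    have hx0 : 0 < x := ha.trans_le hx.1
    have hLx : 0 < LL r x := lt_of_lt_of_le one_pos (hLL1 x hx)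
    positivity
  · intro x hx
    have hx0 : 0 < x := ha.trans_le hx.1
    have hLx := hLL1 x hx
    show 1 / c / (x * LL r x) ≤ 1 / c / a
    apply div_le_div_of_nonneg_left (by positivity) ha
    calc a ≤ x * 1 := by rw [mul_one]; exact hx.1
      _ ≤ x * LL r x := mul_le_mul_of_nonneg_left hLx hx0.le
  · show 1 - Real.log (LL r a / LL r r) / c = 0
    rw [← hcdef, div_self hc.ne', sub_self]
  · show 1 - Real.log (LL r r / LL r r) / c = 1
    rw [div_self hrr.ne', Real.log_one, zero_div, sub_zero]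

theorem mu_props {a R : ℝ} (ha : 0 < a) (haR : a < R) :
    (∃ K : ℝ≥0, LipschitzWith K (mu a R)) ∧ (∀ x, 0 ≤ mu a R x ∧ mu a R x ≤ 1) ∧
      (∀ x, x ≤ a → mu a R x = 0) ∧ (∀ x, R ≤ x → mu a R x = 1) ∧
      (∀ x, a < x → x < R → HasDerivAt (mu a R) (1 / Real.log (R / a) / x) x) := by
  have hR : 0 < R := ha.trans haR
  have hc : 0 < Real.log (R / a) := by
    apply Real.log_pos
    rw [lt_div_iff₀ ha]
    linarith
  apply Hh_gen haR (fun y => Real.log (y / a) / Real.log (R / a))
    (fun x => 1 / Real.log (R / a) / x) ⟨1 / Real.log (R / a) / a, by positivity⟩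
  · intro x hx
    have hx0 : 0 < x := ha.trans_le hx.1
    have h3 := (((hasDerivAt_id' x).div_const a).log (by positivity)).div_const (Real.log (R / a))
    refine h3.congr_deriv ?_
    field_simp
  · intro x hx
    have hx0 : 0 < x := ha.trans_le hx.1
    positivity
  · intro x hx
    show 1 / Real.log (R / a) / x ≤ 1 / Real.log (R / a) / a
    exact div_le_div_of_nonneg_left (by positivity) ha hx.1
  · show Real.log (a / a) / Real.log (R / a) = 0
    rw [div_self ha.ne', Real.log_one, zero_div]
  · show Real.log (R / a) / Real.log (R / a) = 1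
    exact div_self hc.ne'

end H46SB
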