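import Pool.Agent.H46.SB.He
import Pool.Agent.H46.SB.Hf
import Pool.Agent.H80.HM.Defs

/-!
ROW Hi (MP_b319aa_NA, X9: the Hardy inequality outside a square).
PROOF. `c0 = (1/4, 1/4)`, `b = r + R < 1/4`: the closed ball `closedBall c0 b` is a compact subset of `D \ P` and `ball c0 b ⊆ U`. For each of the eight charts `ch c0 i` (row Hf): `q ∘ ch c0 i` is Lipschitz on
`{r ≤ x.1 ≤ b, 0 ≤ x.2 ≤ x.1}` (`ch_lpo`; distance from `c0` at most `b`) and vanishes at the points `(r, y)`, `0 ≤ y ≤ r` (distance `r` from `c0`). `hardy_oct0` gives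
`∫_{Oct (r+a) b} (q ∘ ch)^2 / (x.1 - r)^2 ≤ 8 b / r ∫_{Oct r b} (...) ≤ 2 / r ∫_U |grad q|^2` (`ch_int`, `ch_sp` with `diff_ae`; `ch c0 i '' Oct r b ⊆ U`). By `ch_cover` the annulus is covered, up to a null set, by the
images of the `Oct (r+a) b`, on which `dist x c0 = x.1` (`ch_dist`); the integrand is nonnegative, and integrable on the annulus (`int_sq`, bounded weight). Sum over eight `i`.
-/

set_option autoImplicit false

namespace H46SB

open H50NA H80HM MeasureTheory Set Filter Topology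

private theorem Hi_dist (p : ℝ × ℝ) (i : Bool × Bool × Bool) (x : ℝ × ℝ) (hx : 0 ≤ x.2)
    (hx2 : x.2 ≤ x.1) : dist (ch p i x) p = x.1 := by
  have h1 : 0 ≤ x.1 := hx.trans hx2
  obtain ⟨i1, i2, i3⟩ := i
  cases i1 <;> cases i2 <;> cases i3 <;>
    simp [ch, sg, Prod.dist_eq, abs_of_nonneg h1, abs_of_nonneg hx, hx2]

/-- the inverse chart -/
private def Hi_inv (p : ℝ × ℝ) (i : Bool × Bool × Bool) (y : ℝ × ℝ) : ℝ × ℝ :=
  if i.2.2 then (sg i.1 * (y.1 - p.1), sg i.2.1 * (y.2 - p.2))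
  else (sg i.2.1 * (y.2 - p.2), sg i.1 * (y.1 - p.1))

private theorem Hi_inv_ch (p : ℝ × ℝ) (i : Bool × Bool × Bool) (x : ℝ × ℝ) :
    Hi_inv p i (ch p i x) = x := by
  obtain ⟨i1, i2, i3⟩ := i
  cases i1 <;> cases i2 <;> cases i3 <;> simp [Hi_inv, ch, sg]

private theorem Hi_ch_inv (p : ℝ × ℝ) (i : Bool × Bool × Bool) (y : ℝ × ℝ) :
    ch p i (Hi_inv p i y) = y := by
  obtain ⟨i1, i2, i3⟩ := i
  cases i1 <;> cases i2 <;> cases i3 <;> simp [Hi_inv, ch, sg]

private theorem Hi_inv_diff (p : ℝ × ℝ) (i : Bool × Bool × Bool) :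
    Differentiable ℝ (Hi_inv p i) := by
  obtain ⟨i1, i2, i3⟩ := i
  cases i3
  · have : Hi_inv p (i1, i2, false) =
        fun y : ℝ × ℝ => (sg i2 * (y.2 - p.2), sg i1 * (y.1 - p.1)) := by
      funext y
      simp [Hi_inv]
    rw [this]
    fun_prop
  · have : Hi_inv p (i1, i2, true) =
        fun y : ℝ × ℝ => (sg i1 * (y.1 - p.1), sg i2 * (y.2 - p.2)) := by
      funext y
      simp [Hi_inv]
    rw [this]
    fun_prop

private theorem Hi_diff (p : ℝ × ℝ) (i : Bool × Bool × Bool) {q : ℝ × ℝ → ℝ} {x : ℝ × ℝ}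
    (h : DifferentiableAt ℝ (fun y => q (ch p i y)) x) : DifferentiableAt ℝ q (ch p i x) := by
  have e : q = (fun y => q (ch p i y)) ∘ Hi_inv p i := by
    funext y
    simp only [Function.comp_apply, Hi_ch_inv]
  rw [e]
  refine DifferentiableAt.comp (ch p i x) ?_ (Hi_inv_diff p i _)
  rw [Hi_inv_ch]
  exact h

private theorem Hi_oct_open (a b : ℝ) : IsOpen (Oct a b) := by
  unfold Oct
  refine (isOpen_lt continuous_const continuous_fst).inter
    ((isOpen_lt continuous_fst continuous_const).inter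
      ((isOpen_lt continuous_const continuous_snd).inter (isOpen_lt continuous_snd continuous_fst)))

theorem hardy_Z {r R : ℝ} (hr : 0 < r) (hR : 0 < R) (hrR : r + R < 1 / 4) {q : ℝ × ℝ → ℝ}
    (hq : Lpo q (D \ P)) (h0 : ∀ x ∈ Metric.closedBall ((1 / 4, 1 / 4) : ℝ × ℝ) r, q x = 0)
    (hi : IntegrableOn (fun x => sp q (1, 0) x ^ 2 + sp q (0, 1) x ^ 2) U) {a : ℝ} (ha : 0 < a) (haR : a < R) :
    IntegrableOn (fun x => q x ^ 2 / (dist x (1 / 4, 1 / 4) - r) ^ 2)
      {x : ℝ × ℝ | r + a < dist x (1 / 4, 1 / 4) ∧ dist x (1 / 4, 1 / 4) < r + R} ∧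
    ∫ x in {x : ℝ × ℝ | r + a < dist x (1 / 4, 1 / 4) ∧ dist x (1 / 4, 1 / 4) < r + R},
        q x ^ 2 / (dist x (1 / 4, 1 / 4) - r) ^ 2 ≤
      16 / r * ∫ x in U, (sp q (1, 0) x ^ 2 + sp q (0, 1) x ^ 2) := by
  obtain ⟨c0, hc0⟩ : ∃ c0 : ℝ × ℝ, c0 = (1 / 4, 1 / 4) := ⟨_, rfl⟩
  obtain ⟨b, hb⟩ : ∃ b : ℝ, b = r + R := ⟨_, rfl⟩
  rw [← hc0] at h0 ⊢
  rw [← hb] at hrR ⊢
  have hrb : r < b := by linarith
  have hb0 : 0 < b := by linarith
  have hrab : r + a < b := by linarith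
  obtain ⟨A, hA⟩ : ∃ A : Set (ℝ × ℝ), A = {x : ℝ × ℝ | r + a < dist x c0 ∧ dist x c0 < b} :=
    ⟨_, rfl⟩
  rw [← hA]
  -- the ball
  have hball : ∀ x : ℝ × ℝ, dist x c0 ≤ b → (0 < x.1 ∧ x.1 < 1 / 2) ∧ (0 < x.2 ∧ x.2 < 1 / 2) := by
    intro x hx
    rw [Prod.dist_eq, max_le_iff, Real.dist_eq, Real.dist_eq, hc0] at hx
    obtain ⟨h1, h2⟩ := hx
    rw [abs_le] at h1 h2
    simp only at h1 h2
    refine ⟨⟨by linarith, by linarith⟩, ⟨by linarith, by linarith⟩⟩
  have hBD : Metric.closedBall c0 b ⊆ D \ P := by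
    intro x hx
    obtain ⟨⟨h1, h2⟩, h3, h4⟩ := hball x hx
    refine ⟨⟨⟨h1.le, by linarith⟩, ⟨h3.le, h4.le⟩⟩, ?_⟩
    rintro ⟨h5, -⟩
    simp only [mem_insert_iff, mem_singleton_iff] at h5
    rcases h5 with h5 | h5 | h5 <;> linarith
  have hBL : Lpo q (Metric.closedBall c0 b) := fun C hC hCc => hq C (hC.trans hBD) hCc
  have hBU : ∀ x : ℝ × ℝ, dist x c0 ≤ b → x ∈ U := by
    intro x hx
    obtain ⟨⟨h1, h2⟩, h3, h4⟩ := hball x hx
    exact ⟨⟨h1, by linarith⟩, ⟨h3, h4⟩⟩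
  have hAo : IsOpen A := by
    rw [hA]
    exact (isOpen_lt continuous_const (continuous_id.dist continuous_const)).inter
      (isOpen_lt (continuous_id.dist continuous_const) continuous_const)
  have hAB : A ⊆ Metric.closedBall c0 b := by
    intro x hx
    rw [hA] at hx
    exact hx.2.le
  -- integrability
  have hg : IntegrableOn (fun x => q x ^ 2 / (dist x c0 - r) ^ 2) A := by
    have h1 := (int_sq hAo (isCompact_closedBall c0 b) hAB hBL (1, 0)).1
    have h2 : Integrable (fun x => (1 / (dist x c0 - r) ^ 2) * q x ^ 2) (volume.restrict A) := by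
      refine Integrable.bdd_mul (c := 1 / a ^ 2) h1 ?_ ?_
      · refine Measurable.aestronglyMeasurable ?_
        fun_prop
      · rw [ae_restrict_iff' hAo.measurableSet]
        refine Filter.Eventually.of_forall fun x hx => ?_
        rw [hA] at hx
        have h3 : a < dist x c0 - r := by linarith [hx.1]
        rw [Real.norm_of_nonneg (by positivity)]
        exact one_div_le_one_div_of_le (by positivity) (by gcongr)
    refine h2.congr (Filter.Eventually.of_forall fun x => ?_)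
    simp only
    ring
  refine ⟨hg, ?_⟩
  -- the charts
  obtain ⟨Z, hZ, hcov⟩ := ch_cover c0 (r + a) b
  have hSA : ∀ i, ch c0 i '' Oct (r + a) b ⊆ A := by
    rintro i _ ⟨x, hx, rfl⟩
    rw [hA]
    have := ch_dist c0 i x hx.2.2.1 hx.2.2.2
    exact ⟨by rw [this]; exact hx.1, by rw [this]; exact hx.2.1⟩
  have hSm : ∀ i, MeasurableSet (ch c0 i '' Oct (r + a) b) := fun i =>
    (ch_open c0 i (Hi_oct_open _ _)).measurableSet
  have hsum : ∫ x in A, q x ^ 2 / (dist x c0 - r) ^ 2 ≤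
      ∑ i : Bool × Bool × Bool, ∫ x in ch c0 i '' Oct (r + a) b, q x ^ 2 / (dist x c0 - r) ^ 2 := by
    have h1 : ∀ i : Bool × Bool × Bool, ∫ x in ch c0 i '' Oct (r + a) b,
        q x ^ 2 / (dist x c0 - r) ^ 2 = ∫ x in A, (ch c0 i '' Oct (r + a) b).indicator
          (fun x => q x ^ 2 / (dist x c0 - r) ^ 2) x := by
      intro i
      rw [setIntegral_indicator (hSm i), inter_eq_self_of_subset_right (hSA i)]
    simp only [h1]
    rw [← integral_finsetSum]
    · refine integral_mono_ae hg (integrable_finsetSum _ fun i _ => hg.indicator (hSm i)) ?_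
      have h2 : ∀ᵐ x ∂(volume : Measure (ℝ × ℝ)), x ∉ Z := by
        rw [ae_iff]
        simpa using hZ
      filter_upwards [ae_restrict_mem hAo.measurableSet, ae_restrict_of_ae h2] with x hx hxZ
      rw [hA] at hx
      obtain ⟨i, hi'⟩ := hcov x hxZ hx.1 hx.2
      refine le_trans ?_ (Finset.single_le_sum (f := fun i : Bool × Bool × Bool =>
        (ch c0 i '' Oct (r + a) b).indicator (fun x => q x ^ 2 / (dist x c0 - r) ^ 2) x)
        (fun j _ => indicator_nonneg (fun y _ => by positivity) x) (Finset.mem_univ i))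
      rw [indicator_of_mem hi']
    · exact fun i _ => hg.indicator (hSm i)
  obtain ⟨I, hI⟩ : ∃ I : ℝ, I = ∫ x in U, (sp q (1, 0) x ^ 2 + sp q (0, 1) x ^ 2) := ⟨_, rfl⟩
  have hI0 : 0 ≤ I := by
    rw [hI]
    exact setIntegral_nonneg_of_ae (Filter.Eventually.of_forall fun x => by positivity)
  have hone : ∀ i : Bool × Bool × Bool, ∫ x in ch c0 i '' Oct (r + a) b,
      q x ^ 2 / (dist x c0 - r) ^ 2 ≤ 2 / r * I := by
    intro i
    rw [ch_int]
    have h1 : ∫ x in Oct (r + a) b, q (ch c0 i x) ^ 2 / (dist (ch c0 i x) c0 - r) ^ 2 =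
        ∫ x in Oct (r + a) b, (fun y => q (ch c0 i y)) x ^ 2 / (x.1 - r) ^ 2 := by
      refine setIntegral_congr_fun (Hi_oct_open _ _).measurableSet fun x hx => ?_
      simp only
      rw [ch_dist c0 i x hx.2.2.1 hx.2.2.2]
    rw [h1]
    have hL : Lpo (fun y => q (ch c0 i y))
        {x : ℝ × ℝ | r ≤ x.1 ∧ x.1 ≤ b ∧ 0 ≤ x.2 ∧ x.2 ≤ x.1} := by
      refine ch_lpo c0 i hBL fun x hx => ?_
      rw [Metric.mem_closedBall, Hi_dist c0 i x hx.2.2.1 hx.2.2.2]
      exact hx.2.1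
    refine (hardy_oct0 hr ha hrab.le hL fun y hy hy2 => ?_).trans ?_
    · refine h0 _ ?_
      rw [Metric.mem_closedBall, Hi_dist c0 i (r, y) hy hy2]
    have hL' : Lpo (fun y => q (ch c0 i y)) (Oct r b) := by
      intro C hC hCc
      exact hL C (fun x hx => ⟨(hC hx).1.le, (hC hx).2.1.le, (hC hx).2.2.1.le, (hC hx).2.2.2.le⟩) hCc
    have h2 : ∫ x in Oct r b, (sp (fun y => q (ch c0 i y)) (1, 0) x ^ 2 +
        sp (fun y => q (ch c0 i y)) (0, 1) x ^ 2) =
        ∫ x in ch c0 i '' Oct r b, (sp q (1, 0) x ^ 2 + sp q (0, 1) x ^ 2) := by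
      rw [ch_int]
      refine integral_congr_ae ?_
      filter_upwards [diff_ae (Hi_oct_open r b) hL'] with x hx
      exact ch_sp c0 i (Hi_diff c0 i hx)
    have h3 : ∫ x in ch c0 i '' Oct r b, (sp q (1, 0) x ^ 2 + sp q (0, 1) x ^ 2) ≤ I := by
      rw [hI]
      refine setIntegral_mono_set hi (Filter.Eventually.of_forall fun x => by positivity) ?_
      refine Filter.Eventually.of_forall ?_
      rintro _ ⟨x, hx, rfl⟩
      refine hBU _ ?_
      rw [ch_dist c0 i x hx.2.2.1 hx.2.2.2]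
      exact hx.2.1.le
    rw [h2]
    have h4 : 8 * b / r ≤ 2 / r := by
      gcongr
      linarith
    calc 8 * b / r * ∫ x in ch c0 i '' Oct r b, (sp q (1, 0) x ^ 2 + sp q (0, 1) x ^ 2)
        ≤ 8 * b / r * I := mul_le_mul_of_nonneg_left h3 (by positivity)
      _ ≤ 2 / r * I := mul_le_mul_of_nonneg_right h4 hI0
  rw [← hI]
  calc ∫ x in A, q x ^ 2 / (dist x c0 - r) ^ 2
      ≤ ∑ i : Bool × Bool × Bool, ∫ x in ch c0 i '' Oct (r + a) b,
          q x ^ 2 / (dist x c0 - r) ^ 2 := hsum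
    _ ≤ ∑ i : Bool × Bool × Bool, 2 / r * I := Finset.sum_le_sum fun i _ => hone i
    _ = 16 / r * I := by
      rw [Finset.sum_const, Finset.card_univ]
      simp only [Fintype.card_prod, Fintype.card_bool, nsmul_eq_mul]
      push_cast
      ring

end H46SB
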