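import Pool.Agent.H46.SB.Hh

/-!
ROW Hk (MP_b319aa_NA, X9: speeds of the cutoff functions; choice of the parameters).
PROOF. `sp_comp`: `|g(s) - g(s0)| ≤ (|g'| + ε) |s - s0|` near `s0 = dist x p`, `|dist (x + h t) p - dist x p| ≤ h ‖t‖`, so for large `n` the sequence defining `sp` is in
`[0, (|g'| + ε) ‖t‖]`; the limsup is between `0` and `(|g'| + ε) ‖t‖` (`Filter.limsup_le_of_le`, `le_limsup_of_frequently_le`, with the boundedness), `ε → 0`.
`lam_small`: for fixed `r`, `log (LL a / LL r) → ∞` as `a → 0+` (`2 r / a → ∞`); take `a` with `log (LL a / LL r) ≥ max 1 (1/√e)`. `mu_small` similarly.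
-/

set_option autoImplicit false

namespace H46SB

open H50NA MeasureTheory Set Filter Topology
open scoped NNReal

theorem sp_comp {g : ℝ → ℝ} {g' : ℝ} {p x : ℝ × ℝ} (hg : HasDerivAt g g' (dist x p)) (t : ℝ × ℝ) :
    0 ≤ sp (fun y => g (dist y p)) t x ∧ sp (fun y => g (dist y p)) t x ≤ |g'| * ‖t‖ := by
  have hpos : ∀ n : ℕ, (0:ℝ) < (n:ℝ) + 1 := fun n => by positivity
  have hdist : ∀ n : ℕ, |dist (x + (1 / ((n : ℝ) + 1)) • t) p - dist x p| ≤ 1 / ((n:ℝ) + 1) * ‖t‖ := by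
    intro n
    have h1 := abs_dist_sub_le (x + (1 / ((n : ℝ) + 1)) • t) x p
    have h2 : dist (x + (1 / ((n : ℝ) + 1)) • t) x = 1 / ((n:ℝ) + 1) * ‖t‖ := by
      rw [dist_eq_norm, add_sub_cancel_left, norm_smul, Real.norm_of_nonneg (by have := hpos n; positivity)]
    rw [h2] at h1
    exact h1
  have htend : Tendsto (fun n : ℕ => dist (x + (1 / ((n : ℝ) + 1)) • t) p) atTop (𝓝 (dist x p)) := by
    have h0 : Tendsto (fun n : ℕ => 1 / ((n:ℝ) + 1) * ‖t‖) atTop (𝓝 0) := by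
      have := (tendsto_one_div_add_atTop_nhds_zero_nat (𝕜 := ℝ)).mul_const ‖t‖
      simpa using this
    rw [tendsto_iff_dist_tendsto_zero]
    refine squeeze_zero (fun n => dist_nonneg) (fun n => ?_) h0
    rw [Real.dist_eq]
    exact hdist n
  have hnonneg : ∀ n : ℕ, 0 ≤ ((n : ℝ) + 1) * dist (g (dist (x + (1 / ((n : ℝ) + 1)) • t) p)) (g (dist x p)) :=
    fun n => mul_nonneg (hpos n).le dist_nonneg
  have hbound : ∀ e : ℝ, 0 < e → ∀ᶠ n : ℕ in atTop,
      ((n : ℝ) + 1) * dist (g (dist (x + (1 / ((n : ℝ) + 1)) • t) p)) (g (dist x p)) ≤ (|g'| + e) * ‖t‖ := by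
    intro e he
    have h1 := (hasDerivAt_iff_isLittleO.1 hg).def he
    have h2 := htend.eventually h1
    filter_upwards [h2] with n hn
    rw [Real.dist_eq]
    have h3 := hdist n
    set s := dist (x + (1 / ((n : ℝ) + 1)) • t) p with hs
    set s0 := dist x p with hs0
    have h4 : |g s - g s0| ≤ (|g'| + e) * |s - s0| := by
      have h5 : g s - g s0 = (g s - g s0 - (s - s0) • g') + (s - s0) * g' := by
        simp [smul_eq_mul]
      rw [h5]
      refine (abs_add_le _ _).trans ?_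
      rw [abs_mul]
      rw [Real.norm_eq_abs, Real.norm_eq_abs] at hn
      nlinarith
    have h6 : (|g'| + e) * |s - s0| ≤ (|g'| + e) * (1 / ((n:ℝ) + 1) * ‖t‖) :=
      mul_le_mul_of_nonneg_left h3 (by positivity)
    have h7 := mul_le_mul_of_nonneg_left (h4.trans h6) (hpos n).le
    refine h7.trans (le_of_eq ?_)
    have := (hpos n).ne'
    field_simp
  have hbdd : IsBoundedUnder (· ≤ ·) atTop (fun n : ℕ => ((n : ℝ) + 1) *
      dist (g (dist (x + (1 / ((n : ℝ) + 1)) • t) p)) (g (dist x p))) :=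
    ⟨(|g'| + 1) * ‖t‖, by simpa [Filter.eventually_map] using hbound 1 one_pos⟩
  have hcob : IsCoboundedUnder (· ≤ ·) atTop (fun n : ℕ => ((n : ℝ) + 1) *
      dist (g (dist (x + (1 / ((n : ℝ) + 1)) • t) p)) (g (dist x p))) :=
    isCoboundedUnder_le_of_le atTop (x := 0) hnonneg
  constructor
  · exact le_limsup_of_frequently_le (Eventually.frequently (Eventually.of_forall hnonneg)) hbdd
  · refine le_of_forall_pos_le_add fun e he => ?_
    have h1 : sp (fun y => g (dist y p)) t x ≤ (|g'| + e / (‖t‖ + 1)) * ‖t‖ :=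
      limsup_le_of_le hcob (hbound (e / (‖t‖ + 1)) (by positivity))
    refine h1.trans ?_
    have h2 : e / (‖t‖ + 1) * ‖t‖ ≤ e := by
      rw [div_mul_eq_mul_div, div_le_iff₀ (by positivity)]
      nlinarith [norm_nonneg t]
    nlinarith

/-- choice of a parameter -/
theorem par_aux {f : ℝ → ℝ} {r e : ℝ} (hr : 0 < r) (he : 0 < e)
    (hf : Tendsto f (𝓝[>] 0) atTop) :
    ∃ a : ℝ, 0 < a ∧ a < r ∧ (1 / f a) ^ 2 ≤ e ∧ 0 < f a := by
  have h1 : ∀ᶠ a in 𝓝[>] (0:ℝ), max 1 (1 / Real.sqrt e) ≤ f a := hf.eventually_ge_atTop _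
  have h2 : ∀ᶠ a in 𝓝[>] (0:ℝ), a < r := by
    have : Set.Iio r ∈ 𝓝 (0:ℝ) := Iio_mem_nhds hr
    exact mem_nhdsWithin_of_mem_nhds this
  have h3 : ∀ᶠ a in 𝓝[>] (0:ℝ), 0 < a := self_mem_nhdsWithin
  obtain ⟨a, h4, h5, h6⟩ := (h1.and (h2.and h3)).exists
  have h7 : 1 ≤ f a := (le_max_left _ _).trans h4
  have h8 : 1 / Real.sqrt e ≤ f a := (le_max_right _ _).trans h4
  have hs : 0 < Real.sqrt e := Real.sqrt_pos.2 he
  have hfa : 0 < f a := by linarith
  refine ⟨a, h6, h5, ?_, hfa⟩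
  have h9 : 1 / f a ≤ Real.sqrt e := by
    rw [div_le_iff₀ hs] at h8
    rw [div_le_iff₀ hfa]
    linarith
  calc (1 / f a) ^ 2 ≤ (Real.sqrt e) ^ 2 := by
        have : 0 ≤ 1 / f a := by positivity
        gcongr
    _ = e := Real.sq_sqrt he.le

theorem tendsto_div_aux {c : ℝ} (hc : 0 < c) : Tendsto (fun a : ℝ => c / a) (𝓝[>] 0) atTop := by
  simp only [div_eq_mul_inv]
  exact (tendsto_inv_nhdsGT_zero).const_mul_atTop hc

theorem lam_small {r e : ℝ} (hr : 0 < r) (he : 0 < e) :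
    ∃ a : ℝ, 0 < a ∧ a < r ∧ (1 / Real.log (LL r a / LL r r)) ^ 2 ≤ e ∧ 0 < Real.log (LL r a / LL r r) := by
  refine par_aux (f := fun a => Real.log (LL r a / LL r r)) hr he ?_
  have h0 : 0 < LL r r := by
    unfold LL
    have : 2 * r / r = 2 := by field_simp
    rw [this]
    have := Real.log_pos (show (1:ℝ) < 2 by norm_num)
    linarith
  refine Real.tendsto_log_atTop.comp ?_
  refine Tendsto.atTop_div_const h0 ?_
  unfold LL
  exact tendsto_atTop_add_const_left _ _ (Real.tendsto_log_atTop.comp (tendsto_div_aux (by linarith)))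

theorem mu_small {R e : ℝ} (hR : 0 < R) (he : 0 < e) :
    ∃ a : ℝ, 0 < a ∧ a < R ∧ (1 / Real.log (R / a)) ^ 2 ≤ e ∧ 0 < Real.log (R / a) :=
  par_aux (f := fun a => Real.log (R / a)) hR he
    (Real.tendsto_log_atTop.comp (tendsto_div_aux hR))

end H46SB
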