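import Pool.Agent.H46.SB.Hz

/-!
MP_b319aa_NA, X9: cutoff functions at finite symmetric sets of points (assembly, helper46; no row).
-/

set_option autoImplicit false

namespace H46SB

open H50NA H80HM MeasureTheory Set Filter Topology
open scoped NNReal

/-- cutoff at one point: the integral -/
theorem cut_one {p : ℝ × ℝ} (hp : p ∈ D) : ∃ r0 > 0, ∀ r : ℝ, 0 < r → r ≤ r0 → ∀ a : ℝ, 0 < a → a < r →
    0 < Real.log (LL r a / LL r r) → ∀ q : ℝ × ℝ → ℝ, Lpo q (D \ P) →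
    IntegrableOn (fun x => q x ^ 2) U → IntegrableOn (gr q) U →
      IntegrableOn (fun x => gr (fun y => lam a r (dist y p)) x * q x ^ 2) U ∧
      ∫ x in U, gr (fun y => lam a r (dist y p)) x * q x ^ 2 ≤
        (1 / Real.log (LL r a / LL r r)) ^ 2 * (16 * (2 / r ^ 2 + 8)) * ∫ x in U, (q x ^ 2 + gr q x) := by
  obtain ⟨r0, hr0, H⟩ := hardy_pt hp
  refine ⟨r0, hr0, fun r hr hrr a ha har hlog q hq hq2 hi => ?_⟩
  obtain ⟨⟨K, hK⟩, h01, hl0, hl1, hder⟩ := lam_props ha har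
  obtain ⟨h5, h6⟩ := H r hr hrr q hq hq2 hi a ha har
  set c := 1 / Real.log (LL r a / LL r r) with hcdef
  have h8 := cut_int (g := lam a r) (g' := fun s => c / (s * LL r s)) (a := a) (b := r) (p := p) (K := K) ha har hK
    (const_left (v := 0) hl0) (const_right (v := 1) hl1) (fun s hs1 hs2 => hder s hs1 hs2) U_meas (lpo_meas hq)
    (w := fun x => q x ^ 2 / (dist x p ^ 2 * (1 + Real.log (2 * r / dist x p)) ^ 2)) (c := 2 * c ^ 2)
    (fun x hx1 hx2 => by
      apply le_of_eq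
      show 2 * (c / (dist x p * (1 + Real.log (2 * r / dist x p)))) ^ 2 * q x ^ 2 = _
      rw [div_pow, mul_pow]
      ring) h5
  refine ⟨h8.1, h8.2.trans ?_⟩
  have hI1 : 0 ≤ ∫ x in U, gr q x := integral_nonneg fun x => gr_nonneg q x
  have hI2 : 0 ≤ ∫ x in U, q x ^ 2 := integral_nonneg fun x => sq_nonneg _
  have hsum : ∫ x in U, (q x ^ 2 + gr q x) = (∫ x in U, q x ^ 2) + ∫ x in U, gr q x := integral_add hq2 hi
  rw [hsum]
  have h9 : ∫ x in U ∩ {x | a < dist x p ∧ dist x p < r},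
        q x ^ 2 / (dist x p ^ 2 * (1 + Real.log (2 * r / dist x p)) ^ 2) ≤
      8 * (2 / r ^ 2 * (∫ x in U, q x ^ 2) + 8 * ∫ x in U, gr q x) := h6
  have h10 : 8 * (2 / r ^ 2 * (∫ x in U, q x ^ 2) + 8 * ∫ x in U, gr q x) ≤
      8 * (2 / r ^ 2 + 8) * ((∫ x in U, q x ^ 2) + ∫ x in U, gr q x) := by
    have h11 : 0 ≤ 2 / r ^ 2 * ∫ x in U, gr q x := by positivity
    nlinarith
  calc 2 * c ^ 2 * _ ≤ 2 * c ^ 2 * (8 * (2 / r ^ 2 + 8) * ((∫ x in U, q x ^ 2) + ∫ x in U, gr q x)) := by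
        gcongr
        exact h9.trans h10
    _ = _ := by ring

lemma gr_eq {l : ℝ × ℝ → ℝ} {x : ℝ × ℝ} (h : DifferentiableAt ℝ l x) :
    gr l x = fderiv ℝ l x (1, 0) ^ 2 + fderiv ℝ l x (0, 1) ^ 2 := by
  unfold gr
  rw [sp_diff h, sp_diff h, sq_abs, sq_abs]

/-- the gradient of a product of functions with values in `[0,1]` -/
lemma gr_prod {S : Finset (ℝ × ℝ)} {f : ℝ × ℝ → ℝ × ℝ → ℝ} {x : ℝ × ℝ} (h01 : ∀ p ∈ S, 0 ≤ f p x ∧ f p x ≤ 1)
    (hd : ∀ p ∈ S, DifferentiableAt ℝ (f p) x) :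
    gr (fun y => ∏ p ∈ S, f p y) x ≤ (S.card : ℝ) * ∑ p ∈ S, gr (f p) x := by
  classical
  have hD : HasFDerivAt (fun y => ∏ p ∈ S, f p y)
      (∑ i ∈ S, (∏ j ∈ S.erase i, f j x) • fderiv ℝ (f i) x) x :=
    HasFDerivAt.finsetProd fun i hi => (hd i hi).hasFDerivAt
  have h1 : ∀ t : ℝ × ℝ, fderiv ℝ (fun y => ∏ p ∈ S, f p y) x t ^ 2 ≤
      (S.card : ℝ) * ∑ p ∈ S, fderiv ℝ (f p) x t ^ 2 := by
    intro t
    rw [hD.fderiv]
    have h2 : (∑ i ∈ S, (∏ j ∈ S.erase i, f j x) • fderiv ℝ (f i) x) t =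
        ∑ i ∈ S, (∏ j ∈ S.erase i, f j x) * fderiv ℝ (f i) x t := by
      simp
    rw [h2]
    refine (sq_sum_le_card_mul_sum_sq (s := S)
      (f := fun i => (∏ j ∈ S.erase i, f j x) * fderiv ℝ (f i) x t)).trans ?_
    refine mul_le_mul_of_nonneg_left (Finset.sum_le_sum fun i hi => ?_) (Nat.cast_nonneg _)
    rw [mul_pow]
    have h3 : 0 ≤ ∏ j ∈ S.erase i, f j x := Finset.prod_nonneg fun j hj => (h01 j (Finset.mem_of_mem_erase hj)).1
    have h4 : ∏ j ∈ S.erase i, f j x ≤ 1 :=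
      Finset.prod_le_one (fun j hj => (h01 j (Finset.mem_of_mem_erase hj)).1)
        fun j hj => (h01 j (Finset.mem_of_mem_erase hj)).2
    have h5 : (∏ j ∈ S.erase i, f j x) ^ 2 ≤ 1 := pow_le_one₀ h3 h4
    calc _ ≤ 1 * fderiv ℝ (f i) x t ^ 2 := by gcongr
      _ = _ := one_mul _
  rw [gr_eq hD.differentiableAt]
  have h2 : ∑ p ∈ S, gr (f p) x = ∑ p ∈ S, fderiv ℝ (f p) x (1, 0) ^ 2 + ∑ p ∈ S, fderiv ℝ (f p) x (0, 1) ^ 2 := by
    rw [← Finset.sum_add_distrib]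
    exact Finset.sum_congr rfl fun p hp => gr_eq (hd p hp)
  rw [h2, mul_add]
  exact add_le_add (h1 _) (h1 _)

lemma lip_prod {S : Finset (ℝ × ℝ)} {f : ℝ × ℝ → ℝ × ℝ → ℝ} {K : ℝ≥0} (h01 : ∀ p ∈ S, ∀ x, 0 ≤ f p x ∧ f p x ≤ 1)
    (hl : ∀ p ∈ S, LipschitzWith K (f p)) : ∃ K' : ℝ≥0, LipschitzWith K' (fun y => ∏ p ∈ S, f p y) := by
  classical
  have key : ∀ T ⊆ S, ∃ K' : ℝ≥0, LipschitzWith K' (fun y => ∏ p ∈ T, f p y) := by
    intro T
    induction T using Finset.induction_on with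
    | empty =>
      intro _
      exact ⟨0, by simpa using LipschitzWith.const (1 : ℝ)⟩
    | insert p T hp ih =>
      intro hT
      obtain ⟨K', hK'⟩ := ih (fun x hx => hT (Finset.mem_insert_of_mem hx))
      have hpS := hT (Finset.mem_insert_self p T)
      refine ⟨K + K', LipschitzWith.of_dist_le_mul fun x y => ?_⟩
      rw [Finset.prod_insert hp, Finset.prod_insert hp, Real.dist_eq]
      have h1 := (hl p hpS).dist_le_mul x y
      have h2 := hK'.dist_le_mul x y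
      rw [Real.dist_eq] at h1 h2
      have e1 : 0 ≤ ∏ p ∈ T, f p x := Finset.prod_nonneg fun j hj => (h01 j (hT (Finset.mem_insert_of_mem hj)) x).1
      have e2 : ∏ p ∈ T, f p x ≤ 1 :=
        Finset.prod_le_one (fun j hj => (h01 j (hT (Finset.mem_insert_of_mem hj)) x).1)
          fun j hj => (h01 j (hT (Finset.mem_insert_of_mem hj)) x).2
      have e3 := h01 p hpS y
      have h3 : f p x * ∏ p ∈ T, f p x - f p y * ∏ p ∈ T, f p y =
          (f p x - f p y) * ∏ p ∈ T, f p x + f p y * (∏ p ∈ T, f p x - ∏ p ∈ T, f p y) := by ring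
      rw [h3]
      refine (abs_add_le _ _).trans ?_
      rw [abs_mul, abs_mul, abs_of_nonneg e1, abs_of_nonneg e3.1]
      push_cast
      rw [add_mul]
      refine add_le_add ?_ ?_
      · calc _ ≤ |f p x - f p y| * 1 := by gcongr
          _ ≤ _ := by rw [mul_one]; exact h1
      · calc _ ≤ 1 * |∏ p ∈ T, f p x - ∏ p ∈ T, f p y| := by
              gcongr
              exact e3.2
          _ ≤ _ := by rw [one_mul]; exact h2
  exact key S (Finset.Subset.refl S)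

/-- choice of a common bound -/
lemma common {ι : Type*} (S : Finset ι) (Q : ι → ℝ → Prop) (h : ∀ p ∈ S, ∃ r0 > 0, ∀ r : ℝ, 0 < r → r ≤ r0 → Q p r) :
    ∃ r0 > 0, ∀ r : ℝ, 0 < r → r ≤ r0 → ∀ p ∈ S, Q p r := by
  classical
  induction S using Finset.induction_on with
  | empty => exact ⟨1, one_pos, by simp⟩
  | insert p S hp ih =>
    obtain ⟨r1, hr1, h1⟩ := ih fun x hx => h x (Finset.mem_insert_of_mem hx)
    obtain ⟨r2, hr2, h2⟩ := h p (Finset.mem_insert_self p S)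
    refine ⟨min r1 r2, lt_min hr1 hr2, fun r hr hrr x hx => ?_⟩
    rw [Finset.mem_insert] at hx
    rcases hx with rfl | hx
    · exact h2 r hr (hrr.trans (min_le_right _ _))
    · exact h1 r hr (hrr.trans (min_le_left _ _)) x hx

/-- cutoffs at a finite symmetric set of points -/
theorem cut_fin (S : Finset (ℝ × ℝ)) (hS : ∀ p ∈ S, p ∈ D) (hC : ∀ v : ℝ, (0, v) ∈ S ↔ (1, v) ∈ S)
    (hA : ∀ u : ℝ, (u, 0) ∈ S ↔ (1 - u, 0) ∈ S) (hB : ∀ u : ℝ, (u, 1 / 2) ∈ S ↔ (1 - u, 1 / 2) ∈ S)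
    {R e : ℝ} (hR : 0 < R) (he : 0 < e) :
    ∃ l : ℝ × ℝ → ℝ, (∃ K : ℝ≥0, LipschitzWith K l) ∧ (∀ x, 0 ≤ l x ∧ l x ≤ 1) ∧
      (∃ d > 0, ∀ p ∈ S, ∀ x, dist x p ≤ d → l x = 0) ∧ (∀ x, (∀ p ∈ S, R ≤ dist x p) → l x = 1) ∧
      (∀ v : ℝ, l (1, v) = l (0, v)) ∧ (∀ u : ℝ, l (1 - u, 0) = l (u, 0)) ∧
      (∀ u : ℝ, l (1 - u, 1 / 2) = l (u, 1 / 2)) ∧
      ∀ q : ℝ × ℝ → ℝ, Lpo q (D \ P) → IntegrableOn (fun x => q x ^ 2) U → IntegrableOn (gr q) U →
          IntegrableOn (fun x => gr l x * q x ^ 2) U ∧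
            ∫ x in U, gr l x * q x ^ 2 ≤ e * ∫ x in U, (q x ^ 2 + gr q x) := by
  classical
  -- choice of r
  obtain ⟨r1, hr1, H1⟩ := common S (fun p r => ∀ a : ℝ, 0 < a → a < r →
    0 < Real.log (LL r a / LL r r) → ∀ q : ℝ × ℝ → ℝ, Lpo q (D \ P) →
    IntegrableOn (fun x => q x ^ 2) U → IntegrableOn (gr q) U →
      IntegrableOn (fun x => gr (fun y => lam a r (dist y p)) x * q x ^ 2) U ∧
      ∫ x in U, gr (fun y => lam a r (dist y p)) x * q x ^ 2 ≤
        (1 / Real.log (LL r a / LL r r)) ^ 2 * (16 * (2 / r ^ 2 + 8)) * ∫ x in U, (q x ^ 2 + gr q x))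
    (fun p hp => cut_one (hS p hp))
  obtain ⟨r2, hr2, H2⟩ := common S (fun p r => (p.1 ≠ 0 → r ≤ p.1) ∧ (p.1 ≠ 1 → r ≤ 1 - p.1) ∧ (p.2 ≠ 0 → r ≤ p.2) ∧
      (p.2 ≠ 1 / 2 → r ≤ 1 / 2 - p.2)) (by
    intro p hp
    have hpD := hS p hp
    have hx : 0 ≤ p.1 ∧ p.1 ≤ 1 := hpD.1
    have hy : 0 ≤ p.2 ∧ p.2 ≤ 1 / 2 := hpD.2
    have key : ∀ t : ℝ, 0 ≤ t → ∃ s > 0, ∀ r : ℝ, r ≤ s → (t ≠ 0 → r ≤ t) := by
      intro t ht
      by_cases h0 : t = 0
      · exact ⟨1, one_pos, fun r _ h => absurd h0 h⟩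
      · exact ⟨t, lt_of_le_of_ne ht (Ne.symm h0), fun r hr _ => hr⟩
    obtain ⟨s1, hs1, k1⟩ := key p.1 hx.1
    obtain ⟨s2, hs2, k2⟩ := key (1 - p.1) (by linarith)
    obtain ⟨s3, hs3, k3⟩ := key p.2 hy.1
    obtain ⟨s4, hs4, k4⟩ := key (1 / 2 - p.2) (by linarith)
    refine ⟨min (min s1 s2) (min s3 s4), by positivity, fun r _ hr => ⟨fun h => k1 r ?_ h, fun h => k2 r ?_ ?_,
      fun h => k3 r ?_ h, fun h => k4 r ?_ ?_⟩⟩
    · exact hr.trans ((min_le_left _ _).trans (min_le_left _ _))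
    · exact hr.trans ((min_le_left _ _).trans (min_le_right _ _))
    · intro h0; apply h; linarith
    · exact hr.trans ((min_le_right _ _).trans (min_le_left _ _))
    · exact hr.trans ((min_le_right _ _).trans (min_le_right _ _))
    · intro h0; apply h; linarith)
  obtain ⟨r, hr, hrr1, hrr2, hrR⟩ : ∃ r : ℝ, 0 < r ∧ r ≤ r1 ∧ r ≤ r2 ∧ r ≤ R :=
    ⟨min (min r1 r2) R, by positivity, (min_le_left _ _).trans (min_le_left _ _),
      (min_le_left _ _).trans (min_le_right _ _), min_le_right _ _⟩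
  have H3 := H1 r hr hrr1
  have H4 := H2 r hr hrr2
  obtain ⟨a, ha, har, hc, hlog⟩ := lam_small (r := r) (e := e / ((S.card : ℝ) ^ 2 * (16 * (2 / r ^ 2 + 8)) + 1)) hr
    (by positivity)
  obtain ⟨⟨K, hK⟩, h01, hl0, hl1, hder⟩ := lam_props ha har
  have hlipp : ∀ p : ℝ × ℝ, LipschitzWith K (fun y : ℝ × ℝ => lam a r (dist y p)) := by
    intro p
    have h2 := hK.comp (LipschitzWith.dist_left p)
    rw [mul_one] at h2
    exact h2
  obtain ⟨K', hK'⟩ := lip_prod (S := S) (f := fun p y => lam a r (dist y p)) (fun p _ x => h01 _)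
    (fun p _ => hlipp p)
  -- symmetry
  have hsym : ∀ (f : ℝ × ℝ → ℝ × ℝ) (A B : ℝ × ℝ → Prop) (x y : ℝ × ℝ),
      (∀ p ∈ S, ¬ A p → r ≤ dist x p) → (∀ p ∈ S, ¬ B p → r ≤ dist y p) →
      (∀ p ∈ S, A p → f p ∈ S ∧ B (f p) ∧ dist y (f p) = dist x p) →
      (∀ p ∈ S, B p → ∃ p' ∈ S, A p' ∧ f p' = p) →
      (∀ p p', A p → A p' → f p = f p' → p = p') →
      ∏ p ∈ S, lam a r (dist x p) = ∏ p ∈ S, lam a r (dist y p) := by
    intro f A B x y h1 h2 h3 h4 h5
    have e1 : ∏ p ∈ S, lam a r (dist x p) = ∏ p ∈ S.filter A, lam a r (dist x p) := by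
      refine (Finset.prod_subset (Finset.filter_subset _ _) fun p hp hp2 => ?_).symm
      have : ¬ A p := fun h => hp2 (Finset.mem_filter.2 ⟨hp, h⟩)
      exact hl1 _ (h1 p hp this)
    have e2 : ∏ p ∈ S, lam a r (dist y p) = ∏ p ∈ S.filter B, lam a r (dist y p) := by
      refine (Finset.prod_subset (Finset.filter_subset _ _) fun p hp hp2 => ?_).symm
      have : ¬ B p := fun h => hp2 (Finset.mem_filter.2 ⟨hp, h⟩)
      exact hl1 _ (h2 p hp this)
    rw [e1, e2]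
    refine Finset.prod_bij (fun p _ => f p) ?_ ?_ ?_ ?_
    · intro p hp
      rw [Finset.mem_filter] at hp ⊢
      exact ⟨(h3 p hp.1 hp.2).1, (h3 p hp.1 hp.2).2.1⟩
    · intro p hp p' hp' h
      rw [Finset.mem_filter] at hp hp'
      exact h5 p p' hp.2 hp'.2 h
    · intro p hp
      rw [Finset.mem_filter] at hp
      obtain ⟨p', hp', hA', hf⟩ := h4 p hp.1 hp.2
      exact ⟨p', Finset.mem_filter.2 ⟨hp', hA'⟩, hf⟩
    · intro p hp
      rw [Finset.mem_filter] at hp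
      rw [(h3 p hp.1 hp.2).2.2]
  have hdx : ∀ (x p : ℝ × ℝ), |x.1 - p.1| ≤ dist x p := by
    intro x p
    rw [Prod.dist_eq, Real.dist_eq]
    exact le_max_left _ _
  have hdy : ∀ (x p : ℝ × ℝ), |x.2 - p.2| ≤ dist x p := by
    intro x p
    rw [Prod.dist_eq, Real.dist_eq, Real.dist_eq]
    exact le_max_right _ _
  refine ⟨fun y => ∏ p ∈ S, lam a r (dist y p), ⟨K', hK'⟩, fun x => ⟨Finset.prod_nonneg fun p _ => (h01 _).1,
    Finset.prod_le_one (fun p _ => (h01 _).1) fun p _ => (h01 _).2⟩, ⟨a, ha, fun p hp x hx =>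
      Finset.prod_eq_zero hp (hl0 _ hx)⟩, fun x hx => Finset.prod_eq_one fun p hp => hl1 _ (hrR.trans (hx p hp)),
      ?_, ?_, ?_, ?_⟩
  · -- C
    intro v
    refine hsym (fun p => (0, p.2)) (fun p => p.1 = 1) (fun p => p.1 = 0) (1, v) (0, v) ?_ ?_ ?_ ?_ ?_
    · intro p hp h
      refine ((H4 p hp).2.1 h).trans ((le_abs_self _).trans (hdx (1, v) p))
    · intro p hp h
      have h1 := (H4 p hp).1 h
      refine h1.trans (le_trans ?_ (hdx (0, v) p))
      rw [abs_sub_comm]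
      simpa using le_abs_self p.1
    · intro p hp h
      have hp' : p = (1, p.2) := Prod.ext h rfl
      refine ⟨(hC p.2).2 (hp' ▸ hp), rfl, ?_⟩
      simp only [Prod.dist_eq, h, dist_self]
    · intro p hp h
      have hp' : p = (0, p.2) := Prod.ext h rfl
      exact ⟨(1, p.2), (hC p.2).1 (hp' ▸ hp), rfl, hp'.symm⟩
    · intro p p' h h' he
      have h1 : p.2 = p'.2 := (Prod.mk.inj he).2
      exact Prod.ext (h.trans h'.symm) h1
  · -- A
    intro u
    refine hsym (fun p => (1 - p.1, 0)) (fun p => p.2 = 0) (fun p => p.2 = 0) (1 - u, 0) (u, 0) ?_ ?_ ?_ ?_ ?_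
    · intro p hp h
      refine ((H4 p hp).2.2.1 h).trans (le_trans ?_ (hdy (1 - u, 0) p))
      rw [abs_sub_comm]
      simpa using le_abs_self p.2
    · intro p hp h
      refine ((H4 p hp).2.2.1 h).trans (le_trans ?_ (hdy (u, 0) p))
      rw [abs_sub_comm]
      simpa using le_abs_self p.2
    · intro p hp h
      have hp' : p = (p.1, 0) := Prod.ext rfl h
      refine ⟨(hA p.1).1 (hp' ▸ hp), rfl, ?_⟩
      simp only [Prod.dist_eq, h, dist_self, Real.dist_eq]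
      congr 1
      rw [← abs_neg]
      congr 1
      ring
    · intro p hp h
      have hp' : p = (p.1, 0) := Prod.ext rfl h
      refine ⟨(1 - p.1, 0), (hA p.1).1 (hp' ▸ hp), rfl, ?_⟩
      exact Prod.ext (sub_sub_cancel 1 p.1) h.symm
    · intro p p' h h' he
      have h1 : 1 - p.1 = 1 - p'.1 := congrArg Prod.fst he
      exact Prod.ext (by linarith) (h.trans h'.symm)
  · -- B
    intro u
    refine hsym (fun p => (1 - p.1, 1 / 2)) (fun p => p.2 = 1 / 2) (fun p => p.2 = 1 / 2) (1 - u, 1 / 2) (u, 1 / 2)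
      ?_ ?_ ?_ ?_ ?_
    · intro p hp h
      exact ((H4 p hp).2.2.2 h).trans ((le_abs_self _).trans (hdy (1 - u, 1 / 2) p))
    · intro p hp h
      exact ((H4 p hp).2.2.2 h).trans ((le_abs_self _).trans (hdy (u, 1 / 2) p))
    · intro p hp h
      have hp' : p = (p.1, 1 / 2) := Prod.ext rfl h
      refine ⟨(hB p.1).1 (hp' ▸ hp), rfl, ?_⟩
      simp only [Prod.dist_eq, h, dist_self, Real.dist_eq]
      congr 1
      rw [← abs_neg]
      congr 1
      ring
    · intro p hp h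
      have hp' : p = (p.1, 1 / 2) := Prod.ext rfl h
      refine ⟨(1 - p.1, 1 / 2), (hB p.1).1 (hp' ▸ hp), rfl, ?_⟩
      exact Prod.ext (sub_sub_cancel 1 p.1) h.symm
    · intro p p' h h' he
      have h1 : 1 - p.1 = 1 - p'.1 := congrArg Prod.fst he
      exact Prod.ext (by linarith) (h.trans h'.symm)
  · -- the integral
    intro q hq hq2 hi
    have hae : ∀ᵐ x ∂(volume.restrict U), gr (fun y => ∏ p ∈ S, lam a r (dist y p)) x * q x ^ 2 ≤
        (S.card : ℝ) * ∑ p ∈ S, gr (fun y => lam a r (dist y p)) x * q x ^ 2 := by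
      have h1 : ∀ᵐ x ∂(volume : Measure (ℝ × ℝ)), ∀ p ∈ S, DifferentiableAt ℝ (fun y => lam a r (dist y p)) x := by
        refine (ae_ball_iff S.countable_toSet).2 ?_
        intro p _
        exact (hlipp p).ae_differentiableAt
      filter_upwards [ae_restrict_of_ae h1] with x hx
      have h2 := gr_prod (S := S) (f := fun p y => lam a r (dist y p)) (x := x) (fun p _ => h01 _) hx
      calc _ ≤ ((S.card : ℝ) * ∑ p ∈ S, gr (fun y => lam a r (dist y p)) x) * q x ^ 2 := by gcongr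
        _ = _ := by rw [mul_assoc, Finset.sum_mul]
    have hrhs : Integrable (fun x => (S.card : ℝ) * ∑ p ∈ S, gr (fun y => lam a r (dist y p)) x * q x ^ 2)
        (volume.restrict U) := by
      refine Integrable.const_mul ?_ _
      exact integrable_finsetSum S fun p hp => (H3 p hp a ha har hlog q hq hq2 hi).1
    have hint : IntegrableOn (fun x => gr (fun y => ∏ p ∈ S, lam a r (dist y p)) x * q x ^ 2) U := by
      refine Integrable.mono' hrhs ((gr_lip_meas hK' U).mul ((lpo_meas hq).pow 2)) ?_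
      filter_upwards [hae] with x hx
      rw [Real.norm_of_nonneg (mul_nonneg (gr_nonneg _ _) (sq_nonneg _))]
      exact hx
    refine ⟨hint, ?_⟩
    have hI : 0 ≤ ∫ x in U, (q x ^ 2 + gr q x) := integral_nonneg fun x => add_nonneg (sq_nonneg _) (gr_nonneg q x)
    set I := ∫ x in U, (q x ^ 2 + gr q x) with hIdef
    set c := (1 / Real.log (LL r a / LL r r)) ^ 2 with hcdef
    have hc0 : 0 ≤ c := sq_nonneg _
    calc ∫ x in U, gr (fun y => ∏ p ∈ S, lam a r (dist y p)) x * q x ^ 2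
        ≤ ∫ x in U, (S.card : ℝ) * ∑ p ∈ S, gr (fun y => lam a r (dist y p)) x * q x ^ 2 :=
          integral_mono_ae hint hrhs hae
      _ = (S.card : ℝ) * ∑ p ∈ S, ∫ x in U, gr (fun y => lam a r (dist y p)) x * q x ^ 2 := by
          rw [integral_const_mul, integral_finsetSum S fun p hp => (H3 p hp a ha har hlog q hq hq2 hi).1]
      _ ≤ (S.card : ℝ) * ∑ p ∈ S, c * (16 * (2 / r ^ 2 + 8)) * I := by
          gcongr with p hp
          exact (H3 p hp a ha har hlog q hq hq2 hi).2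
      _ = ((S.card : ℝ) ^ 2 * (16 * (2 / r ^ 2 + 8))) * c * I := by
          rw [Finset.sum_const, nsmul_eq_mul]
          ring
      _ ≤ e * I := by
          gcongr
          have h5 : ((S.card : ℝ) ^ 2 * (16 * (2 / r ^ 2 + 8))) * c ≤
              ((S.card : ℝ) ^ 2 * (16 * (2 / r ^ 2 + 8)) + 1) * c := by
            gcongr
            linarith
          refine h5.trans ?_
          have h6 : 0 < (S.card : ℝ) ^ 2 * (16 * (2 / r ^ 2 + 8)) + 1 := by positivity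
          rw [mul_comm]
          exact (le_div_iff₀ h6).1 hc

end H46SB
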