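import Pool.Agent.H46.SB.Hg
import Pool.Agent.H46.SB.Hi
import Pool.Agent.H46.SB.Hk

/-!
MP_b319aa_NA, X9: cutoff functions (assembly, helper46; no row).
-/

set_option autoImplicit false

namespace H46SB

open H50NA H80HM MeasureTheory Set Filter Topology
open scoped NNReal

/-- the squared gradient -/
noncomputable def gr (q : ℝ × ℝ → ℝ) (x : ℝ × ℝ) : ℝ := sp q (1, 0) x ^ 2 + sp q (0, 1) x ^ 2

lemma gr_nonneg (q : ℝ × ℝ → ℝ) (x : ℝ × ℝ) : 0 ≤ gr q x := by unfold gr; positivity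

lemma norm_e1 : ‖((1, 0) : ℝ × ℝ)‖ = 1 := by simp [Prod.norm_def]
lemma norm_e2 : ‖((0, 1) : ℝ × ℝ)‖ = 1 := by simp [Prod.norm_def]

lemma lip_lpo {l : ℝ × ℝ → ℝ} {K : ℝ≥0} (hl : LipschitzWith K l) (S : Set (ℝ × ℝ)) : Lpo l S := by
  intro C _ _
  exact ⟨K, fun x _ y _ => hl.dist_le_mul x y⟩

lemma gr_lip_meas {l : ℝ × ℝ → ℝ} {K : ℝ≥0} (hl : LipschitzWith K l) (S : Set (ℝ × ℝ)) :
    AEStronglyMeasurable (gr l) (volume.restrict S) := by
  have h := fun t => (sp_meas isOpen_univ (lip_lpo hl univ) t).mono_measure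
    (Measure.restrict_mono_set volume (subset_univ S))
  unfold gr
  exact ((h (1, 0)).pow 2).add ((h (0, 1)).pow 2)

/-- the gradient of a radial cutoff: `g` is constant off `[a, b]` and has derivative `g'` inside -/
lemma gr_comp_le {g g' : ℝ → ℝ} {a b : ℝ} {p x : ℝ × ℝ}
    (h0 : ∀ s, s < a → HasDerivAt g 0 s) (h1 : ∀ s, b < s → HasDerivAt g 0 s)
    (h2 : ∀ s, a < s → s < b → HasDerivAt g (g' s) s) (hxa : dist x p ≠ a) (hxb : dist x p ≠ b) :
    gr (fun y => g (dist y p)) x ≤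
      {x : ℝ × ℝ | a < dist x p ∧ dist x p < b}.indicator (fun x => 2 * g' (dist x p) ^ 2) x := by
  have key : ∀ c : ℝ, HasDerivAt g c (dist x p) → gr (fun y => g (dist y p)) x ≤ 2 * c ^ 2 := by
    intro c hc
    have e1 := sp_comp hc (1, 0)
    have e2 := sp_comp hc (0, 1)
    rw [norm_e1, mul_one] at e1
    rw [norm_e2, mul_one] at e2
    unfold gr
    have e3 : sp (fun y => g (dist y p)) (1, 0) x ^ 2 ≤ c ^ 2 := by
      rw [← sq_abs c]
      exact pow_le_pow_left₀ e1.1 e1.2 2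
    have e4 : sp (fun y => g (dist y p)) (0, 1) x ^ 2 ≤ c ^ 2 := by
      rw [← sq_abs c]
      exact pow_le_pow_left₀ e2.1 e2.2 2
    linarith
  by_cases hx : x ∈ {x : ℝ × ℝ | a < dist x p ∧ dist x p < b}
  · rw [indicator_of_mem hx]
    exact key _ (h2 _ hx.1 hx.2)
  · rw [indicator_of_notMem hx]
    have h3 : dist x p < a ∨ b < dist x p := by
      simp only [mem_ofPred_eq, not_and_or, not_lt] at hx
      rcases hx with h | h
      · left; exact lt_of_le_of_ne h hxa
      · right; exact lt_of_le_of_ne h (Ne.symm hxb)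
    rcases h3 with h | h
    · have := key 0 (h0 _ h)
      simpa using this
    · have := key 0 (h1 _ h)
      simpa using this

lemma ae_dist_ne (p : ℝ × ℝ) {a : ℝ} (ha : 0 < a) (S : Set (ℝ × ℝ)) :
    ∀ᵐ x ∂(volume.restrict S), dist x p ≠ a := by
  have h1 : volume (Metric.sphere p a) = 0 := by
    apply Measure.addHaar_sphere_of_ne_zero
    exact ha.ne'
  refine ae_restrict_of_ae ?_
  rw [ae_iff]
  refine measure_mono_null ?_ h1
  intro x hx
  rw [Metric.mem_sphere]
  by_contra h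
  exact hx h

/-- integral of the gradient of a radial cutoff against `q^2` -/
lemma cut_int {g g' : ℝ → ℝ} {a b : ℝ} (ha : 0 < a) (hab : a < b) {p : ℝ × ℝ} {K : ℝ≥0} (hg : LipschitzWith K g)
    (h0 : ∀ s, s < a → HasDerivAt g 0 s) (h1 : ∀ s, b < s → HasDerivAt g 0 s)
    (h2 : ∀ s, a < s → s < b → HasDerivAt g (g' s) s) {q : ℝ × ℝ → ℝ} {V : Set (ℝ × ℝ)} (hV : MeasurableSet V)
    (hq : AEStronglyMeasurable q (volume.restrict V)) {w : ℝ × ℝ → ℝ} {c : ℝ}
    (hw : ∀ x, a < dist x p → dist x p < b → 2 * g' (dist x p) ^ 2 * q x ^ 2 ≤ c * w x)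
    (hwi : IntegrableOn w (V ∩ {x | a < dist x p ∧ dist x p < b})) :
    IntegrableOn (fun x => gr (fun y => g (dist y p)) x * q x ^ 2) V ∧
      ∫ x in V, gr (fun y => g (dist y p)) x * q x ^ 2 ≤
        c * ∫ x in V ∩ {x | a < dist x p ∧ dist x p < b}, w x := by
  have hlip : LipschitzWith K (fun y : ℝ × ℝ => g (dist y p)) := by
    have := hg.comp (LipschitzWith.dist_left p)
    rw [mul_one] at this
    exact this
  have hmA : MeasurableSet {x : ℝ × ℝ | a < dist x p ∧ dist x p < b} := by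
    have e0 : {x : ℝ × ℝ | a < dist x p ∧ dist x p < b} = (fun x : ℝ × ℝ => dist x p) ⁻¹' Ioo a b := by
      ext x
      simp only [mem_ofPred_eq, mem_preimage, mem_Ioo]
    rw [e0]
    exact (isOpen_Ioo.preimage (continuous_id.dist continuous_const)).measurableSet
  have hae : ∀ᵐ x ∂(volume.restrict V), gr (fun y => g (dist y p)) x * q x ^ 2 ≤
      {x : ℝ × ℝ | a < dist x p ∧ dist x p < b}.indicator (fun x => c * w x) x := by
    filter_upwards [ae_dist_ne p ha V, ae_dist_ne p (ha.trans hab) V] with x hxa hxb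
    have e1 := gr_comp_le h0 h1 h2 hxa hxb
    by_cases hx : x ∈ {x : ℝ × ℝ | a < dist x p ∧ dist x p < b}
    · rw [indicator_of_mem hx] at e1 ⊢
      calc _ ≤ 2 * g' (dist x p) ^ 2 * q x ^ 2 := by gcongr
        _ ≤ _ := hw x hx.1 hx.2
    · rw [indicator_of_notMem hx] at e1 ⊢
      have e2 := gr_nonneg (fun y => g (dist y p)) x
      have e3 : gr (fun y => g (dist y p)) x = 0 := le_antisymm e1 e2
      rw [e3, zero_mul]
  have hind : Integrable ({x : ℝ × ℝ | a < dist x p ∧ dist x p < b}.indicator (fun x => c * w x))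
      (volume.restrict V) := by
    rw [integrable_indicator_iff hmA]
    rw [IntegrableOn, Measure.restrict_restrict hmA, inter_comm]
    exact hwi.const_mul c
  have hint : IntegrableOn (fun x => gr (fun y => g (dist y p)) x * q x ^ 2) V := by
    refine Integrable.mono' hind ((gr_lip_meas hlip V).mul (hq.pow 2)) ?_
    filter_upwards [hae] with x hx
    rw [Real.norm_of_nonneg (mul_nonneg (gr_nonneg _ _) (sq_nonneg _))]
    exact hx
  refine ⟨hint, ?_⟩
  calc ∫ x in V, gr (fun y => g (dist y p)) x * q x ^ 2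
      ≤ ∫ x in V, {x : ℝ × ℝ | a < dist x p ∧ dist x p < b}.indicator (fun x => c * w x) x :=
        integral_mono_ae hint hind hae
    _ = ∫ x in V ∩ {x | a < dist x p ∧ dist x p < b}, c * w x := by
        rw [integral_indicator hmA, Measure.restrict_restrict hmA, inter_comm]
    _ = _ := by rw [integral_const_mul]

lemma const_left {g : ℝ → ℝ} {a v : ℝ} (h : ∀ x, x ≤ a → g x = v) : ∀ s, s < a → HasDerivAt g 0 s := by
  intro s hs
  refine (hasDerivAt_const s v).congr_of_eventuallyEq ?_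
  filter_upwards [Iio_mem_nhds hs] with x hx
  exact h x (le_of_lt hx)

lemma const_right {g : ℝ → ℝ} {b v : ℝ} (h : ∀ x, b ≤ x → g x = v) : ∀ s, b < s → HasDerivAt g 0 s := by
  intro s hs
  refine (hasDerivAt_const s v).congr_of_eventuallyEq ?_
  filter_upwards [Ioi_mem_nhds hs] with x hx
  exact h x (le_of_lt hx)

lemma U_meas : MeasurableSet U := by
  unfold U; exact measurableSet_Ioo.prod measurableSet_Ioo

lemma U_sub : U ⊆ D \ P := by
  intro x hx
  refine ⟨⟨Ioo_subset_Icc_self hx.1, Ioo_subset_Icc_self hx.2⟩, fun h => ?_⟩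
  have h2 : x.2 = 0 ∨ x.2 = 1 / 2 := h.2
  have h3 : 0 < x.2 ∧ x.2 < 1 / 2 := hx.2
  rcases h2 with h2 | h2 <;> linarith

lemma U_open : IsOpen U := by
  unfold U; exact isOpen_Ioo.prod isOpen_Ioo

lemma lpo_meas {q : ℝ × ℝ → ℝ} (hq : Lpo q (D \ P)) : AEStronglyMeasurable q (volume.restrict U) := by
  have hc : ContinuousOn q U := by
    intro x hx
    obtain ⟨e, he, hb⟩ := Metric.isOpen_iff.1 U_open x hx
    have hcb : Metric.closedBall x (e / 2) ⊆ U :=
      (Metric.closedBall_subset_ball (by linarith)).trans hb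
    obtain ⟨L, hL⟩ := hq _ (hcb.trans U_sub) (isCompact_closedBall x (e / 2))
    have hlip : LipschitzOnWith (Real.toNNReal L) q (Metric.closedBall x (e / 2)) := by
      refine LipschitzOnWith.of_dist_le_mul fun y hy z hz => ?_
      refine (hL y hy z hz).trans ?_
      gcongr
      exact Real.le_coe_toNNReal L
    have : ContinuousAt q x := (hlip.continuousOn).continuousAt (Metric.closedBall_mem_nhds x (by linarith))
    exact this.continuousWithinAt
  exact hc.aestronglyMeasurable U_meas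

/-- cutoff at the square -/
theorem cut_Z {r R e : ℝ} (hr : 0 < r) (hR : 0 < R) (hrR : r + R < 1 / 4) (he : 0 < e) :
    ∃ l : ℝ × ℝ → ℝ, (∃ K : ℝ≥0, LipschitzWith K l) ∧ (∀ x, 0 ≤ l x ∧ l x ≤ 1) ∧
      (∃ d > 0, ∀ x, dist x (1 / 4, 1 / 4) ≤ r + d → l x = 0) ∧
      (∀ x, r + R ≤ dist x (1 / 4, 1 / 4) → l x = 1) ∧
      ∀ q : ℝ × ℝ → ℝ, Lpo q (D \ P) → (∀ x ∈ Metric.closedBall ((1 / 4, 1 / 4) : ℝ × ℝ) r, q x = 0) →
        IntegrableOn (gr q) U →
          IntegrableOn (fun x => gr l x * q x ^ 2) U ∧ ∫ x in U, gr l x * q x ^ 2 ≤ e * ∫ x in U, gr q x := by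
  obtain ⟨a, ha, haR, hc, hlog⟩ := mu_small (R := R) (e := e * r / 32) hR (by positivity)
  obtain ⟨⟨K, hK⟩, h01, hl0, hl1, hder⟩ := mu_props ha haR
  set c0 : ℝ × ℝ := (1 / 4, 1 / 4) with hc0
  set c := 1 / Real.log (R / a) with hcdef
  -- the function of the distance
  have hgK : LipschitzWith K (fun s => mu a R (s - r)) := by
    have h1 : LipschitzWith 1 (fun s : ℝ => s - r) := LipschitzWith.of_dist_le_mul fun x y => by
      simp [Real.dist_eq]
    have h2 := hK.comp h1
    rw [mul_one] at h2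
    exact h2
  have hlip : LipschitzWith K (fun x : ℝ × ℝ => mu a R (dist x c0 - r)) := by
    have h2 := hgK.comp (LipschitzWith.dist_left c0)
    rw [mul_one] at h2
    exact h2
  refine ⟨fun x => mu a R (dist x c0 - r), ⟨K, hlip⟩, fun x => h01 _, ⟨a, ha, fun x hx => hl0 _ (by linarith)⟩,
    fun x hx => hl1 _ (by linarith), ?_⟩
  intro q hq hz hi
  obtain ⟨h5, h6⟩ := hardy_Z hr hR hrR hq hz hi ha haR
  have hVA : U ∩ {x : ℝ × ℝ | r + a < dist x c0 ∧ dist x c0 < r + R} =
      {x : ℝ × ℝ | r + a < dist x c0 ∧ dist x c0 < r + R} := by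
    apply inter_eq_self_of_subset_right
    intro x hx
    have h7 : dist x c0 < 1 / 4 := hx.2.trans hrR
    rw [Prod.dist_eq, max_lt_iff, Real.dist_eq, Real.dist_eq, abs_lt, abs_lt] at h7
    simp only [hc0] at h7
    exact ⟨⟨by linarith, by linarith⟩, ⟨by linarith, by linarith⟩⟩
  have h8 := cut_int (g := fun s => mu a R (s - r)) (g' := fun s => c / (s - r)) (a := r + a) (b := r + R)
    (p := c0) (K := K) (by linarith) (by linarith) hgK
    (const_left (v := 0) fun x hx => hl0 _ (by linarith)) (const_right (v := 1) fun x hx => hl1 _ (by linarith))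
    (fun s hs1 hs2 => by
      have := (hder (s - r) (by linarith) (by linarith)).comp s ((hasDerivAt_id s).sub_const r)
      rw [mul_one] at this
      exact this) U_meas (lpo_meas hq) (w := fun x => q x ^ 2 / (dist x c0 - r) ^ 2) (c := 2 * c ^ 2)
    (fun x hx1 hx2 => by
      have h9 : dist x c0 - r ≠ 0 := by
        have : 0 < dist x c0 - r := by linarith
        exact this.ne'
      apply le_of_eq
      field_simp) (by rw [hVA]; exact h5)
  refine ⟨h8.1, h8.2.trans ?_⟩
  rw [hVA]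
  have hI : 0 ≤ ∫ x in U, gr q x := integral_nonneg fun x => gr_nonneg q x
  calc 2 * c ^ 2 * ∫ x in {x : ℝ × ℝ | r + a < dist x c0 ∧ dist x c0 < r + R}, q x ^ 2 / (dist x c0 - r) ^ 2
      ≤ 2 * c ^ 2 * (16 / r * ∫ x in U, gr q x) := by
        gcongr
        exact h6
    _ ≤ 2 * (e * r / 32) * (16 / r * ∫ x in U, gr q x) := by gcongr
    _ = e * ∫ x in U, gr q x := by field_simp; ring

end H46SB
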