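import Pool.Agent.H50.NA.Defs

/-!
ROW Mb (MP_b319aa_NA, M6: harmonic functions have constant ball averages).
PROOF. `HarmonicOnNhd.circleAverage_eq` (Mathlib.Analysis.Complex.Harmonic.MeanValue) gives `circleAverage h x s = h x` for `0 < s ≤ r`. Polar coordinates
(`Complex.integral_comp_polarCoord_symm`, applied to `w ↦ indicator (ball 0 r) (h (x + w))`, with the translation `w ↦ x + w`): `∫_{ball x r} h =
∫_{0<s<r} s * (∫_{-π<θ<π} h (x + s e^{iθ}) dθ) ds = ∫_{0<s<r} s * 2π * h x = π r^2 h x`; `volume (ball x r) = π r^2` (`Complex.volume_ball`). `circleAverage` is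
`(2π)⁻¹ ∫_0^{2π} h (circleMap x s θ)`; the interval `(-π, π)` versus `(0, 2π)` by periodicity (`Function.Periodic.intervalIntegral_add_eq`).
`harm_subH`: both averages are `h x` (`harm_avg` at `r` and `R`); `h` is continuous on `O` (`HarmonicOnNhd.continuousOn`).
-/

set_option autoImplicit false

namespace H46SB

open H50NA MeasureTheory Metric Set Filter Topology InnerProductSpace

theorem Mb_cont {h : ℂ → ℝ} {x : ℂ} {r s : ℝ} (hs0 : 0 < s) (hsr : s ≤ r)
    (hh : HarmonicOnNhd h (closedBall x r)) : Continuous fun θ : ℝ => h (circleMap x s θ) := by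
  refine hh.continuousOn.comp_continuous (continuous_circleMap x s) fun θ => ?_
  exact closedBall_subset_closedBall hsr (circleMap_mem_closedBall x hs0.le θ)

theorem Mb_circ {h : ℂ → ℝ} {x : ℂ} {r s : ℝ} (hs0 : 0 < s) (hsr : s ≤ r)
    (hh : HarmonicOnNhd h (closedBall x r)) :
    ∫ θ in Ioo (-Real.pi) Real.pi, (h (circleMap x s θ) - h x) = 0 := by
  have h1 : HarmonicOnNhd h (closedBall x |s|) := by
    rw [abs_of_pos hs0]
    exact hh.mono (closedBall_subset_closedBall hsr)
  have h2 := h1.circleAverage_eq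
  rw [Real.circleAverage_def] at h2
  have hc := Mb_cont hs0 hsr hh
  have h3 : ∫ θ in (-Real.pi)..(-Real.pi + 2 * Real.pi), h (circleMap x s θ) =
      ∫ θ in (0 : ℝ)..(0 + 2 * Real.pi), h (circleMap x s θ) :=
    Function.Periodic.intervalIntegral_add_eq ((periodic_circleMap x s).comp h) _ _
  have e1 : -Real.pi + 2 * Real.pi = Real.pi := by ring
  rw [e1, zero_add] at h3
  have hpi := Real.pi_pos
  rw [← integral_Ioc_eq_integral_Ioo, ← intervalIntegral.integral_of_le (by linarith),
    intervalIntegral.integral_sub (hc.intervalIntegrable _ _) (continuous_const.intervalIntegrable _ _),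
    h3, intervalIntegral.integral_const]
  have h4 : ∫ θ in (0 : ℝ)..(2 * Real.pi), h (circleMap x s θ) = 2 * Real.pi * h x := by
    rw [← h2, smul_eq_mul]
    field_simp
  rw [h4, smul_eq_mul]
  ring

theorem Mb_sub {h : ℂ → ℝ} {x : ℂ} {r : ℝ} (hh : HarmonicOnNhd h (closedBall x r)) :
    ∫ y in ball x r, (h y - h x) = 0 := by
  have h1 : ∫ y in ball x r, (h y - h x) =
      ∫ w : ℂ, (ball (0 : ℂ) r).indicator (fun w => h (x + w) - h x) w := by
    rw [← integral_indicator measurableSet_ball,
      ← integral_add_left_eq_self (μ := volume) ((ball x r).indicator fun y => h y - h x) x]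
    refine integral_congr_ae (Eventually.of_forall fun w => ?_)
    by_cases hw : w ∈ ball (0 : ℂ) r
    · have hw' : x + w ∈ ball x r := by
        rw [mem_ball_iff_norm, add_sub_cancel_left]
        rwa [mem_ball_zero_iff] at hw
      simp only [indicator_of_mem hw', indicator_of_mem hw]
    · have hw' : x + w ∉ ball x r := by
        rw [mem_ball_iff_norm, add_sub_cancel_left]
        rwa [mem_ball_zero_iff] at hw
      simp only [indicator_of_notMem hw', indicator_of_notMem hw]
  rw [h1, ← Complex.integral_comp_polarCoord_symm]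
  have h2 : (∫ p in polarCoord.target, p.1 • (ball (0 : ℂ) r).indicator (fun w => h (x + w) - h x)
      (Complex.polarCoord.symm p)) =
      ∫ p in polarCoord.target, (Iio r ×ˢ (univ : Set ℝ)).indicator
        (fun p : ℝ × ℝ => p.1 * (h (circleMap x p.1 p.2) - h x)) p := by
    refine setIntegral_congr_fun polarCoord.open_target.measurableSet fun p hp => ?_
    have hp1 : 0 < p.1 := hp.1
    have hn : ‖Complex.polarCoord.symm p‖ = p.1 := by
      rw [Complex.norm_polarCoord_symm, abs_of_pos hp1]
    have he : x + Complex.polarCoord.symm p = circleMap x p.1 p.2 := by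
      rw [Complex.polarCoord_symm_apply, circleMap, Complex.exp_mul_I]
      push_cast
      rfl
    by_cases hr' : p.1 < r
    · have hm : Complex.polarCoord.symm p ∈ ball (0 : ℂ) r := by
        rw [mem_ball_zero_iff, hn]
        exact hr'
      have hm' : p ∈ Iio r ×ˢ (univ : Set ℝ) := ⟨hr', mem_univ _⟩
      simp only [indicator_of_mem hm, indicator_of_mem hm', he, smul_eq_mul]
    · have hm : Complex.polarCoord.symm p ∉ ball (0 : ℂ) r := by
        rw [mem_ball_zero_iff, hn]
        exact hr'
      have hm' : p ∉ Iio r ×ˢ (univ : Set ℝ) := fun h => hr' h.1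
      simp only [indicator_of_notMem hm, indicator_of_notMem hm', smul_zero]
  rw [h2, setIntegral_indicator (measurableSet_Iio.prod MeasurableSet.univ)]
  have h3 : polarCoord.target ∩ Iio r ×ˢ (univ : Set ℝ) = Ioo 0 r ×ˢ Ioo (-Real.pi) Real.pi := by
    ext p
    rw [polarCoord_target]
    simp only [mem_inter_iff, mem_prod, mem_Ioi, mem_Ioo, mem_Iio, mem_univ, and_true]
    tauto
  have hcont : ContinuousOn (fun p : ℝ × ℝ => p.1 * (h (circleMap x p.1 p.2) - h x))
      (Icc 0 r ×ˢ Icc (-Real.pi) Real.pi) := by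
    refine continuousOn_fst.mul (ContinuousOn.sub ?_ continuousOn_const)
    refine hh.continuousOn.comp (f := fun p : ℝ × ℝ => circleMap x p.1 p.2) ?_ ?_
    · unfold circleMap
      fun_prop
    · intro p hp
      exact closedBall_subset_closedBall hp.1.2 (circleMap_mem_closedBall x hp.1.1 p.2)
  have hint : IntegrableOn (fun p : ℝ × ℝ => p.1 * (h (circleMap x p.1 p.2) - h x))
      (Ioo 0 r ×ˢ Ioo (-Real.pi) Real.pi) (volume.prod volume) :=
    (hcont.integrableOn_compact (isCompact_Icc.prod isCompact_Icc)).mono_set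
      (prod_mono Ioo_subset_Icc_self Ioo_subset_Icc_self)
  rw [h3, Measure.volume_eq_prod, setIntegral_prod _ hint]
  rw [setIntegral_congr_fun measurableSet_Ioo (g := fun _ => (0 : ℝ))]
  · simp
  · intro s hs
    change ∫ θ in Ioo (-Real.pi) Real.pi, s * (h (circleMap x s θ) - h x) = 0
    rw [integral_const_mul, Mb_circ hs.1 hs.2.le hh, mul_zero]

theorem harm_avg {h : ℂ → ℝ} {x : ℂ} {r : ℝ} (hr : 0 < r) (hh : HarmonicOnNhd h (closedBall x r)) :
    (⨍ y in ball x r, h y) = h x := by
  have h1 := Mb_sub hh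
  have hi : IntegrableOn h (ball x r) :=
    (hh.continuousOn.integrableOn_compact (isCompact_closedBall x r)).mono_set ball_subset_closedBall
  have hfin : volume (ball x r) ≠ ⊤ := measure_ball_lt_top.ne
  have hpos : volume (ball x r) ≠ 0 := (measure_ball_pos volume x hr).ne'
  rw [integral_sub hi (integrableOn_const hfin), setIntegral_const, sub_eq_zero] at h1
  rw [setAverage_eq, h1, smul_smul, inv_mul_cancel₀, one_smul]
  exact (measureReal_ne_zero_iff hfin).2 hpos

theorem harm_subH {h : ℂ → ℝ} {O : Set ℂ} (hh : HarmonicOnNhd h O) : SubH h O := by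
  refine ⟨hh.continuousOn, fun x r R hr hrR hsub => ?_⟩
  rw [harm_avg hr (hh.mono ((closedBall_subset_closedBall hrR).trans hsub)),
    harm_avg (lt_of_lt_of_le hr hrR) (hh.mono hsub)]

end H46SB
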