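import Pool.Agent.H46.SB.Ma
import Pool.Agent.H46.SB.Mb

/-!
ROW Mc (MP_b319aa_NA, M6 b: maximum principle).
PROOF. `avg_eq`: if `G ≤ M` on `ball x r` (continuous on the closed ball) and `M ≤ avg` then `G = M` on `ball x r` (the integral of the continuous nonnegative function
`M - G` over the open ball is `≤ 0`, so it vanishes: `setIntegral_eq_zero_iff_of_nonneg_ae`/`Continuous...`, an open set of positive measure where `M - G > c`).
`sub_max`: otherwise the maximum `M > 0` of `G` on the compact `closure O` is attained; `K = {x ∈ closure O | G x = M}` is compact, non empty and contained in `O`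
(`closure O = O ∪ frontier O`). Take `x0 ∈ K` with maximal real part (`IsCompact.exists_isMaxOn`); for `r` small `closedBall x0 r ⊆ O`, `M = G x0 ≤ avg_r G ≤ M`, so
`G = M` on `ball x0 r` and `x0 + r/2 ∈ K` has a larger real part.
`le_harm`: apply `sub_max` to `G = F - h`; `G x ≤ avg_r G` by `SubH.le_avg` and `harm_avg` (averages are linear).
`const_of_max`: the set `{y ∈ O | F y = F x}` is open (as in `sub_max`) and closed in `O` (continuity): `IsPreconnected.subset_of_closure_inter_subset` or similar.
-/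

set_option autoImplicit false

namespace H46SB

open H50NA MeasureTheory Metric Set Filter Topology InnerProductSpace

private lemma int_ball {G : ℂ → ℝ} {x : ℂ} {r : ℝ} (hG : ContinuousOn G (closedBall x r)) :
    IntegrableOn G (ball x r) :=
  (hG.integrableOn_compact (isCompact_closedBall x r)).mono_set ball_subset_closedBall

private lemma vol_pos {x : ℂ} {r : ℝ} (hr : 0 < r) : 0 < volume.real (ball x r) :=
  ENNReal.toReal_pos (measure_ball_pos volume x hr).ne' measure_ball_lt_top.ne

theorem avg_eq {G : ℂ → ℝ} {x : ℂ} {r M : ℝ} (hr : 0 < r) (hG : ContinuousOn G (closedBall x r))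
    (hM : ∀ y ∈ ball x r, G y ≤ M) (ha : M ≤ ⨍ y in ball x r, G y) : ∀ y ∈ ball x r, G y = M := by
  have hi := int_ball hG
  have hv := vol_pos (x := x) hr
  have hc : IntegrableOn (fun _ : ℂ => M) (ball x r) :=
    integrableOn_const measure_ball_lt_top.ne
  have hnn : 0 ≤ᵐ[volume.restrict (ball x r)] fun y => M - G y := by
    rw [Filter.EventuallyLE, ae_restrict_iff' measurableSet_ball]
    exact Filter.Eventually.of_forall fun y hy => by
      have := hM y hy
      simp only [Pi.zero_apply]
      linarith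
  have h0 : ∫ y in ball x r, (M - G y) = 0 := by
    apply le_antisymm
    · rw [integral_sub hc hi, setIntegral_const, smul_eq_mul]
      rw [setAverage_eq, smul_eq_mul] at ha
      have h1 : M * volume.real (ball x r) ≤ ∫ y in ball x r, G y := by
        calc M * volume.real (ball x r) ≤
            ((volume.real (ball x r))⁻¹ * ∫ y in ball x r, G y) * volume.real (ball x r) :=
              mul_le_mul_of_nonneg_right ha hv.le
          _ = ∫ y in ball x r, G y := by field_simp
      linarith
    · exact integral_nonneg_of_ae hnn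
  have h1 := (setIntegral_eq_zero_iff_of_nonneg_ae hnn (hc.sub hi)).1 h0
  have h2 : EqOn (fun y => M - G y) 0 (ball x r) :=
    Measure.eqOn_open_of_ae_eq h1 isOpen_ball
      (continuousOn_const.sub (hG.mono ball_subset_closedBall)) continuousOn_const
  intro y hy
  have h3 : M - G y = 0 := h2 hy
  linarith

theorem sub_max {O : Set ℂ} (hO : IsOpen O) (hb : Bornology.IsBounded O) {G : ℂ → ℝ}
    (hG : ContinuousOn G (closure O))
    (hs : ∀ x ∈ O, ∀ r : ℝ, 0 < r → closedBall x r ⊆ O → G x ≤ ⨍ y in ball x r, G y)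
    (hf : ∀ x ∈ frontier O, G x ≤ 0) : ∀ x ∈ closure O, G x ≤ 0 := by
  by_contra hcon
  push Not at hcon
  obtain ⟨x, hx, hx0⟩ := hcon
  have hcomp : IsCompact (closure O) := hb.isCompact_closure
  obtain ⟨z, hz, hzmax⟩ := hcomp.exists_isMaxOn ⟨x, hx⟩ hG
  have hM : ∀ y ∈ closure O, G y ≤ G z := fun y hy => hzmax hy
  have hMpos : 0 < G z := lt_of_lt_of_le hx0 (hM x hx)
  have hK : IsCompact (closure O ∩ G ⁻¹' {G z}) :=
    hcomp.of_isClosed_subset (hG.preimage_isClosed_of_isClosed isClosed_closure isClosed_singleton)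
      inter_subset_left
  obtain ⟨w, hw, hwmax⟩ := hK.exists_isMaxOn ⟨z, hz, rfl⟩ Complex.continuous_re.continuousOn
  have hGw : G w = G z := hw.2
  have hwO : w ∈ O := by
    by_contra hnot
    have : w ∈ frontier O := by
      rw [frontier, hO.interior_eq]
      exact ⟨hw.1, hnot⟩
    have := hf w this
    rw [hGw] at this
    linarith
  obtain ⟨r, hr, hrO⟩ := nhds_basis_closedBall.mem_iff.1 (hO.mem_nhds hwO)
  have havg := hs w hwO r hr hrO
  rw [hGw] at havg
  have heq := avg_eq hr (hG.mono (hrO.trans subset_closure))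
    (fun y hy => hM y (subset_closure (hrO (ball_subset_closedBall hy)))) havg
  have hmem : w + ((r / 2 : ℝ) : ℂ) ∈ ball w r := by
    rw [mem_ball, dist_eq_norm, add_sub_cancel_left, Complex.norm_real, Real.norm_eq_abs,
      abs_of_pos (by positivity)]
    linarith
  have h1 := heq _ hmem
  have h2 : (w + ((r / 2 : ℝ) : ℂ)).re ≤ w.re :=
    hwmax ⟨subset_closure (hrO (ball_subset_closedBall hmem)), h1⟩
  rw [Complex.add_re, Complex.ofReal_re] at h2
  linarith

private lemma avg_sub {F h : ℂ → ℝ} {x : ℂ} {r : ℝ} (hF : ContinuousOn F (closedBall x r))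
    (hh : ContinuousOn h (closedBall x r)) :
    (⨍ y in ball x r, (F y - h y)) = (⨍ y in ball x r, F y) - ⨍ y in ball x r, h y := by
  rw [setAverage_eq, setAverage_eq, setAverage_eq, integral_sub (int_ball hF) (int_ball hh)]
  simp only [smul_eq_mul]
  ring

theorem SubH.le_harm {O : Set ℂ} (hO : IsOpen O) (hb : Bornology.IsBounded O) {F h : ℂ → ℝ} (hF : SubH F O)
    (hFc : ContinuousOn F (closure O)) (hh : HarmonicOnNhd h O) (hhc : ContinuousOn h (closure O))
    (hle : ∀ x ∈ frontier O, F x ≤ h x) : ∀ x ∈ closure O, F x ≤ h x := by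
  have key := sub_max hO hb (G := fun x => F x - h x) (hFc.sub hhc) (by
    intro x hx r hr hrO
    have hsub : closedBall x r ⊆ closure O := hrO.trans subset_closure
    rw [avg_sub (hFc.mono hsub) (hhc.mono hsub),
      harm_avg hr (fun y hy => hh y (hrO hy))]
    have := SubH.le_avg hF hr hrO
    linarith) (by
    intro x hx
    have := hle x hx
    linarith)
  intro x hx
  have := key x hx

  linarith

theorem SubH.const_of_max {O : Set ℂ} (hO : IsOpen O) (hc : IsPreconnected O) {F : ℂ → ℝ} (hF : SubH F O)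
    {x : ℂ} (hx : x ∈ O) (hmax : ∀ y ∈ O, F y ≤ F x) : ∀ y ∈ O, F y = F x := by
  have hopen : IsOpen {y | y ∈ O ∧ F y = F x} := by
    rw [Metric.isOpen_iff]
    rintro y ⟨hy, hFy⟩
    obtain ⟨r, hr, hrO⟩ := nhds_basis_closedBall.mem_iff.1 (hO.mem_nhds hy)
    refine ⟨r, hr, fun z hz => ?_⟩
    have havg := SubH.le_avg hF hr hrO
    rw [hFy] at havg
    exact ⟨hrO (ball_subset_closedBall hz), avg_eq hr (hF.cont.mono hrO)
      (fun y hy => hmax y (hrO (ball_subset_closedBall hy))) havg z hz⟩
  have hsub : O ⊆ {y | y ∈ O ∧ F y = F x} := by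
    refine hc.subset_of_closure_inter_subset hopen ⟨x, hx, hx, rfl⟩ ?_
    rintro y ⟨hyc, hy⟩
    refine ⟨hy, ?_⟩
    by_contra hne
    have hop : IsOpen (O ∩ F ⁻¹' {F x}ᶜ) :=
      hF.cont.isOpen_inter_preimage hO isOpen_compl_singleton
    obtain ⟨z, hz1, hz2⟩ := mem_closure_iff.1 hyc _ hop ⟨hy, hne⟩
    exact hz1.2 hz2.2
  exact fun y hy => (hsub hy).2

end H46SB
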