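import Mathlib

/-!
ROW Me (MP_b319aa_NA, M6 d: the Poisson integral is harmonic in the disc).
PROOF. `poissonKernel_eq_re_herglotzRieszKernel`; for `c = 0`: `re_circleAverage_herglotzRieszKernel_smul` says that the Poisson integral is the real part of
`w ↦ circleAverage (fun ζ ↦ herglotzRieszKernel 0 w ζ • (g ζ : ℂ)) 0 R`, which is analytic on `ball 0 R` by `analyticOnNhd_circleAverage_herglotzRieszKernel_smul`; real
parts of analytic functions are harmonic (`AnalyticAt.harmonicAt_re`; `harmonicAt_congr_nhds` for the equality near the point). General `c` by translation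
(`herglotzRieszKernel_add_const`, `circleAverage_map_add_const`; the composition of an analytic function with `w ↦ w - c` is analytic).
-/

set_option autoImplicit false

namespace H46SB

open MeasureTheory Metric Set Filter Topology InnerProductSpace Real

theorem pois_harm {c : ℂ} {R : ℝ} {g : ℂ → ℝ} (hg : CircleIntegrable g c R) :
    HarmonicOnNhd (fun w => circleAverage (poissonKernel c w • g) c R) (ball c R) := by
  have hg0 : CircleIntegrable (fun z => g (z + c)) 0 R := by
    have h := hg
    unfold CircleIntegrable at h ⊢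
    have hE : (fun θ : ℝ => g (circleMap 0 R θ + c)) = fun θ : ℝ => g (circleMap c R θ) := by
      funext θ
      simp [circleMap, add_comm]
    rw [hE]
    exact h
  have hg0C : CircleIntegrable (fun ζ => ((g (ζ + c) : ℝ) : ℂ)) 0 R := by
    simp only [CircleIntegrable, intervalIntegrable_iff] at hg0 ⊢
    exact Complex.ofRealCLM.integrable_comp hg0
  have hA : AnalyticOnNhd ℂ
      (fun w ↦ circleAverage (fun ζ ↦ herglotzRieszKernel 0 w ζ • ((g (ζ + c) : ℝ) : ℂ)) 0 R)
      (ball 0 R) := analyticOnNhd_circleAverage_herglotzRieszKernel_smul hg0C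
  intro w hw
  have hw0 : w - c ∈ ball (0 : ℂ) R := by
    rw [mem_ball, dist_zero_right]
    rw [mem_ball, dist_eq_norm] at hw
    exact hw
  have hcomp : AnalyticAt ℂ (fun v : ℂ ↦
      circleAverage (fun ζ ↦ herglotzRieszKernel 0 (v - c) ζ • ((g (ζ + c) : ℝ) : ℂ)) 0 R) w := by
    have h1 : AnalyticAt ℂ (fun v : ℂ => v - c) w := analyticAt_id.sub analyticAt_const
    exact (hA (w - c) hw0).comp_of_eq h1 rfl
  have hharm := hcomp.harmonicAt_re
  refine (harmonicAt_congr_nhds ?_).1 hharm
  have hnb : ball c R ∈ 𝓝 w := isOpen_ball.mem_nhds hw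
  filter_upwards [hnb] with v hv
  have hv0 : v - c ∈ ball (0 : ℂ) R := by
    rw [mem_ball, dist_zero_right]
    rw [mem_ball, dist_eq_norm] at hv
    exact hv
  have h2 := re_circleAverage_herglotzRieszKernel_smul hg0 hv0
  simp only [Function.comp_def] at h2 ⊢
  refine h2.trans ?_
  rw [← circleAverage_map_add_const (f := poissonKernel c v • g)]
  have hE : (fun x => (herglotzRieszKernel 0 (v - c) x).re) • (fun z => g (z + c)) =
      fun z => (poissonKernel c v • g) (z + c) := by
    funext z
    simp only [Pi.smul_apply', smul_eq_mul]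
    rw [poissonKernel_eq_re_herglotzRieszKernel, Function.comp_apply, herglotzRieszKernel_add_const]
  rw [hE]

end H46SB
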