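import Mathlib

/-!
ROW Mf (MP_b319aa_NA, M6 d: boundary values of the Poisson integral).
PROOF. `0 ≤ poissonKernel c w z` for `z ∈ sphere c R`, `w ∈ ball c R`, and `circleAverage (poissonKernel c w) c R = 1` (Poisson formula for the constant `1`, e.g.
`DiffContOnCl.circleAverage_poissonKernel_smul` or the harmonic version). So the Poisson integral minus `g z0` is `circleAverage (P_w • (g - g z0))`. Let `B` bound `|g - g z0|`
on the sphere (compact), `ε > 0`, `|g z - g z0| ≤ ε` for `z ∈ sphere`, `dist z z0 < δ`. For `dist w z0 < δ/2`: on `dist z z0 ≥ δ` one has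
`P_w z ≤ (R^2 - ‖w-c‖^2) / (δ/2)^2`. Hence pointwise on the sphere `|P_w (g - g z0)| ≤ ε P_w + B (R^2 - ‖w - c‖^2) / (δ/2)^2` and the circle average is
`≤ ε + B (R^2 - ‖w-c‖^2) / (δ/2)^2`, `< 2 ε` for `w` close to `z0` (`‖w - c‖ → R`).
-/

set_option autoImplicit false

namespace H46SB

open MeasureTheory Metric Set Filter Topology InnerProductSpace Real

theorem pois_bdry {c : ℂ} {R : ℝ} (hR : 0 < R) {g : ℂ → ℝ} (hg : ContinuousOn g (sphere c R)) {z0 : ℂ}
    (hz : z0 ∈ sphere c R) :
    Tendsto (fun w => circleAverage (poissonKernel c w • g) c R) (𝓝[ball c R] z0) (𝓝 (g z0)) := by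
  have hR' : |R| = R := abs_of_pos hR
  have hcont : ∀ w ∈ ball c R, ContinuousOn (poissonKernel c w) (sphere c R) := by
    intro w hw
    have hne : ∀ z ∈ sphere c R, ‖(z - c) - (w - c)‖ ^ 2 ≠ 0 := by
      intro z hz h
      have h2 : ‖(z - c) - (w - c)‖ = 0 := by simpa using h
      rw [norm_eq_zero] at h2
      have h3 : z = w := by linear_combination h2
      subst h3
      rw [mem_sphere] at hz
      rw [mem_ball] at hw
      linarith
    unfold poissonKernel
    exact ContinuousOn.div (by fun_prop) (by fun_prop) hne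
  have hval : ∀ w z, z ∈ sphere c R →
      poissonKernel c w z = (R ^ 2 - ‖w - c‖ ^ 2) / ‖z - w‖ ^ 2 := by
    intro w z hz
    rw [poissonKernel_def, sub_sub_sub_cancel_right]
    rw [mem_sphere_iff_norm] at hz
    rw [hz]
  have hnum : ∀ w ∈ ball c R, 0 ≤ R ^ 2 - ‖w - c‖ ^ 2 := by
    intro w hw
    rw [mem_ball_iff_norm] at hw
    nlinarith [norm_nonneg (w - c)]
  have hnn : ∀ w ∈ ball c R, ∀ z ∈ sphere c R, 0 ≤ poissonKernel c w z := by
    intro w hw z hz
    rw [hval w z hz]
    exact div_nonneg (hnum w hw) (by positivity)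
  have hone : ∀ w ∈ ball c R, circleAverage (poissonKernel c w) c R = 1 := by
    intro w hw
    have h := HarmonicContOnCl.circleAverage_poissonKernel_smul (f := fun _ => (1 : ℝ))
      (c := c) (R := R) (w := w) harmonicContOnCl_const hw
    have e : (poissonKernel c w • fun _ => (1 : ℝ)) = poissonKernel c w := by
      ext z
      simp
    rw [e] at h
    exact h
  have hci : ∀ w ∈ ball c R, CircleIntegrable (poissonKernel c w) c R := fun w hw =>
    (hcont w hw).circleIntegrable hR.le
  -- the bound B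
  have hcg : ContinuousOn (fun z => |g z - g z0|) (sphere c R) := (hg.sub continuousOn_const).abs
  obtain ⟨B, hB⟩ := (isCompact_sphere c R).bddAbove_image hcg
  have hB' : ∀ z ∈ sphere c R, |g z - g z0| ≤ B := fun z hz => hB ⟨z, hz, rfl⟩
  have hB0 : 0 ≤ B := (abs_nonneg _).trans (hB' z0 hz)
  rw [Metric.tendsto_nhds]
  intro ε hε
  -- δ
  obtain ⟨δ, hδ, hgδ⟩ := Metric.continuousOn_iff.1 hg z0 hz (ε / 2) (by linarith)
  -- the function w ↦ (R^2 - ‖w-c‖^2) * (B / (δ/2)^2) tends to 0 at z0
  have hlim : Tendsto (fun w : ℂ => B * ((R ^ 2 - ‖w - c‖ ^ 2) / (δ / 2) ^ 2)) (𝓝 z0) (𝓝 0) := by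
    have h1 : Continuous (fun w : ℂ => B * ((R ^ 2 - ‖w - c‖ ^ 2) / (δ / 2) ^ 2)) := by fun_prop
    have h2 := h1.tendsto z0
    have h3 : B * ((R ^ 2 - ‖z0 - c‖ ^ 2) / (δ / 2) ^ 2) = 0 := by
      rw [mem_sphere_iff_norm] at hz
      rw [hz]
      simp
    rw [h3] at h2
    exact h2
  have hev : ∀ᶠ w in 𝓝[ball c R] z0, B * ((R ^ 2 - ‖w - c‖ ^ 2) / (δ / 2) ^ 2) < ε / 2 :=
    (hlim.eventually (gt_mem_nhds (by linarith))).filter_mono nhdsWithin_le_nhds
  have hev2 : ∀ᶠ w in 𝓝[ball c R] z0, dist w z0 < δ / 2 :=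
    (Metric.eventually_nhds_iff.2 ⟨δ / 2, by linarith, fun {y} hy => hy⟩).filter_mono
      nhdsWithin_le_nhds
  filter_upwards [hev, hev2, self_mem_nhdsWithin] with w hw1 hw2 hwb
  have hsg : CircleIntegrable (poissonKernel c w • g) c R := by
    apply ContinuousOn.circleIntegrable hR.le
    exact (hcont w hwb).smul hg
  have hc : CircleIntegrable (g z0 • poissonKernel c w) c R := by
    apply ContinuousOn.circleIntegrable hR.le
    exact (hcont w hwb).const_smul _
  have hdiff : circleAverage (poissonKernel c w • g) c R - g z0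
      = circleAverage (poissonKernel c w • g - g z0 • poissonKernel c w) c R := by
    rw [circleAverage_sub hsg hc, circleAverage_smul, hone w hwb]
    simp
  rw [Real.dist_eq, hdiff]
  refine lt_of_le_of_lt abs_circleAverage_le_circleAverage_abs ?_
  have hpt : ∀ z ∈ sphere c |R|, |poissonKernel c w • g - g z0 • poissonKernel c w| z
      ≤ ((ε / 2) • poissonKernel c w + (fun _ : ℂ => B * ((R ^ 2 - ‖w - c‖ ^ 2) / (δ / 2) ^ 2)) : ℂ → ℝ) z := by
    intro z hzs
    rw [hR'] at hzs
    have hP := hnn w hwb z hzs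
    have e1 : |poissonKernel c w • g - g z0 • poissonKernel c w| z
        = poissonKernel c w z * |g z - g z0| := by
      simp only [Pi.abs_apply, Pi.sub_apply, Pi.smul_apply, Pi.mul_apply, smul_eq_mul]
      rw [show poissonKernel c w z * g z - g z0 * poissonKernel c w z
        = poissonKernel c w z * (g z - g z0) by ring, abs_mul, abs_of_nonneg hP]
    rw [e1]
    simp only [Pi.add_apply, Pi.smul_apply, smul_eq_mul]
    have hN := hnum w hwb
    have hNB : 0 ≤ B * ((R ^ 2 - ‖w - c‖ ^ 2) / (δ / 2) ^ 2) :=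
      mul_nonneg hB0 (div_nonneg hN (by positivity))
    by_cases hd : dist z z0 < δ
    · have h1 := hgδ z hzs hd
      rw [Real.dist_eq] at h1
      nlinarith [mul_le_mul_of_nonneg_left h1.le hP]
    · push Not at hd
      have h2 : δ / 2 ≤ ‖z - w‖ := by
        have h3 := dist_triangle z w z0
        rw [dist_eq_norm z w] at h3
        linarith
      have h4 : poissonKernel c w z ≤ (R ^ 2 - ‖w - c‖ ^ 2) / (δ / 2) ^ 2 := by
        rw [hval w z hzs]
        apply div_le_div_of_nonneg_left hN (by positivity)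
        exact pow_le_pow_left₀ (by linarith) h2 2
      have h5 : poissonKernel c w z * |g z - g z0|
          ≤ ((R ^ 2 - ‖w - c‖ ^ 2) / (δ / 2) ^ 2) * B :=
        mul_le_mul h4 (hB' z hzs) (abs_nonneg _) (hP.trans h4)
      have h6 : 0 ≤ ε / 2 * poissonKernel c w z := mul_nonneg (by linarith) hP
      linarith
  have hi1 : CircleIntegrable |poissonKernel c w • g - g z0 • poissonKernel c w| c R :=
    (hsg.sub hc).abs
  have hi2 : CircleIntegrable ((ε / 2) • poissonKernel c w) c R := (hci w hwb).const_smul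
  have hi3 : CircleIntegrable (fun _ => B * ((R ^ 2 - ‖w - c‖ ^ 2) / (δ / 2) ^ 2)) c R :=
    circleIntegrable_const _ _ _
  refine lt_of_le_of_lt (circleAverage_mono hi1 (hi2.add hi3) hpt) ?_
  rw [circleAverage_add hi2 hi3, circleAverage_smul, hone w hwb, circleAverage_const]
  simp only [smul_eq_mul, mul_one]
  linarith

end H46SB
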