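import Pool.Agent.H46.SB.Mc
import Pool.Agent.H46.SB.Me
import Pool.Agent.H46.SB.Mf

/-!
ROW Mg (MP_b319aa_NA, M6 d, e: Dirichlet problem on discs; functions which are sub- and superharmonic).
PROOF. `dirichlet`: `h w = circleAverage (poissonKernel c w • g) c R` in `ball c R`, `h z = g z` otherwise; harmonic in the ball by `pois_harm`
(`ContinuousOn.circleIntegrable`, `harmonicAt_congr_nhds`), continuous on the closed ball: at points of the ball by harmonicity, at `z0 ∈ sphere` by `pois_bdry`
(for points of the ball) and the continuity of `g` on the sphere (for points of the sphere).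
`harm_of_two`: for `x ∈ O` choose `closedBall x R ⊆ O`, `h` = Dirichlet solution with boundary values `F`; `SubH.le_harm` on `ball x R` for `F, h` and for `-F, -h`
(`closure (ball x R) = closedBall x R`, `frontier_ball`): `F = h` on the closed ball; so `F` is harmonic at `x`.
-/

set_option autoImplicit false

namespace H46SB

open H50NA MeasureTheory Metric Set Filter Topology InnerProductSpace Real

theorem dirichlet (c : ℂ) {R : ℝ} (hR : 0 < R) {g : ℂ → ℝ} (hg : ContinuousOn g (sphere c R)) :
    ∃ h : ℂ → ℝ, HarmonicOnNhd h (ball c R) ∧ ContinuousOn h (closedBall c R) ∧ ∀ z ∈ sphere c R, h z = g z := by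
  classical
  obtain ⟨P, hP⟩ : ∃ P : ℂ → ℝ, P = fun w => circleAverage (poissonKernel c w • g) c R := ⟨_, rfl⟩
  obtain ⟨h, hh⟩ : ∃ h : ℂ → ℝ, h = fun w => if w ∈ ball c R then P w else g w := ⟨_, rfl⟩
  have hb : ∀ w ∈ ball c R, h w = P w := by
    intro w hw
    rw [hh]
    exact if_pos hw
  have hs : ∀ w ∈ sphere c R, h w = g w := by
    intro w hw
    rw [hh]
    apply if_neg
    rw [mem_ball, not_lt]
    exact (mem_sphere.mp hw).ge
  have hharm : HarmonicOnNhd h (ball c R) := by
    intro x hx
    have h1 : h =ᶠ[𝓝 x] P := by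
      filter_upwards [isOpen_ball.mem_nhds hx] with w hw
      exact hb w hw
    rw [harmonicAt_congr_nhds h1, hP]
    exact pois_harm (hg.circleIntegrable hR.le) x hx
  refine ⟨h, hharm, ?_, hs⟩
  intro z hz
  by_cases hzb : z ∈ ball c R
  · exact (hharm z hzb).1.continuousAt.continuousWithinAt
  · have hzs : z ∈ sphere c R := by
      rw [mem_sphere]
      rw [mem_ball, not_lt] at hzb
      exact le_antisymm (mem_closedBall.mp hz) hzb
    rw [← ball_union_sphere, continuousWithinAt_union]
    constructor
    · unfold ContinuousWithinAt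
      rw [hs z hzs]
      have h1 := pois_bdry hR hg hzs
      refine h1.congr' ?_
      filter_upwards [self_mem_nhdsWithin] with w hw
      rw [hb w hw, hP]
    · exact (hg z hzs).congr (fun w hw => hs w hw) (hs z hzs)

theorem harm_of_two {O : Set ℂ} (hO : IsOpen O) {F : ℂ → ℝ} (hF : SubH F O) (hF' : SubH (fun x => - F x) O) :
    HarmonicOnNhd F O := by
  intro x hx
  obtain ⟨ε, hε, hεO⟩ := Metric.isOpen_iff.mp hO x hx
  obtain ⟨R, hR, hRε⟩ : ∃ R, 0 < R ∧ R < ε := ⟨ε / 2, by linarith, by linarith⟩
  have hcb : closedBall x R ⊆ O := (closedBall_subset_ball hRε).trans hεO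
  have hbO : ball x R ⊆ O := ball_subset_closedBall.trans hcb
  have hFc : ContinuousOn F (closedBall x R) := hF.1.mono hcb
  obtain ⟨h, h1, h2, h3⟩ := dirichlet x hR (hFc.mono sphere_subset_closedBall)
  have hcl : closure (ball x R) = closedBall x R := closure_ball x hR.ne'
  have hfr : frontier (ball x R) = sphere x R := frontier_ball x hR.ne'
  have hle : ∀ y ∈ closedBall x R, F y ≤ h y := by
    have h4 := SubH.le_harm isOpen_ball isBounded_ball (SubH.mono_set hF hbO) (by rw [hcl]; exact hFc) h1
      (by rw [hcl]; exact h2) (fun y hy => by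
        rw [hfr] at hy
        exact (h3 y hy).ge)
    rw [hcl] at h4
    exact h4
  have hneg : HarmonicOnNhd (fun y => - h y) (ball x R) := by
    intro y hy
    exact (h1 y hy).neg
  have hge : ∀ y ∈ closedBall x R, - F y ≤ - h y := by
    have h4 := SubH.le_harm isOpen_ball isBounded_ball (SubH.mono_set hF' hbO) (by rw [hcl]; exact hFc.neg)
      hneg (by rw [hcl]; exact h2.neg) (fun y hy => by
        rw [hfr] at hy
        rw [h3 y hy])
    rw [hcl] at h4
    exact h4
  have h5 : F =ᶠ[𝓝 x] h := by
    filter_upwards [isOpen_ball.mem_nhds (mem_ball_self hR)] with y hy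
    have h6 := ball_subset_closedBall hy
    exact le_antisymm (hle y h6) (by linarith [hge y h6])
  rw [harmonicAt_congr_nhds h5]
  exact h1 x (mem_ball_self hR)

end H46SB
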