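import Pool.Agent.H46.SB.Hy
import Pool.Agent.H80.NA.Cls

/-!
MP_b319aa_NA, S6: cutoff functions (helper46).
-/

set_option autoImplicit false

namespace H46SB

open H50NA H80HM MeasureTheory Set Filter Topology
open scoped NNReal

/-- small sets carry small integrals -/
lemma small_near {m : ℝ × ℝ → ℝ} {W : Set (ℝ × ℝ)} (hW : MeasurableSet W) (hm : IntegrableOn m W)
    {A : ℝ → Set (ℝ × ℝ)} (hA : ∀ a b, a ≤ b → A a ⊆ A b) (hAm : ∀ a, MeasurableSet (A a))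
    (h0 : volume (W ∩ ⋂ n : ℕ, A (1 / ((n : ℝ) + 1))) = 0) {e : ℝ} (he : 0 < e) :
    ∃ R > 0, ∀ R', R' ≤ R → |∫ z in W ∩ A R', m z| ≤ e ∧ ∀ B, MeasurableSet B → B ⊆ A R' → |∫ z in W ∩ B, m z| ≤ e := by
  have h1 : Tendsto (fun n : ℕ => ∫ z in W ∩ A (1 / ((n : ℝ) + 1)), |m z|) atTop
      (𝓝 (∫ z in ⋂ n : ℕ, (W ∩ A (1 / ((n : ℝ) + 1))), |m z|)) := by
    refine tendsto_setIntegral_of_antitone (fun n => hW.inter (hAm _)) ?_ ⟨0, ?_⟩
    · intro i j hij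
      refine inter_subset_inter_right _ (hA _ _ ?_)
      have h2 : (i : ℝ) ≤ j := by exact_mod_cast hij
      exact one_div_le_one_div_of_le (by positivity) (by linarith)
    · exact (hm.mono_set inter_subset_left).abs
  have h2 : ∫ z in ⋂ n : ℕ, (W ∩ A (1 / ((n : ℝ) + 1))), |m z| = 0 := by
    rw [← inter_iInter]
    exact setIntegral_measure_zero _ h0
  rw [h2] at h1
  obtain ⟨n, hn⟩ := (h1.eventually (eventually_le_nhds he)).exists
  have key : ∀ R', R' ≤ 1 / ((n : ℝ) + 1) → ∀ B, MeasurableSet B → B ⊆ A R' → |∫ z in W ∩ B, m z| ≤ e := by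
    intro R' hR' B hB hBA
    have h3 : |∫ z in W ∩ B, m z| ≤ ∫ z in W ∩ B, |m z| := by
      simpa only [Real.norm_eq_abs] using norm_integral_le_integral_norm (μ := volume.restrict (W ∩ B)) m
    refine h3.trans (le_trans ?_ hn)
    refine setIntegral_mono_set (hm.mono_set inter_subset_left).abs (Eventually.of_forall fun z => abs_nonneg _) ?_
    exact (inter_subset_inter_right _ (hBA.trans (hA _ _ hR'))).eventuallyLE
  refine ⟨1 / ((n : ℝ) + 1), by positivity, fun R' hR' => ⟨key R' hR' _ (hAm _) subset_rfl, key R' hR'⟩⟩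

/-- the capacity property -/
def Cap (r : ℝ) (l : ℝ × ℝ → ℝ) (e : ℝ) : Prop :=
  ∀ q : ℝ × ℝ → ℝ, Lpo q (D \ P) → (∀ z ∈ Zr r, q z = 0) → IntegrableOn (fun z => q z ^ 2) U →
    IntegrableOn (gr q) U → IntegrableOn (fun z => gr l z * q z ^ 2) U ∧
      ∫ z in U, gr l z * q z ^ 2 ≤ e * ∫ z in U, (q z ^ 2 + gr q z)

lemma gr_mul {l1 l2 : ℝ × ℝ → ℝ} {x : ℝ × ℝ} (h1 : 0 ≤ l1 x ∧ l1 x ≤ 1) (h2 : 0 ≤ l2 x ∧ l2 x ≤ 1)
    (d1 : DifferentiableAt ℝ l1 x) (d2 : DifferentiableAt ℝ l2 x) :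
    gr (fun z => l1 z * l2 z) x ≤ 2 * (gr l1 x + gr l2 x) := by
  have e := (d1.hasFDerivAt.mul d2.hasFDerivAt)
  have e1 : ∀ t : ℝ × ℝ, fderiv ℝ (fun z => l1 z * l2 z) x t ^ 2 ≤
      2 * (fderiv ℝ l1 x t ^ 2 + fderiv ℝ l2 x t ^ 2) := by
    intro t
    have e2 : fderiv ℝ (fun z => l1 z * l2 z) x = l1 x • fderiv ℝ l2 x + l2 x • fderiv ℝ l1 x := e.fderiv
    rw [e2]
    simp only [add_apply, smul_apply, smul_eq_mul]
    set a := fderiv ℝ l1 x t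
    set b := fderiv ℝ l2 x t
    have h3 : (l1 x * b) ^ 2 ≤ b ^ 2 := by
      rw [mul_pow]
      exact mul_le_of_le_one_left (sq_nonneg _) (pow_le_one₀ h1.1 h1.2)
    have h4 : (l2 x * a) ^ 2 ≤ a ^ 2 := by
      rw [mul_pow]
      exact mul_le_of_le_one_left (sq_nonneg _) (pow_le_one₀ h2.1 h2.2)
    nlinarith [sq_nonneg (l1 x * b - l2 x * a)]
  rw [gr_eq (d1.fun_mul d2), gr_eq d1, gr_eq d2]
  have e3 := e1 (1, 0)
  have e4 := e1 (0, 1)
  linarith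

lemma lip_mul {l1 l2 : ℝ × ℝ → ℝ} {K1 K2 : ℝ≥0} (h1 : LipschitzWith K1 l1) (h2 : LipschitzWith K2 l2)
    (a1 : ∀ x, 0 ≤ l1 x ∧ l1 x ≤ 1) (a2 : ∀ x, 0 ≤ l2 x ∧ l2 x ≤ 1) :
    LipschitzWith (K1 + K2) (fun z => l1 z * l2 z) := by
  refine LipschitzWith.of_dist_le_mul fun x y => ?_
  have e1 := h1.dist_le_mul x y
  have e2 := h2.dist_le_mul x y
  rw [Real.dist_eq] at e1 e2 ⊢
  have e3 : l1 x * l2 x - l1 y * l2 y = (l1 x - l1 y) * l2 x + l1 y * (l2 x - l2 y) := by ring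
  rw [e3]
  refine (abs_add_le _ _).trans ?_
  rw [abs_mul, abs_mul, abs_of_nonneg (a2 x).1, abs_of_nonneg (a1 y).1]
  push_cast
  rw [add_mul]
  refine add_le_add ?_ ?_
  · calc |l1 x - l1 y| * l2 x ≤ |l1 x - l1 y| * 1 := mul_le_mul_of_nonneg_left (a2 x).2 (abs_nonneg _)
      _ ≤ _ := by rw [mul_one]; exact e1
  · calc l1 y * |l2 x - l2 y| ≤ 1 * |l2 x - l2 y| := mul_le_mul_of_nonneg_right (a1 y).2 (abs_nonneg _)
      _ ≤ _ := by rw [one_mul]; exact e2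

lemma cap_mul {r : ℝ} {l1 l2 : ℝ × ℝ → ℝ} {K1 K2 : ℝ≥0} (h1 : LipschitzWith K1 l1) (h2 : LipschitzWith K2 l2)
    (a1 : ∀ x, 0 ≤ l1 x ∧ l1 x ≤ 1) (a2 : ∀ x, 0 ≤ l2 x ∧ l2 x ≤ 1) {e1 e2 : ℝ} (c1 : Cap r l1 e1) (c2 : Cap r l2 e2) :
    Cap r (fun z => l1 z * l2 z) (2 * (e1 + e2)) := by
  intro q hq hq0 hq2 hg
  obtain ⟨i1, j1⟩ := c1 q hq hq0 hq2 hg
  obtain ⟨i2, j2⟩ := c2 q hq hq0 hq2 hg
  have hle : ∀ᵐ z ∂(volume.restrict U), gr (fun z => l1 z * l2 z) z * q z ^ 2 ≤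
      2 * (gr l1 z * q z ^ 2 + gr l2 z * q z ^ 2) := by
    have d1 := diff_ae isOpen_univ (lip_lpo h1 univ)
    have d2 := diff_ae isOpen_univ (lip_lpo h2 univ)
    rw [Measure.restrict_univ] at d1 d2
    filter_upwards [ae_restrict_of_ae d1, ae_restrict_of_ae d2] with z x1 x2
    have h3 := gr_mul (a1 z) (a2 z) x1 x2
    calc gr (fun z => l1 z * l2 z) z * q z ^ 2 ≤ (2 * (gr l1 z + gr l2 z)) * q z ^ 2 :=
        mul_le_mul_of_nonneg_right h3 (sq_nonneg _)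
      _ = _ := by ring
  have hint : IntegrableOn (fun z => 2 * (gr l1 z * q z ^ 2 + gr l2 z * q z ^ 2)) U := (i1.add i2).const_mul 2
  have hi : IntegrableOn (fun z => gr (fun z => l1 z * l2 z) z * q z ^ 2) U := by
    refine hint.mono' ?_ ?_
    · exact (gr_lip_meas (lip_mul h1 h2 a1 a2) U).mul ((lpo_meas hq).pow 2)
    · filter_upwards [hle] with z hz
      rw [Real.norm_of_nonneg (mul_nonneg (gr_nonneg _ _) (sq_nonneg _))]
      exact hz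
  refine ⟨hi, ?_⟩
  calc ∫ z in U, gr (fun z => l1 z * l2 z) z * q z ^ 2 ≤ ∫ z in U, 2 * (gr l1 z * q z ^ 2 + gr l2 z * q z ^ 2) :=
      integral_mono_ae hi hint hle
    _ = 2 * ((∫ z in U, gr l1 z * q z ^ 2) + ∫ z in U, gr l2 z * q z ^ 2) := by
      rw [integral_const_mul, integral_add i1 i2]
    _ ≤ _ := by linarith

lemma P_fin : (P : Set (ℝ × ℝ)).Finite := Hg_P_fin

lemma mem_P {a b : ℝ} : (a, b) ∈ P ↔ (a = 0 ∨ a = 1 / 2 ∨ a = 1) ∧ (b = 0 ∨ b = 1 / 2) := by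
  unfold P
  simp [Set.mem_prod]

lemma P_sub : P ⊆ D := by
  rintro ⟨a, b⟩ h
  rw [mem_P] at h
  obtain ⟨h1, h2⟩ := h
  refine ⟨⟨?_, ?_⟩, ⟨?_, ?_⟩⟩ <;> rcases h1 with rfl | rfl | rfl <;> rcases h2 with rfl | rfl <;> norm_num

/-- the compact set off the first two cutoffs -/
def Sd (r d : ℝ) : Set (ℝ × ℝ) := {z | z ∈ D ∧ (∀ p ∈ P, d ≤ dist z p) ∧ r + d ≤ dist z (1 / 4, 1 / 4)}

lemma Sd_closed (r d : ℝ) : IsClosed (Sd r d) := by
  have h1 : Sd r d = D ∩ ((⋂ p ∈ P, {z | d ≤ dist z p}) ∩ {z | r + d ≤ dist z (1 / 4, 1 / 4)}) := by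
    ext z
    simp only [Sd, mem_ofPred_eq, mem_inter_iff, mem_iInter]
  rw [h1]
  refine IsClosed.inter (isClosed_Icc.prod isClosed_Icc) (IsClosed.inter ?_ ?_)
  · exact isClosed_biInter fun p _ => isClosed_le continuous_const (continuous_id.dist continuous_const)
  · exact isClosed_le continuous_const (continuous_id.dist continuous_const)

lemma Sd_compact (r d : ℝ) : IsCompact (Sd r d) :=
  (isCompact_Icc.prod isCompact_Icc).of_isClosed_subset (Sd_closed r d) fun _ h => h.1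

lemma Sd_sub {r d : ℝ} (hd : 0 < d) : Sd r d ⊆ Gd r := by
  rintro z ⟨h1, h2, h3⟩
  refine ⟨h1, ?_⟩
  rintro (h4 | h4)
  · have := h2 z h4
    rw [dist_self] at this
    linarith
  · have h5 : dist z (1 / 4, 1 / 4) ≤ r := h4
    linarith

lemma dist_pair (a b c d : ℝ) : dist ((a, b) : ℝ × ℝ) (c, d) = max |a - c| |b - d| := by
  rw [Prod.dist_eq, Real.dist_eq, Real.dist_eq]

lemma Sd_side {r d a v : ℝ} (hd : 0 < d) (hd4 : d ≤ 1 / 4) (hrd : r + d ≤ 1 / 4) (ha : a = 0 ∨ a = 1) :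
    ((a, v) : ℝ × ℝ) ∈ Sd r d ↔ d ≤ v ∧ d ≤ 1 / 2 - v := by
  constructor
  · rintro ⟨⟨h1, h2⟩, h3, -⟩
    have h4 : 0 ≤ v ∧ v ≤ 1 / 2 := h2
    have h5 := h3 (a, 0) (mem_P.2 ⟨by tauto, Or.inl rfl⟩)
    have h6 := h3 (a, 1 / 2) (mem_P.2 ⟨by tauto, Or.inr rfl⟩)
    rw [dist_pair, sub_self, abs_zero, max_eq_right (abs_nonneg _)] at h5 h6
    rw [sub_zero, abs_of_nonneg h4.1] at h5
    rw [abs_of_nonpos (by linarith)] at h6
    exact ⟨h5, by linarith⟩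
  · rintro ⟨h1, h2⟩
    refine ⟨⟨?_, ?_, ?_⟩, ?_, ?_⟩
    · rcases ha with rfl | rfl
      · exact ⟨le_rfl, zero_le_one⟩
      · exact ⟨zero_le_one, le_rfl⟩
    · show 0 ≤ v; linarith
    · show v ≤ 1 / 2; linarith
    · rintro ⟨c, b⟩ hp
      rw [mem_P] at hp
      obtain ⟨hc, hb⟩ := hp
      rw [dist_pair]
      have hb' : d ≤ |v - b| := by
        rcases hb with rfl | rfl
        · rw [sub_zero]; exact h1.trans (le_abs_self _)
        · rw [abs_sub_comm]; exact h2.trans (le_abs_self _)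
      exact hb'.trans (le_max_right _ _)
    · rw [dist_pair]
      refine le_trans ?_ (le_max_left _ _)
      rcases ha with rfl | rfl
      · rw [abs_of_nonpos (by norm_num)]; linarith
      · rw [abs_of_nonneg (by norm_num)]; linarith

lemma Sd_hor {r d u b : ℝ} (hd : 0 < d) (hd4 : d ≤ 1 / 4) (hrd : r + d ≤ 1 / 4) (hb : b = 0 ∨ b = 1 / 2) :
    ((u, b) : ℝ × ℝ) ∈ Sd r d ↔ d ≤ u ∧ d ≤ 1 - u ∧ d ≤ |u - 1 / 2| := by
  constructor
  · rintro ⟨⟨h1, h2⟩, h3, -⟩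
    have h4 : 0 ≤ u ∧ u ≤ 1 := h1
    have h5 := h3 (0, b) (mem_P.2 ⟨Or.inl rfl, hb⟩)
    have h6 := h3 (1, b) (mem_P.2 ⟨Or.inr (Or.inr rfl), hb⟩)
    have h7 := h3 (1 / 2, b) (mem_P.2 ⟨Or.inr (Or.inl rfl), hb⟩)
    rw [dist_pair, sub_self, abs_zero, max_eq_left (abs_nonneg _)] at h5 h6 h7
    rw [sub_zero, abs_of_nonneg h4.1] at h5
    rw [abs_of_nonpos (by linarith)] at h6
    exact ⟨h5, by linarith, h7⟩
  · rintro ⟨h1, h2, h3⟩
    refine ⟨⟨⟨?_, ?_⟩, ?_⟩, ?_, ?_⟩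
    · show 0 ≤ u; linarith
    · show u ≤ 1; linarith
    · rcases hb with rfl | rfl
      · exact ⟨le_rfl, by norm_num⟩
      · exact ⟨by norm_num, le_rfl⟩
    · rintro ⟨c, b'⟩ hp
      rw [mem_P] at hp
      obtain ⟨hc, -⟩ := hp
      rw [dist_pair]
      have hc' : d ≤ |u - c| := by
        rcases hc with rfl | rfl | rfl
        · rw [sub_zero]; exact h1.trans (le_abs_self _)
        · exact h3
        · rw [abs_sub_comm]; exact h2.trans (le_abs_self _)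
      exact hc'.trans (le_max_left _ _)
    · rw [dist_pair]
      refine le_trans ?_ (le_max_right _ _)
      rcases hb with rfl | rfl
      · rw [abs_of_nonpos (by norm_num)]; linarith
      · rw [abs_of_nonneg (by norm_num)]; linarith

lemma Sd_C {r d : ℝ} (hd : 0 < d) (hd4 : d ≤ 1 / 4) (hrd : r + d ≤ 1 / 4) (v : ℝ) :
    ((0, v) : ℝ × ℝ) ∈ Sd r d ↔ (1, v) ∈ Sd r d := by
  rw [Sd_side hd hd4 hrd (Or.inl rfl), Sd_side hd hd4 hrd (Or.inr rfl)]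

lemma Sd_A {r d b : ℝ} (hd : 0 < d) (hd4 : d ≤ 1 / 4) (hrd : r + d ≤ 1 / 4) (hb : b = 0 ∨ b = 1 / 2) (u : ℝ) :
    ((u, b) : ℝ × ℝ) ∈ Sd r d ↔ (1 - u, b) ∈ Sd r d := by
  rw [Sd_hor hd hd4 hrd hb, Sd_hor hd hd4 hrd hb]
  have e1 : |1 - u - 1 / 2| = |u - 1 / 2| := by
    rw [show 1 - u - 1 / 2 = -(u - 1 / 2) by ring, abs_neg]
  rw [e1, sub_sub_cancel]
  tauto

theorem s6_cut {r : ℝ} (hr : 0 < r) (hr8 : r < 1 / 8) {Z : Set (ℝ × ℝ)} (hZ : Z ⊆ Gd r)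
    (hfin : ∀ S ⊆ Gd r, IsCompact S → (Z ∩ S).Finite)
    (hC : ∀ v ∈ Ioo (0:ℝ) (1/2), (0, v) ∈ Z ↔ (1, v) ∈ Z)
    (hA : ∀ u ∈ Ioo (0:ℝ) 1, (u, 0) ∈ Z ↔ (1 - u, 0) ∈ Z)
    (hB : ∀ u ∈ Ioo (0:ℝ) 1, (u, 1/2) ∈ Z ↔ (1 - u, 1/2) ∈ Z)
    {m : ℝ × ℝ → ℝ} (hm : IntegrableOn m (U \ Zr r)) (hm0 : ∀ z, 0 ≤ m z) {e : ℝ} (he : 0 < e) :
    ∃ (l : ℝ × ℝ → ℝ) (S : Set (ℝ × ℝ)), (∃ K : ℝ≥0, LipschitzWith K l) ∧ (∀ z, 0 ≤ l z ∧ l z ≤ 1) ∧
      Sy l ∧ IsCompact S ∧ S ⊆ Gd r \ Z ∧ (∀ z ∈ D, z ∉ S → l z = 0) ∧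
      (∫ z in (U \ Zr r) ∩ {z | l z ≠ 1}, m z ≤ e) ∧
      ∀ q : ℝ × ℝ → ℝ, Lpo q (D \ P) → (∀ z ∈ Zr r, q z = 0) → IntegrableOn (fun z => q z ^ 2) U →
        IntegrableOn (gr q) U → IntegrableOn (fun z => gr l z * q z ^ 2) U ∧
          ∫ z in U, gr l z * q z ^ 2 ≤ e * ∫ z in U, (q z ^ 2 + gr q z) := by
  classical
  have hWm : MeasurableSet (U \ Zr r) := U_meas.diff (by unfold Zr; exact measurableSet_closedBall)
  have hcl : ∀ (F : Set (ℝ × ℝ)), F.Finite → ∀ a, MeasurableSet {z : ℝ × ℝ | ∃ p ∈ F, dist z p < a} := by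
    intro F hF a
    have : {z : ℝ × ℝ | ∃ p ∈ F, dist z p < a} = ⋃ p ∈ F, Metric.ball p a := by
      ext z; simp [Metric.mem_ball]
    rw [this]
    exact (isOpen_biUnion fun p _ => Metric.isOpen_ball).measurableSet
  have hnear : ∀ (F : Set (ℝ × ℝ)), F.Finite → ∃ R > 0, ∀ R' ≤ R, ∀ B, MeasurableSet B →
      B ⊆ {z : ℝ × ℝ | ∃ p ∈ F, dist z p < R'} → |∫ z in (U \ Zr r) ∩ B, m z| ≤ e / 3 := by
    intro F hF
    obtain ⟨R, hR, h⟩ := small_near hWm hm (A := fun a => {z : ℝ × ℝ | ∃ p ∈ F, dist z p < a})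
      (fun a b hab z ⟨p, hp, hz⟩ => ⟨p, hp, hz.trans_le hab⟩) (hcl F hF) (by
        refine measure_mono_null inter_subset_right (measure_mono_null (t := F) ?_ (hF.measure_zero _))
        intro z hz
        by_contra hzF
        obtain ⟨ρ, hρ, hρ'⟩ := Metric.isOpen_iff.1 hF.isClosed.isOpen_compl z hzF
        obtain ⟨n, hn⟩ := exists_nat_one_div_lt hρ
        rw [mem_iInter] at hz
        obtain ⟨p, hp, hz⟩ := hz n
        exact hρ' (Metric.mem_ball.2 ((dist_comm p z).trans_lt (hz.trans hn))) hp) (show 0 < e / 3 by positivity)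
    exact ⟨R, hR, fun R' hR' => (h R' hR').2⟩
  -- punctures
  obtain ⟨R1, hR1, n1⟩ := hnear P P_fin
  obtain ⟨l1, ⟨K1, hK1⟩, h011, ⟨d1, hd1, hz1⟩, ho1, hC1, hA1, hB1, cap1⟩ := cut_fin P_fin.toFinset
    (fun p hp => P_sub (P_fin.mem_toFinset.1 hp))
    (fun v => by simp only [Finite.mem_toFinset, mem_P]; norm_num)
    (fun u => by
      simp only [Finite.mem_toFinset, mem_P]
      constructor
      · rintro ⟨h | h | h, h'⟩ <;> subst h <;> norm_num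
      · rintro ⟨h | h | h, h'⟩
        · exact ⟨Or.inr (Or.inr (by linarith)), by norm_num⟩
        · exact ⟨Or.inr (Or.inl (by linarith)), by norm_num⟩
        · exact ⟨Or.inl (by linarith), by norm_num⟩)
    (fun u => by
      simp only [Finite.mem_toFinset, mem_P]
      constructor
      · rintro ⟨h | h | h, h'⟩ <;> subst h <;> norm_num
      · rintro ⟨h | h | h, h'⟩
        · exact ⟨Or.inr (Or.inr (by linarith)), by norm_num⟩
        · exact ⟨Or.inr (Or.inl (by linarith)), by norm_num⟩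
        · exact ⟨Or.inl (by linarith), by norm_num⟩)
    hR1 (show 0 < e / 16 by positivity)
  -- the square
  obtain ⟨R2, hR2, n2⟩ := small_near hWm hm (A := fun a => {z : ℝ × ℝ | dist z (1 / 4, 1 / 4) < r + a})
      (fun a b hab z hz => lt_of_lt_of_le (show dist z (1 / 4, 1 / 4) < r + a from hz) (by linarith))
      (fun a => (isOpen_lt (continuous_id.dist continuous_const) continuous_const).measurableSet) (by
        have : (U \ Zr r) ∩ ⋂ n : ℕ, {z : ℝ × ℝ | dist z (1 / 4, 1 / 4) < r + 1 / ((n : ℝ) + 1)} = ∅ := by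
          ext z
          simp only [mem_inter_iff, mem_iInter, mem_empty_iff_false, iff_false, not_and]
          intro hz hz2
          apply hz.2
          show dist z (1 / 4, 1 / 4) ≤ r
          refine le_of_forall_pos_le_add fun ρ hρ => ?_
          obtain ⟨n, hn⟩ := exists_nat_one_div_lt hρ
          have h3 : dist z (1 / 4, 1 / 4) < r + 1 / ((n : ℝ) + 1) := hz2 n
          linarith
        rw [this, measure_empty]) (show 0 < e / 3 by positivity)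
  obtain ⟨R2', hR2', hR2a, hR2b⟩ : ∃ R2' > 0, R2' ≤ R2 ∧ R2' ≤ 1 / 16 :=
    ⟨min R2 (1 / 16), lt_min hR2 (by norm_num), min_le_left _ _, min_le_right _ _⟩
  obtain ⟨l2, ⟨K2, hK2⟩, h012, ⟨d2, hd2, hz2⟩, ho2, cap2⟩ := cut_Z hr hR2' (show r + R2' < 1 / 4 by linarith)
    (show 0 < e / 16 by positivity)
  -- the compact set
  obtain ⟨d, hd, hdd1, hdd2, hd8⟩ : ∃ d > 0, d ≤ d1 ∧ d ≤ d2 ∧ d ≤ 1 / 8 :=
    ⟨min (min d1 d2) (1 / 8), lt_min (lt_min hd1 hd2) (by norm_num), (min_le_left _ _).trans (min_le_left _ _),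
      (min_le_left _ _).trans (min_le_right _ _), min_le_right _ _⟩
  have hoff : ∀ z ∈ D, z ∉ Sd r d → l1 z * l2 z = 0 := by
    intro z hzD hz
    by_cases h1 : ∀ p ∈ P, d ≤ dist z p
    · have h2 : ¬ (r + d ≤ dist z (1 / 4, 1 / 4)) := fun h => hz ⟨hzD, h1, h⟩
      rw [not_le] at h2
      rw [hz2 z (by linarith), mul_zero]
    · push Not at h1
      obtain ⟨p, hp, hp2⟩ := h1
      rw [hz1 p (P_fin.mem_toFinset.2 hp) z (by linarith), zero_mul]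
  have hZf : (Z ∩ Sd r d).Finite := hfin _ (Sd_sub hd) (Sd_compact r d)
  have hd4 : d ≤ 1 / 4 := by linarith
  have hrd : r + d ≤ 1 / 4 := by linarith
  obtain ⟨R3, hR3, n3⟩ := hnear _ hZf
  have hP1 : ∀ v : ℝ, ((0, v) : ℝ × ℝ) ∈ Sd r d → v ∈ Ioo (0:ℝ) (1/2) := fun v hv => by
    rw [Sd_side hd hd4 hrd (Or.inl rfl)] at hv
    exact ⟨by linarith, by linarith⟩
  have hP2 : ∀ b u : ℝ, (b = 0 ∨ b = 1 / 2) → ((u, b) : ℝ × ℝ) ∈ Sd r d → u ∈ Ioo (0:ℝ) 1 := fun b u hb hv => by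
    rw [Sd_hor hd hd4 hrd hb] at hv
    exact ⟨by linarith, by linarith⟩
  obtain ⟨l3, ⟨K3, hK3⟩, h013, ⟨d3, hd3, hz3⟩, ho3, hC3, hA3, hB3, cap3⟩ := cut_fin hZf.toFinset
    (fun p hp => (hZf.mem_toFinset.1 hp).2.1)
    (fun v => by
      rw [Finite.mem_toFinset, Finite.mem_toFinset]
      constructor
      · rintro ⟨h1, h2⟩
        exact ⟨(hC v (hP1 v h2)).1 h1, (Sd_C hd hd4 hrd v).1 h2⟩
      · rintro ⟨h1, h2⟩
        have h3 := (Sd_C hd hd4 hrd v).2 h2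
        exact ⟨(hC v (hP1 v h3)).2 h1, h3⟩)
    (fun u => by
      rw [Finite.mem_toFinset, Finite.mem_toFinset]
      constructor
      · rintro ⟨h1, h2⟩
        exact ⟨(hA u (hP2 0 u (Or.inl rfl) h2)).1 h1, (Sd_A hd hd4 hrd (Or.inl rfl) u).1 h2⟩
      · rintro ⟨h1, h2⟩
        have h3 := (Sd_A hd hd4 hrd (Or.inl rfl) u).2 h2
        exact ⟨(hA u (hP2 0 u (Or.inl rfl) h3)).2 h1, h3⟩)
    (fun u => by
      rw [Finite.mem_toFinset, Finite.mem_toFinset]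
      constructor
      · rintro ⟨h1, h2⟩
        exact ⟨(hB u (hP2 (1 / 2) u (Or.inr rfl) h2)).1 h1, (Sd_A hd hd4 hrd (Or.inr rfl) u).1 h2⟩
      · rintro ⟨h1, h2⟩
        have h3 := (Sd_A hd hd4 hrd (Or.inr rfl) u).2 h2
        exact ⟨(hB u (hP2 (1 / 2) u (Or.inr rfl) h3)).2 h1, h3⟩)
    hR3 (show 0 < e / 8 by positivity)
  have h0112 : ∀ x, 0 ≤ l1 x * l2 x ∧ l1 x * l2 x ≤ 1 := fun x =>
    ⟨mul_nonneg (h011 x).1 (h012 x).1, mul_le_one₀ (h011 x).2 (h012 x).1 (h012 x).2⟩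
  have hK12 := lip_mul hK1 hK2 h011 h012
  have hK := lip_mul hK12 hK3 h0112 h013
  have hcont : Continuous (fun z => l1 z * l2 z * l3 z) := hK.continuous
  have hbd2 : ∀ z : ℝ × ℝ, 1 / 4 ≤ dist z (1 / 4, 1 / 4) → l2 z = 1 := fun z hz => ho2 z (by linarith)
  have hside : ∀ a v : ℝ, (a = 0 ∨ a = 1) → 1 / 4 ≤ dist ((a, v) : ℝ × ℝ) (1 / 4, 1 / 4) := by
    intro a v ha
    rw [dist_pair]
    refine le_trans ?_ (le_max_left _ _)
    rcases ha with rfl | rfl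
    · rw [abs_of_nonpos (by norm_num)]; norm_num
    · rw [abs_of_nonneg (by norm_num)]; norm_num
  have hhor : ∀ b u : ℝ, (b = 0 ∨ b = 1 / 2) → 1 / 4 ≤ dist ((u, b) : ℝ × ℝ) (1 / 4, 1 / 4) := by
    intro b u hb
    rw [dist_pair]
    refine le_trans ?_ (le_max_right _ _)
    rcases hb with rfl | rfl
    · rw [abs_of_nonpos (by norm_num)]; norm_num
    · rw [abs_of_nonneg (by norm_num)]; norm_num
  refine ⟨fun z => l1 z * l2 z * l3 z, Sd r d ∩ {z | ∀ p ∈ Z ∩ Sd r d, d3 ≤ dist z p}, ⟨_, hK⟩, fun z =>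
    ⟨mul_nonneg (h0112 z).1 (h013 z).1, mul_le_one₀ (h0112 z).2 (h013 z).1 (h013 z).2⟩, ?_, ?_, ?_, ?_, ?_, ?_⟩
  · constructor
    · intro v _
      show l1 (1, v) * l2 (1, v) * l3 (1, v) = l1 (0, v) * l2 (0, v) * l3 (0, v)
      rw [hC1, hC3, hbd2 _ (hside 1 v (Or.inr rfl)), hbd2 _ (hside 0 v (Or.inl rfl))]
    · intro u _
      show l1 (1 - u, 0) * l2 (1 - u, 0) * l3 (1 - u, 0) = l1 (u, 0) * l2 (u, 0) * l3 (u, 0)
      rw [hA1, hA3, hbd2 _ (hhor 0 _ (Or.inl rfl)), hbd2 _ (hhor 0 _ (Or.inl rfl))]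
    · intro u _
      show l1 (1 - u, 1 / 2) * l2 (1 - u, 1 / 2) * l3 (1 - u, 1 / 2) = l1 (u, 1 / 2) * l2 (u, 1 / 2) * l3 (u, 1 / 2)
      rw [hB1, hB3, hbd2 _ (hhor (1 / 2) _ (Or.inr rfl)), hbd2 _ (hhor (1 / 2) _ (Or.inr rfl))]
  · refine (Sd_compact r d).inter_right ?_
    have : {z : ℝ × ℝ | ∀ p ∈ Z ∩ Sd r d, d3 ≤ dist z p} = ⋂ p ∈ Z ∩ Sd r d, {z | d3 ≤ dist z p} := by
      ext z
      simp only [mem_ofPred_eq, mem_iInter]
    rw [this]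
    exact isClosed_biInter fun p _ => isClosed_le continuous_const (continuous_id.dist continuous_const)
  · rintro z ⟨h1, h2⟩
    refine ⟨Sd_sub hd h1, fun h3 => ?_⟩
    have h4 := h2 z ⟨h3, h1⟩
    rw [dist_self] at h4
    linarith
  · intro z hzD hz
    show l1 z * l2 z * l3 z = 0
    by_cases h1 : z ∈ Sd r d
    · have h2 : ¬ (∀ p ∈ Z ∩ Sd r d, d3 ≤ dist z p) := fun h => hz ⟨h1, h⟩
      push Not at h2
      obtain ⟨p, hp, hp2⟩ := h2
      rw [hz3 p (hZf.mem_toFinset.2 hp) z hp2.le, mul_zero]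
    · rw [hoff z hzD h1, zero_mul]
  · have hBm : MeasurableSet {z : ℝ × ℝ | l1 z * l2 z * l3 z ≠ 1} :=
      (isOpen_ne_fun hcont continuous_const).measurableSet
    obtain ⟨B1, hB1e⟩ : ∃ B1, B1 = {z : ℝ × ℝ | ∃ p ∈ P, dist z p < R1} := ⟨_, rfl⟩
    obtain ⟨B2, hB2e⟩ : ∃ B2, B2 = {z : ℝ × ℝ | dist z (1 / 4, 1 / 4) < r + R2'} := ⟨_, rfl⟩
    obtain ⟨B3, hB3e⟩ : ∃ B3, B3 = {z : ℝ × ℝ | ∃ p ∈ Z ∩ Sd r d, dist z p < R3} := ⟨_, rfl⟩
    have hB1m : MeasurableSet B1 := by rw [hB1e]; exact hcl P P_fin _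
    have hB2m : MeasurableSet B2 := by
      rw [hB2e]; exact (isOpen_lt (continuous_id.dist continuous_const) continuous_const).measurableSet
    have hB3m : MeasurableSet B3 := by rw [hB3e]; exact hcl _ hZf _
    have s1 := (le_abs_self _).trans (n1 R1 le_rfl B1 hB1m hB1e.subset)
    have s2 := (le_abs_self _).trans ((n2 R2' hR2a).2 B2 hB2m hB2e.subset)
    have s3 := (le_abs_self _).trans (n3 R3 le_rfl B3 hB3m hB3e.subset)
    have hsub : ∀ z, l1 z * l2 z * l3 z ≠ 1 → z ∈ B1 ∨ z ∈ B2 ∨ z ∈ B3 := by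
      intro z hz
      by_contra hcon
      rw [not_or, not_or, hB1e, hB2e, hB3e] at hcon
      obtain ⟨c1, c2, c3⟩ := hcon
      apply hz
      rw [ho1 z (fun p hp => by
          by_contra h; exact c1 ⟨p, P_fin.mem_toFinset.1 hp, not_le.1 h⟩),
        ho2 z (not_lt.1 c2), ho3 z (fun p hp => by
          by_contra h; exact c3 ⟨p, hZf.mem_toFinset.1 hp, not_le.1 h⟩)]
      norm_num
    have i0 : ∀ B : Set (ℝ × ℝ), MeasurableSet B → IntegrableOn (B.indicator m) (U \ Zr r) := fun B hB =>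
      hm.indicator hB
    have e0 : ∀ B : Set (ℝ × ℝ), MeasurableSet B → ∫ z in (U \ Zr r) ∩ B, m z = ∫ z in U \ Zr r, B.indicator m z :=
      fun B hB => (setIntegral_indicator hB).symm
    rw [e0 _ hBm]
    rw [e0 _ hB1m] at s1
    rw [e0 _ hB2m] at s2
    rw [e0 _ hB3m] at s3
    have h4 : ∫ z in U \ Zr r, {z : ℝ × ℝ | l1 z * l2 z * l3 z ≠ 1}.indicator m z ≤
        ∫ z in U \ Zr r, (B1.indicator m z + B2.indicator m z + B3.indicator m z) := by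
      refine integral_mono (i0 _ hBm) (((i0 _ hB1m).add (i0 _ hB2m)).add (i0 _ hB3m)) fun z => ?_
      have p1 : 0 ≤ B1.indicator m z := indicator_nonneg (fun z _ => hm0 z) z
      have p2 : 0 ≤ B2.indicator m z := indicator_nonneg (fun z _ => hm0 z) z
      have p3 : 0 ≤ B3.indicator m z := indicator_nonneg (fun z _ => hm0 z) z
      show {z : ℝ × ℝ | l1 z * l2 z * l3 z ≠ 1}.indicator m z ≤ B1.indicator m z + B2.indicator m z + B3.indicator m z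
      by_cases hz : z ∈ {z : ℝ × ℝ | l1 z * l2 z * l3 z ≠ 1}
      · rw [indicator_of_mem hz]
        rcases hsub z hz with h | h | h
        · have := indicator_of_mem h m
          linarith
        · have := indicator_of_mem h m
          linarith
        · have := indicator_of_mem h m
          linarith
      · rw [indicator_of_notMem hz]
        positivity
    have i12 : IntegrableOn (fun z => B1.indicator m z + B2.indicator m z) (U \ Zr r) := (i0 _ hB1m).add (i0 _ hB2m)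
    rw [integral_add i12 (i0 _ hB3m), integral_add (i0 _ hB1m) (i0 _ hB2m)] at h4
    linarith
  · have c1 : Cap r l1 (e / 16) := fun q hq _ hq2 hg => cap1 q hq hq2 hg
    have c2 : Cap r l2 (e / 16) := fun q hq h0 hq2 hg => by
      obtain ⟨i, j⟩ := cap2 q hq h0 hg
      refine ⟨i, j.trans (mul_le_mul_of_nonneg_left ?_ (by positivity))⟩
      exact integral_mono hg (hq2.add hg) fun z => le_add_of_nonneg_left (sq_nonneg _)
    have c3 : Cap r l3 (e / 8) := fun q hq _ hq2 hg => cap3 q hq hq2 hg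
    have c := cap_mul hK12 hK3 h0112 h013 (cap_mul hK1 hK2 h011 h012 c1 c2) c3
    intro q hq h0 hq2 hg
    obtain ⟨i, j⟩ := c q hq h0 hq2 hg
    refine ⟨i, j.trans (mul_le_mul_of_nonneg_right (by linarith) ?_)⟩
    exact integral_nonneg fun z => add_nonneg (sq_nonneg _) (gr_nonneg _ _)

end H46SB
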